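import Mathlib

/-!
# E8 over the integers, part (3): arithmetic of `K = ℚ(ζ₃₁)`, definitions

`D` is the group of divisors of `𝓞 K` (finitely supported functions on the maximal ideals), `dv` the divisor of an
element, `T`, `S` the action of `σ` (`σ ζ = ζ ^ 3`) on divisors and on `Kˣ` (written additively), `P0 = (1 - ζ)` the prime
over `31`.
-/

set_option autoImplicit false

namespace Pool.Agent.Helper2.E8A

open NumberField Polynomial IsDedekindDomain nonZeroDivisors

/-- The field of the 31st roots of unity. -/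
abbrev K : Type := CyclotomicField 31 ℚ

instance fact31 : Fact (Nat.Prime 31) := ⟨by norm_num⟩

instance cyc : IsCyclotomicExtension {31} ℚ K := CyclotomicField.isCyclotomicExtension 31 ℚ

instance nfK : NumberField K := inferInstance

instance cmK : IsCMField K :=
  IsCyclotomicExtension.Rat.isCMField K (S := {31}) ⟨31, rfl, by norm_num⟩

/-- A primitive 31st root of unity. -/
noncomputable def ζ : K := IsCyclotomicExtension.zeta 31 ℚ K

theorem hζ : IsPrimitiveRoot ζ 31 := IsCyclotomicExtension.zeta_spec 31 ℚ K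

/-- The automorphism `ζ ↦ ζ ^ 3`. -/
noncomputable def σ : K ≃ₐ[ℚ] K :=
  (IsCyclotomicExtension.autEquivPow K (cyclotomic.irreducible_rat (n := 31) (by norm_num))).symm
    (ZMod.unitOfCoprime 3 (by norm_num))

/-- The maximal ideals. -/
abbrev V : Type := HeightOneSpectrum (𝓞 K)

/-- The divisors. -/
abbrev D : Type := V →₀ ℤ

theorem fin_cnt (x : K) : (Function.support fun v : V =>
    FractionalIdeal.count K v (FractionalIdeal.spanSingleton (𝓞 K)⁰ x)).Finite :=
  FractionalIdeal.finite_factors (FractionalIdeal.spanSingleton (𝓞 K)⁰ x)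

/-- The divisor of an element of `Kˣ`. -/
noncomputable def dv : Additive Kˣ →+ D where
  toFun x := Finsupp.ofSupportFinite
    (fun v => FractionalIdeal.count K v (FractionalIdeal.spanSingleton (𝓞 K)⁰ (x.toMul : K)))
    (fin_cnt _)
  map_zero' := by
    ext v
    change FractionalIdeal.count K v (FractionalIdeal.spanSingleton (𝓞 K)⁰ 1) = 0
    rw [FractionalIdeal.spanSingleton_one, FractionalIdeal.count_one]
  map_add' x y := by
    ext v
    change FractionalIdeal.count K v (FractionalIdeal.spanSingleton (𝓞 K)⁰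
      ((x.toMul : K) * (y.toMul : K))) = FractionalIdeal.count K v
      (FractionalIdeal.spanSingleton (𝓞 K)⁰ (x.toMul : K)) + FractionalIdeal.count K v
      (FractionalIdeal.spanSingleton (𝓞 K)⁰ (y.toMul : K))
    rw [← FractionalIdeal.spanSingleton_mul_spanSingleton, FractionalIdeal.count_mul]
    · exact FractionalIdeal.spanSingleton_ne_zero_iff.mpr (Units.ne_zero _)
    · exact FractionalIdeal.spanSingleton_ne_zero_iff.mpr (Units.ne_zero _)

theorem dv_apply (x : Additive Kˣ) (v : V) : dv x v =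
    FractionalIdeal.count K v (FractionalIdeal.spanSingleton (𝓞 K)⁰ (x.toMul : K)) := rfl

/-- The action of `σ` on the maximal ideals. -/
noncomputable def sV : V ≃ V :=
  HeightOneSpectrum.equivOfRingEquiv (RingOfIntegers.mapRingEquiv (σ : K ≃+* K))

/-- The action of `σ` on the divisors. -/
noncomputable def T : D →ₗ[ℤ] D := Finsupp.lmapDomain ℤ ℤ sV

/-- The action of `σ` on `Kˣ`. -/
noncomputable def S : Additive Kˣ →ₗ[ℤ] Additive Kˣ :=
  (Units.map (σ : K →* K)).toAdditive.toIntLinearMap

/-- `1 - ζ`, as an element of `Kˣ`. -/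
noncomputable def pi0 : Additive Kˣ :=
  Additive.ofMul (Units.mk0 (1 - ζ) (sub_ne_zero.mpr (fun h => hζ.ne_one (by norm_num) h.symm)))

/-- The prime over `31`. -/
noncomputable def P0 : V where
  asIdeal := Ideal.span {hζ.toInteger - 1}
  isPrime := IsCyclotomicExtension.Rat.isPrime_span_zeta_sub_one' 31 hζ
  ne_bot := by
    rw [Ne, Ideal.span_singleton_eq_bot, sub_eq_zero]
    intro h
    exact hζ.ne_one (by norm_num) (congrArg (algebraMap (𝓞 K) K) h)

/-- The 30th cyclotomic polynomial. -/
noncomputable def Φ : ℤ[X] := X ^ 8 + X ^ 7 - X ^ 5 - X ^ 4 - X ^ 3 + X + 1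

/-- `(X ^ 15 + 1) / Φ`. -/
noncomputable def A : ℤ[X] := X ^ 7 - X ^ 6 + X ^ 5 + X ^ 2 - X + 1

/-- The exponent of the Jacobi sum `J (χ, χ ^ 6)`. -/
noncomputable def θ : ℤ[X] := 1 + X + X ^ 2 + X ^ 5 + X ^ 6 + X ^ 7 + X ^ 11 + X ^ 12 + X ^ 13 +
  X ^ 18 + X ^ 19 + X ^ 23 + X ^ 24 + X ^ 25 + X ^ 29

/-- `-1`, as an element of `Kˣ`. -/
noncomputable def neg1 : Additive Kˣ := Additive.ofMul (-1)

/-- Totally positive: all conjugates are positive real numbers. -/
def Tp (x : K) : Prop := ∀ φ : K →+* ℂ, (φ x).im = 0 ∧ 0 < (φ x).re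

/-- Invariant under complex conjugation. -/
def Rl (x : K) : Prop := (σ ^ 15) x = x

/-- `v` has degree one and is not `P0`. -/
def Dg1 (v : V) : Prop := (Ideal.absNorm v.asIdeal).Prime ∧ v ≠ P0

end Pool.Agent.Helper2.E8A
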