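import Pool.Agent.Helper2.E8A.DvsA

/-!
# Block E8A-DVS2: divisors, units and integral elements

* `unit_of_dv`: all counts of `(x)` are zero, so `(x) = 1` (`FractionalIdeal.finprod_heightOneSpectrum_factorization'`).
* `dv_pi0`: `(1 - ζ)` is the prime ideal `P0` (`count_self`/`count_maximal`), `hζ.toInteger - 1`, sign.
* `sV_P0`: `σ (ζ - 1) = ζ ^ 3 - 1`, associated to `ζ - 1`; or: `P0` is the only prime over `31`
  (`IsCyclotomicExtension.Rat.eq_span_zeta_sub_one_of_liesOver'`).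
* `dv_nonneg`, `dv_pos_iff`: integral elements: `FractionalIdeal.count_coe_nonneg`, `Associates.count_ne_zero_iff_dvd`.
* `dv_prime`: `p ≠ 31` is unramified in `K` (`IsCyclotomicExtension.Rat.ramificationIdx_eq_of_not_dvd` or the like).
-/

set_option autoImplicit false

namespace Pool.Agent.Helper2.E8A

open NumberField Polynomial IsDedekindDomain nonZeroDivisors

theorem dv_coe {x : Additive Kˣ} {y : 𝓞 K} (h : (y : K) = (x.toMul : K)) (v : V) :
    dv x v = FractionalIdeal.count K v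
      ((Ideal.span {y} : Ideal (𝓞 K)) : FractionalIdeal (𝓞 K)⁰ K) := by
  rw [dv_apply, FractionalIdeal.coeIdeal_span_singleton, ← h]

theorem ne_zero_of_coe {x : Additive Kˣ} {y : 𝓞 K} (h : (y : K) = (x.toMul : K)) : y ≠ 0 := by
  rintro rfl
  exact x.toMul.ne_zero (by rw [← h]; rfl)

theorem span_ne_zero_of_coe {x : Additive Kˣ} {y : 𝓞 K} (h : (y : K) = (x.toMul : K)) :
    (Ideal.span {y} : Ideal (𝓞 K)) ≠ 0 := by
  rw [Ne, Ideal.zero_eq_bot, Ideal.span_singleton_eq_bot]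
  exact ne_zero_of_coe h

theorem unit_of_dv {x : Additive Kˣ} (h : dv x = 0) :
    ∃ e : (𝓞 K)ˣ, ((e : 𝓞 K) : K) = (x.toMul : K) := by
  have hx : (x.toMul : K) ≠ 0 := x.toMul.ne_zero
  have hI : FractionalIdeal.spanSingleton (𝓞 K)⁰ (x.toMul : K) ≠ 0 :=
    FractionalIdeal.spanSingleton_ne_zero_iff.mpr hx
  have h1 : FractionalIdeal.spanSingleton (𝓞 K)⁰ (x.toMul : K) = 1 := by
    rw [← FractionalIdeal.finprod_heightOneSpectrum_factorization' K hI]
    rw [finprod_eq_one_of_forall_eq_one]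
    intro v
    have hv : FractionalIdeal.count K v
        (FractionalIdeal.spanSingleton (𝓞 K)⁰ (x.toMul : K)) = 0 := by
      rw [← dv_apply, h]; rfl
    rw [hv, zpow_zero]
  have h2 : FractionalIdeal.spanSingleton (𝓞 K)⁰ ((x.toMul : K)⁻¹) = 1 := by
    rw [← FractionalIdeal.spanSingleton_inv, h1, inv_one]
  have key : ∀ z : K, FractionalIdeal.spanSingleton (𝓞 K)⁰ z = 1 → ∃ y : 𝓞 K, (y : K) = z := by
    intro z hz
    have hm : z ∈ (1 : FractionalIdeal (𝓞 K)⁰ K) := by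
      rw [← hz]; exact FractionalIdeal.mem_spanSingleton_self _ _
    obtain ⟨y, hy⟩ := (FractionalIdeal.mem_one_iff _).mp hm
    exact ⟨y, hy⟩
  obtain ⟨a, ha⟩ := key _ h1
  obtain ⟨b, hb⟩ := key _ h2
  have hab : a * b = 1 := by
    apply RingOfIntegers.ext
    change (a : K) * (b : K) = 1
    rw [ha, hb, mul_inv_cancel₀ hx]
  exact ⟨⟨a, b, hab, by rw [mul_comm]; exact hab⟩, ha⟩

theorem dv_of_unit {x : Additive Kˣ} (e : (𝓞 K)ˣ) (h : ((e : 𝓞 K) : K) = (x.toMul : K)) :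
    dv x = 0 := by
  ext v
  rw [dv_coe h v]
  have h1 : (Ideal.span {(e : 𝓞 K)} : Ideal (𝓞 K)) = 1 := by
    rw [Ideal.one_eq_top, Ideal.span_singleton_eq_top]
    exact e.isUnit
  rw [h1, Ideal.one_eq_top, FractionalIdeal.coeIdeal_top, FractionalIdeal.count_one]
  rfl

theorem sV_P0 : sV P0 = P0 := by
  have h31 : Associated ((hζ.toInteger - 1) ^ 30) ((31 : ℕ) : 𝓞 K) :=
    IsCyclotomicExtension.Rat.associated_zeta_sub_one_pow_prime 31 hζ
  have h1 : ((31 : ℕ) : 𝓞 K) ∈ P0.asIdeal := by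
    change _ ∈ Ideal.span {hζ.toInteger - 1}
    rw [Ideal.mem_span_singleton]
    exact (dvd_pow_self _ (by norm_num)).trans h31.dvd
  have h2 : ((31 : ℕ) : 𝓞 K) ∈ (sV P0).asIdeal := by
    change (RingOfIntegers.mapRingEquiv (σ : K ≃+* K)).symm ((31 : ℕ) : 𝓞 K) ∈ P0.asIdeal
    rw [map_natCast]
    exact h1
  have h3 : (hζ.toInteger - 1) ^ 30 ∈ (sV P0).asIdeal :=
    Ideal.mem_of_dvd _ h31.symm.dvd h2
  have h4 : hζ.toInteger - 1 ∈ (sV P0).asIdeal := (sV P0).isPrime.mem_of_pow_mem _ h3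
  have h5 : P0.asIdeal ≤ (sV P0).asIdeal := by
    change Ideal.span {hζ.toInteger - 1} ≤ _
    rw [Ideal.span_singleton_le_iff_mem]
    exact h4
  exact HeightOneSpectrum.ext (P0.isMaximal.eq_of_le (sV P0).isPrime.ne_top h5).symm

theorem dv_pi0 : dv pi0 = Finsupp.single P0 1 := by
  ext v
  have h : ((1 - hζ.toInteger : 𝓞 K) : K) = (pi0.toMul : K) := rfl
  rw [dv_coe h v]
  have h1 : (Ideal.span {(1 - hζ.toInteger : 𝓞 K)} : Ideal (𝓞 K)) = P0.asIdeal := by
    change _ = Ideal.span {hζ.toInteger - 1}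
    rw [← neg_sub, Ideal.span_singleton_neg]
  classical
  rw [h1, FractionalIdeal.count_maximal, Finsupp.single_apply]

theorem dv_nonneg {x : Additive Kˣ} {y : 𝓞 K} (h : (y : K) = (x.toMul : K)) (v : V) :
    0 ≤ dv x v := by
  rw [dv_coe h v]
  exact FractionalIdeal.count_coe_nonneg K v _

theorem dv_pos_iff {x : Additive Kˣ} {y : 𝓞 K} (h : (y : K) = (x.toMul : K)) (v : V) :
    0 < dv x v ↔ y ∈ v.asIdeal := by
  classical
  rw [dv_coe h v, FractionalIdeal.count_coe K v (span_ne_zero_of_coe h), Nat.cast_pos,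
    Nat.pos_iff_ne_zero, Associates.count_ne_zero_iff_dvd (span_ne_zero_of_coe h) v.irreducible,
    Ideal.dvd_span_singleton]

/-- `v` over an unramified rational prime. -/
theorem dv_prime {p : ℕ} (hp : p.Prime) (h31 : p ≠ 31) {x : Additive Kˣ}
    (hx : (x.toMul : K) = p) (v : V) (hv : (p : 𝓞 K) ∈ v.asIdeal) : dv x v = 1 := by
  classical
  have hy : (((p : ℕ) : 𝓞 K) : K) = (x.toMul : K) := by rw [hx]; simp
  have : Fact p.Prime := ⟨hp⟩
  have : NeZero (31 : ℕ) := ⟨by norm_num⟩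
  have hL : v.asIdeal.LiesOver (Ideal.span {(p : ℤ)}) :=
    (Ideal.liesOver_span_iff v.isPrime.ne_top (Nat.prime_iff_prime_int.mp hp)).mpr
      (by simpa using hv)
  have := v.isPrime
  have hm : Ideal.map (algebraMap ℤ (𝓞 K)) (Ideal.span {(p : ℤ)}) =
      Ideal.span {((p : ℕ) : 𝓞 K)} := by
    rw [Ideal.map_span, Set.image_singleton]
    simp
  have hb : Ideal.map (algebraMap ℤ (𝓞 K)) (Ideal.span {(p : ℤ)}) ≠ ⊥ := by
    rw [hm]; exact span_ne_zero_of_coe hy
  have hr : Ideal.ramificationIdx v.asIdeal ℤ = 1 :=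
    IsCyclotomicExtension.Rat.ramificationIdx_eq_of_not_dvd (m := 31) p K v.asIdeal
      (fun hd => h31 ((Nat.prime_dvd_prime_iff_eq hp (by norm_num)).mp hd))
  rw [Ideal.IsDedekindDomain.ramificationIdx_eq_normalizedFactors_count
    (Ideal.span {(p : ℤ)}) v.asIdeal hb, hm] at hr
  rw [dv_coe hy v, FractionalIdeal.count_coe K v (span_ne_zero_of_coe hy),
    Ideal.count_associates_factors_eq (span_ne_zero_of_coe hy) v.isPrime v.ne_bot]
  exact_mod_cast hr

end Pool.Agent.Helper2.E8A
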