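import Pool.Agent.Helper2.E8A.Defs

/-!
# Block E8A-SIG: the automorphism `σ`

* `σ_ζ`: `IsCyclotomicExtension.autEquivPow` (`autEquivPow_symm_apply`, `IsPrimitiveRoot.powerBasis`/`autToPow_spec`).
* `σ_pow_ζ`: induction. `σ30`, `σ15_ζ`: `3 ^ 30 = 1`, `3 ^ 15 = 30` modulo `31`; an automorphism is determined by the image
  of `ζ` (`IsPrimitiveRoot.powerBasis`, `algHom_ext`).
* `conj_emb`: both sides are ring homomorphisms `K →+* ℂ` which agree at `ζ` (`φ ζ` is a root of unity, its complex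
  conjugate is its inverse), `K = ℚ(ζ)`. `emb_eq`: `φ ζ` and `ψ ζ` are primitive 31st roots of unity in `ℂ`, so `ψ ζ = (φ ζ) ^ k`
  with `k` prime to `31`, and `3` is a primitive root modulo `31`: `k = 3 ^ i`.
* `exists_emb`: existence of an embedding with `ζ ↦ exp (2 π i j / 31)`: `IsPrimitiveRoot` and
  `IsCyclotomicExtension`/`PowerBasis.lift`, or take any embedding and use `emb_eq`.
-/

set_option autoImplicit false

namespace Pool.Agent.Helper2.E8A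

open NumberField Polynomial IsDedekindDomain nonZeroDivisors

/-- An automorphism is determined by the image of `ζ`. -/
private theorem aut_ext53 {f g : K ≃ₐ[ℚ] K} (h : f ζ = g ζ) : f = g := by
  have h1 : f.toAlgHom = g.toAlgHom := by
    apply (hζ.powerBasis ℚ).algHom_ext
    rw [AlgEquiv.coe_toAlgHom, AlgEquiv.coe_toAlgHom, IsPrimitiveRoot.powerBasis_gen]
    exact h
  exact AlgEquiv.coe_toAlgHom_injective h1

set_option maxRecDepth 100000 in
private theorem rl53 {x : K} (h : Rl x) : (σ ^ 15) x = x := h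

private theorem hom_ext53 {f g : K →+* ℂ} (h : f ζ = g ζ) : f = g := by
  have h1 : f.toRatAlgHom = g.toRatAlgHom := by
    apply (hζ.powerBasis ℚ).algHom_ext
    rw [IsPrimitiveRoot.powerBasis_gen]
    exact h
  ext x
  exact DFunLike.congr_fun h1 x

private theorem pow_mod53 {R : Type*} [Monoid R] {z : R} (hz : z ^ 31 = 1) (n : ℕ) :
    z ^ n = z ^ (n % 31) := by
  conv_lhs => rw [← Nat.div_add_mod n 31, pow_add, pow_mul, hz, one_pow, one_mul]

private theorem prim53 : ∀ k : ℕ, k < 31 → k ≠ 0 → ∃ i : ℕ, i < 30 ∧ 3 ^ i % 31 = k := by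
  decide +kernel

private theorem ex53 {R : Type*} [CommRing R] [IsDomain R] {z w : R} (hz : IsPrimitiveRoot z 31)
    (hw : IsPrimitiveRoot w 31) : ∃ i : ℕ, i < 30 ∧ w = z ^ 3 ^ i := by
  obtain ⟨k, hk, hkw⟩ := hz.eq_pow_of_pow_eq_one hw.pow_eq_one
  have hk0 : k ≠ 0 := by
    rintro rfl
    rw [pow_zero] at hkw
    exact hw.ne_one (by norm_num) hkw.symm
  obtain ⟨i, hi, h3⟩ := prim53 k hk hk0
  exact ⟨i, hi, by rw [pow_mod53 hz.pow_eq_one, h3, hkw]⟩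

theorem σ_ζ : σ ζ = ζ ^ 3 := by
  have h := IsCyclotomicExtension.Rat.galEquivZMod_apply_of_pow_eq 31 K σ hζ.pow_eq_one
  have h2 : IsCyclotomicExtension.Rat.galEquivZMod 31 K σ
      = ZMod.unitOfCoprime 3 (by norm_num) := MulEquiv.apply_symm_apply _ _
  rw [h, h2]
  rfl

theorem σ_pow_ζ (n : ℕ) : (σ ^ n) ζ = ζ ^ 3 ^ n := by
  induction n with
  | zero => simp
  | succ n ih =>
    rw [pow_succ, AlgEquiv.mul_apply, σ_ζ, map_pow, ih, ← pow_mul, pow_succ]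

theorem σ30 : σ ^ 30 = 1 := by
  apply aut_ext53
  rw [σ_pow_ζ, AlgEquiv.one_apply, pow_mod53 hζ.pow_eq_one]
  norm_num

theorem σ15_ζ : (σ ^ 15) ζ = ζ⁻¹ := by
  rw [σ_pow_ζ, pow_mod53 hζ.pow_eq_one]
  have h1 : 3 ^ 15 % 31 = 30 := by norm_num
  rw [h1]
  apply eq_inv_of_mul_eq_one_left
  rw [← pow_succ]
  exact hζ.pow_eq_one

theorem σ15_σ15 (x : K) : (σ ^ 15) ((σ ^ 15) x) = x := by
  rw [← AlgEquiv.mul_apply, ← pow_add, show 15 + 15 = 30 from rfl, σ30, AlgEquiv.one_apply]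

/-- Complex conjugation. -/
theorem conj_emb (φ : K →+* ℂ) (x : K) : starRingEnd ℂ (φ x) = φ ((σ ^ 15) x) := by
  have h1 : (starRingEnd ℂ).comp φ = φ.comp ((σ ^ 15 : K ≃ₐ[ℚ] K) : K →+* K) := by
    apply hom_ext53
    have h2 : ‖φ ζ‖ = 1 := (hζ.map_of_injective φ.injective).norm'_eq_one (by norm_num)
    have h3 : φ ((σ ^ 15) ζ) = (φ ζ)⁻¹ := by rw [σ15_ζ, map_inv₀]
    change starRingEnd ℂ (φ ζ) = φ ((σ ^ 15) ζ)
    rw [h3, Complex.inv_eq_conj h2]
  exact DFunLike.congr_fun h1 x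

theorem emb_eq (φ ψ : K →+* ℂ) : ∃ i : ℕ, i < 30 ∧ ∀ x, ψ x = φ ((σ ^ i) x) := by
  have h1 : IsPrimitiveRoot (φ ζ) 31 := hζ.map_of_injective φ.injective
  have h2 : IsPrimitiveRoot (ψ ζ) 31 := hζ.map_of_injective ψ.injective
  obtain ⟨i, hi, h3⟩ := ex53 h1 h2
  refine ⟨i, hi, ?_⟩
  have h4 : ψ = φ.comp ((σ ^ i : K ≃ₐ[ℚ] K) : K →+* K) := by
    apply hom_ext53
    change ψ ζ = φ ((σ ^ i) ζ)
    rw [σ_pow_ζ, map_pow, h3]
  intro x
  exact DFunLike.congr_fun h4 x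

theorem exists_emb (j : ℕ) (hj : ¬ 31 ∣ j) : ∃ φ : K →+* ℂ,
    φ ζ = Complex.exp (2 * Real.pi * Complex.I * j / 31) := by
  have φ0 : K →+* ℂ := Classical.arbitrary _
  have h1 : IsPrimitiveRoot (φ0 ζ) 31 := hζ.map_of_injective φ0.injective
  have h2 : IsPrimitiveRoot (Complex.exp (2 * Real.pi * Complex.I * j / 31)) 31 := by
    have h3 := Complex.isPrimitiveRoot_exp_of_coprime j 31 (by norm_num)
      ((Nat.Prime.coprime_iff_not_dvd (by norm_num)).mpr hj).symm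
    have h4 : (2 * Real.pi * Complex.I * j / 31 : ℂ) = 2 * Real.pi * Complex.I * (j / (31 : ℕ)) := by
      push_cast
      ring
    rw [h4]
    exact h3
  obtain ⟨i, hi, h5⟩ := ex53 h1 h2
  refine ⟨φ0.comp ((σ ^ i : K ≃ₐ[ℚ] K) : K →+* K), ?_⟩
  change φ0 ((σ ^ i) ζ) = _
  rw [σ_pow_ζ, map_pow, h5]

/-- Every automorphism is a power of `σ`. -/
theorem aut_eq (τ : K ≃ₐ[ℚ] K) : ∃ i : ℕ, i < 30 ∧ τ = σ ^ i := by
  have h1 : IsPrimitiveRoot (τ ζ) 31 := hζ.map_of_injective τ.injective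
  obtain ⟨i, hi, h2⟩ := ex53 hζ h1
  exact ⟨i, hi, aut_ext53 (by rw [σ_pow_ζ, h2])⟩

/-- Elements with real conjugates are invariant under complex conjugation. -/
theorem rl_of_tp {x : K} (h : Tp x) : Rl x := by
  have φ : K →+* ℂ := Classical.arbitrary _
  apply φ.injective
  rw [← conj_emb, Complex.conj_eq_iff_im]
  exact (h φ).1

/-- Powers of `ζ` which are invariant under complex conjugation. -/
theorem dvd_of_rl {n : ℕ} (h : Rl (ζ ^ n)) : 31 ∣ n := by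
  have h1 : (ζ⁻¹) ^ n = ζ ^ n := by
    have e : ((σ ^ 15) ζ) ^ n = (ζ⁻¹) ^ n := congrArg (fun y => y ^ n) σ15_ζ
    have e1 : (σ ^ 15) (ζ ^ n) = ((σ ^ 15) ζ) ^ n := map_pow _ _ _
    have e2 : (σ ^ 15) (ζ ^ n) = ζ ^ n := rl53 h
    exact e.symm.trans (e1.symm.trans e2)
  have h2 : ζ ^ (n + n) = 1 := by
    rw [pow_add]
    nth_rewrite 1 [← h1]
    rw [← mul_pow, inv_mul_cancel₀ (hζ.ne_zero (by norm_num)), one_pow]
  have h3 : 31 ∣ n + n := (hζ.pow_eq_one_iff_dvd _).mp h2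
  omega

end Pool.Agent.Helper2.E8A
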