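import Pool.Agent.Helper2.E8A.Defs
import Pool.Agent.Helper2.E8A.Sig

/-!
# Block E8A-DVS1: divisors, the action of `σ`

* `dv_S`: `FractionalIdeal.count` is compatible with the automorphism of `𝓞 K` induced by `σ` (write `x = n / d` with
  `n`, `d ∈ 𝓞 K`, `count_well_defined`/`count_coe`, `Associates.count` of the image of an ideal under a ring isomorphism, or
  use `FractionalIdeal.count` and `emultiplicity`: `v ^ n ∣ (x)` iff `(σ v) ^ n ∣ (σ x)`).
* `dv_aeval`: induction on the polynomial (`Polynomial.induction_on`), `aeval` of a linear endomorphism.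
* `sV30`, `T30`, `S30`: `σ ^ 30 = 1` (`σ30`).
-/

set_option autoImplicit false

namespace Pool.Agent.Helper2.E8A

open NumberField Polynomial IsDedekindDomain nonZeroDivisors

/-- The automorphism of the ring of integers. -/
noncomputable def eO : 𝓞 K ≃+* 𝓞 K := RingOfIntegers.mapRingEquiv (σ : K ≃+* K)

theorem eO_coe (n : 𝓞 K) : ((eO n : 𝓞 K) : K) = σ (n : K) := rfl

theorem sV_asIdeal (v : V) : (sV v).asIdeal = v.asIdeal.map (eO : 𝓞 K →+* 𝓞 K) := by
  have h : (sV v).asIdeal = v.asIdeal.comap (eO.symm : 𝓞 K →+* 𝓞 K) := rfl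
  rw [h]
  exact (Ideal.map_comap_of_equiv eO).symm

theorem mem_sV_pow (v : V) (n : 𝓞 K) (i : ℕ) :
    eO n ∈ (sV v).asIdeal ^ i ↔ n ∈ v.asIdeal ^ i := by
  rw [sV_asIdeal, ← Ideal.map_pow]
  constructor
  · intro h
    obtain ⟨y, hy, h1⟩ := (Ideal.mem_map_of_equiv eO _).mp h
    rwa [← eO.injective h1]
  · intro h
    exact Ideal.mem_map_of_mem (eO : 𝓞 K →+* 𝓞 K) h

open Classical in
/-- The exponent of `v` in `(n)`. -/
noncomputable def cnt (v : V) (n : 𝓞 K) : ℕ :=
  (Associates.mk v.asIdeal).count (Associates.mk (Ideal.span {n})).factors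

theorem le_cnt_iff (v : V) {n : 𝓞 K} (hn : n ≠ 0) (i : ℕ) :
    i ≤ cnt v n ↔ n ∈ v.asIdeal ^ i := by
  classical
  rw [← HeightOneSpectrum.intValuation_le_pow_iff_mem, HeightOneSpectrum.intValuation_if_neg v hn,
    WithZero.exp_le_exp]
  unfold cnt
  constructor
  · intro h
    have : (i : ℤ) ≤ ((Associates.mk v.asIdeal).count
      (Associates.mk (Ideal.span {n})).factors : ℤ) := by exact_mod_cast h
    linarith
  · intro h
    have : (i : ℤ) ≤ ((Associates.mk v.asIdeal).count
      (Associates.mk (Ideal.span {n})).factors : ℤ) := by linarith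
    exact_mod_cast this

theorem cnt_sV (v : V) {n : 𝓞 K} (hn : n ≠ 0) : cnt (sV v) (eO n) = cnt v n := by
  have hn' : eO n ≠ 0 := (map_ne_zero_iff eO eO.injective).mpr hn
  apply le_antisymm
  · rw [le_cnt_iff v hn, ← mem_sV_pow, ← le_cnt_iff _ hn']
  · rw [le_cnt_iff _ hn', mem_sV_pow, ← le_cnt_iff v hn]

theorem count_frac (v : V) {n d : 𝓞 K} (hn : n ≠ 0) (hd : d ≠ 0) :
    FractionalIdeal.count K v (FractionalIdeal.spanSingleton (𝓞 K)⁰
      (algebraMap (𝓞 K) K n / algebraMap (𝓞 K) K d)) = (cnt v n : ℤ) - cnt v d := by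
  have hn' : algebraMap (𝓞 K) K n ≠ 0 :=
    (map_ne_zero_iff _ (IsFractionRing.injective (𝓞 K) K)).mpr hn
  have hd' : algebraMap (𝓞 K) K d ≠ 0 :=
    (map_ne_zero_iff _ (IsFractionRing.injective (𝓞 K) K)).mpr hd
  refine FractionalIdeal.count_well_defined K v ?_ ?_
  · exact FractionalIdeal.spanSingleton_ne_zero_iff.mpr (div_ne_zero hn' hd')
  · rw [FractionalIdeal.coeIdeal_span_singleton, FractionalIdeal.spanSingleton_mul_spanSingleton]
    congr 1
    field_simp

theorem T_sV (a : D) (v : V) : (T a) (sV v) = a v :=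
  Finsupp.mapDomain_apply sV.injective a v

theorem dv_S (x : Additive Kˣ) : dv (S x) = T (dv x) := by
  ext w
  obtain ⟨v, rfl⟩ := sV.surjective w
  rw [T_sV, dv_apply, dv_apply]
  obtain ⟨n, d, hd, hx⟩ := IsFractionRing.div_surjective (A := 𝓞 K) (x.toMul : K)
  have hd0 : d ≠ 0 := nonZeroDivisors.ne_zero hd
  have hn0 : n ≠ 0 := by
    rintro rfl
    rw [map_zero, zero_div] at hx
    exact Units.ne_zero _ hx.symm
  have h1 : (((S x).toMul : Kˣ) : K) =
      algebraMap (𝓞 K) K (eO n) / algebraMap (𝓞 K) K (eO d) := by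
    have h2 : (((S x).toMul : Kˣ) : K) = σ (x.toMul : K) := rfl
    rw [h2, ← hx, map_div₀]
    rfl
  rw [h1, ← hx, count_frac v hn0 hd0, count_frac (sV v)
    ((map_ne_zero_iff eO eO.injective).mpr hn0) ((map_ne_zero_iff eO eO.injective).mpr hd0),
    cnt_sV v hn0, cnt_sV v hd0]

theorem dv_S_pow (n : ℕ) (x : Additive Kˣ) : dv ((S ^ n) x) = (T ^ n) (dv x) := by
  induction n with
  | zero => rfl
  | succ n ih =>
    rw [pow_succ', pow_succ', Module.End.mul_apply, Module.End.mul_apply, dv_S, ih]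

theorem dv_aeval (p : ℤ[X]) (x : Additive Kˣ) : dv (aeval S p x) = aeval T p (dv x) := by
  induction p using Polynomial.induction_on' with
  | add p q hp hq => rw [map_add, map_add, LinearMap.add_apply, LinearMap.add_apply, map_add, hp, hq]
  | monomial n a =>
    rw [aeval_monomial, aeval_monomial, Module.End.mul_apply, Module.End.mul_apply, ← dv_S_pow,
      Module.algebraMap_end_apply, Module.algebraMap_end_apply, map_zsmul]

theorem S_toMul (x : Additive Kˣ) : ((S x).toMul : K) = σ (x.toMul : K) := rfl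

theorem S_pow_toMul (n : ℕ) (x : Additive Kˣ) :
    (((S ^ n) x).toMul : K) = (σ ^ n) (x.toMul : K) := by
  induction n with
  | zero => rfl
  | succ n ih =>
    rw [pow_succ', pow_succ', Module.End.mul_apply, S_toMul, ih]
    rfl

theorem T_single (v : V) (n : ℤ) : T (Finsupp.single v n) = Finsupp.single (sV v) n :=
  Finsupp.mapDomain_single

theorem T_pow_apply (n : ℕ) (a : D) (v : V) : ((T ^ n) a) ((sV^[n]) v) = a v := by
  induction n with
  | zero => rfl
  | succ n ih =>
    rw [pow_succ', Module.End.mul_apply, Function.iterate_succ_apply', T_sV, ih]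

theorem eO_iter (n : ℕ) (x : 𝓞 K) : (((eO^[n]) x : 𝓞 K) : K) = (σ ^ n) (x : K) := by
  induction n with
  | zero => rfl
  | succ n ih =>
    rw [Function.iterate_succ_apply', eO_coe, ih, pow_succ']
    rfl

theorem mem_sV_iter (n : ℕ) (v : V) (x : 𝓞 K) :
    (eO^[n]) x ∈ ((sV^[n]) v).asIdeal ↔ x ∈ v.asIdeal := by
  induction n with
  | zero => rfl
  | succ n ih =>
    rw [Function.iterate_succ_apply', Function.iterate_succ_apply']
    have h := mem_sV_pow ((sV^[n]) v) ((eO^[n]) x) 1
    rw [pow_one, pow_one] at h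
    rw [h, ih]

theorem sV30 (v : V) : (sV^[30]) v = v := by
  apply HeightOneSpectrum.ext
  ext x
  have h : (eO^[30]) x = x := by
    apply RingOfIntegers.ext
    rw [eO_iter, σ30]
    rfl
  have h2 := mem_sV_iter 30 v x
  rw [h] at h2
  exact h2

theorem T30 : T ^ 30 = 1 := by
  apply LinearMap.ext
  intro a
  apply Finsupp.ext
  intro v
  have h := T_pow_apply 30 a v
  rw [sV30] at h
  rw [h]
  rfl

theorem S30 : S ^ 30 = 1 := by
  apply LinearMap.ext
  intro x
  apply Additive.toMul.injective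
  apply Units.ext
  rw [S_pow_toMul, σ30]
  rfl

end Pool.Agent.Helper2.E8A
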