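import Pool.Agent.Helper2.E8A.Thm

/-!
# Theorem A for fractional ideals (helper2)
-/

set_option autoImplicit false

namespace Pool.Agent.Helper2.E8A

open NumberField Polynomial IsDedekindDomain nonZeroDivisors

/-- Fractional ideals of `K`. -/
abbrev FI : Type := FractionalIdeal (𝓞 K)⁰ K

/-- The divisor of a fractional ideal (zero for the zero ideal). -/
noncomputable def dI (I : FI) : D := Finsupp.ofSupportFinite (fun v => FractionalIdeal.count K v I)
  (FractionalIdeal.finite_factors I)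

theorem dI_apply (I : FI) (v : V) : dI I v = FractionalIdeal.count K v I := rfl

theorem dI_span (x : Additive Kˣ) : dI (FractionalIdeal.spanSingleton (𝓞 K)⁰ (x.toMul : K)) = dv x := rfl

theorem dI_one : dI 1 = 0 := by
  ext v
  exact FractionalIdeal.count_one K v

theorem dI_mul {I J : FI} (hI : I ≠ 0) (hJ : J ≠ 0) : dI (I * J) = dI I + dI J := by
  ext v
  exact FractionalIdeal.count_mul K v hI hJ

theorem dI_inv (I : FI) : dI I⁻¹ = - dI I := by
  ext v
  exact FractionalIdeal.count_inv K v I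

theorem dI_inj {I J : FI} (hI : I ≠ 0) (hJ : J ≠ 0) (h : dI I = dI J) : I = J := by
  rw [← FractionalIdeal.finprod_heightOneSpectrum_factorization' K hI,
    ← FractionalIdeal.finprod_heightOneSpectrum_factorization' K hJ]
  refine finprod_congr fun v => ?_
  rw [← dI_apply, ← dI_apply, h]

theorem dI_P0 : dI (P0.asIdeal : FI) = Finsupp.single P0 1 := by
  classical
  ext v
  rw [dI_apply, FractionalIdeal.count_maximal, Finsupp.single_apply]

theorem mem_iff_dvd_ideal (v : V) {a : Ideal (𝓞 K)} (h : a ≠ 0) (i : ℕ) :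
    i ≤ (Associates.mk v.asIdeal).count (Associates.mk a).factors ↔ a ≤ v.asIdeal ^ i := by
  rw [← Ideal.dvd_iff_le, ← Associates.mk_le_mk_iff_dvd, Associates.mk_pow,
    ← Associates.prime_pow_dvd_iff_le (Associates.mk_ne_zero.mpr h) v.associates_irreducible]

theorem dI_mono {I J : FI} (hI : I ≠ 0) (h : I ≤ J) (v : V) : dI J v ≤ dI I v :=
  FractionalIdeal.count_mono K v hI h

/-- An element of minimal valuation. -/
theorem exists_min {I : FI} (hI : I ≠ 0) (v : V) : ∃ x : Additive Kˣ, (x.toMul : K) ∈ I ∧ dv x v = dI I v := by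
  have hv : (v.asIdeal : FI) ≠ 0 := FractionalIdeal.coeIdeal_ne_zero.mpr v.ne_bot
  have h1 : ¬ I ≤ (v.asIdeal : FI) * I := by
    intro h
    have h2 := dI_mono hI h v
    rw [dI_mul hv hI, Finsupp.add_apply, dI_apply _ v, FractionalIdeal.count_self] at h2
    linarith
  obtain ⟨x, hx, hx'⟩ := Set.not_subset.mp h1
  have hx0 : x ≠ 0 := by
    rintro rfl
    exact hx' (Submodule.zero_mem _)
  refine ⟨Additive.ofMul (Units.mk0 x hx0), hx, le_antisymm ?_ ?_⟩
  · by_contra hlt
    rw [not_le] at hlt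
    apply hx'
    -- `(x) = I * b` with an integral ideal `b`, `v ∣ b`
    have h3 : FractionalIdeal.spanSingleton (𝓞 K)⁰ x ≤ I := by
      rw [FractionalIdeal.spanSingleton_le_iff_mem]; exact hx
    have h4 : I⁻¹ * FractionalIdeal.spanSingleton (𝓞 K)⁰ x ≤ 1 := by
      rw [← inv_mul_cancel₀ hI]
      exact mul_le_mul_right h3 _
    obtain ⟨b, hb⟩ := FractionalIdeal.le_one_iff_exists_coeIdeal.mp h4
    have hs0 : FractionalIdeal.spanSingleton (𝓞 K)⁰ x ≠ 0 := FractionalIdeal.spanSingleton_ne_zero_iff.mpr hx0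
    have hI' : I⁻¹ ≠ 0 := inv_ne_zero hI
    have hb0 : b ≠ 0 := by
      rintro rfl
      rw [Ideal.zero_eq_bot, FractionalIdeal.coeIdeal_bot] at hb
      exact mul_ne_zero hI' hs0 hb.symm
    have h5 : dI (b : FI) v = dI (FractionalIdeal.spanSingleton (𝓞 K)⁰ x) v - dI I v := by
      rw [hb, dI_mul hI' hs0, dI_inv, Finsupp.add_apply, Finsupp.neg_apply]
      ring
    have h6 : 1 ≤ dI (b : FI) v := by
      rw [h5]
      have : dI I v < dI (FractionalIdeal.spanSingleton (𝓞 K)⁰ x) v := hlt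
      omega
    have h7 : b ≤ v.asIdeal := by
      have := (mem_iff_dvd_ideal v hb0 1).mp (by
        rw [dI_apply, FractionalIdeal.count_coe K v hb0] at h6
        exact_mod_cast h6)
      rwa [pow_one] at this
    have h8 : FractionalIdeal.spanSingleton (𝓞 K)⁰ x = (b : FI) * I := by
      rw [hb, mul_comm I⁻¹, mul_assoc, inv_mul_cancel₀ hI, mul_one]
    have h9 : (b : FI) * I ≤ (v.asIdeal : FI) * I :=
      mul_le_mul_left ((FractionalIdeal.coeIdeal_le_coeIdeal K).mpr h7) _
    have h10 : x ∈ (b : FI) * I := by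
      rw [← h8]; exact FractionalIdeal.mem_spanSingleton_self _ x
    exact h9 h10
  · exact dI_mono (FractionalIdeal.spanSingleton_ne_zero_iff.mpr hx0)
      (by rw [FractionalIdeal.spanSingleton_le_iff_mem]; exact hx) v

/-- The divisor is compatible with `σ`. -/
theorem dI_map {I J : FI} (hI : I ≠ 0) (hJ : J ≠ 0) (h : ∀ x : K, x ∈ I ↔ σ x ∈ J) : dI J = T (dI I) := by
  ext w
  obtain ⟨v, rfl⟩ := sV.surjective w
  rw [T_sV]
  obtain ⟨x, hx, hxv⟩ := exists_min hI v
  obtain ⟨y, hy, hyv⟩ := exists_min hJ (sV v)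
  apply le_antisymm
  · rw [← hxv, ← T_sV (dv x) v, ← dv_S]
    refine dI_mono (FractionalIdeal.spanSingleton_ne_zero_iff.mpr (Units.ne_zero _)) ?_ _
    rw [FractionalIdeal.spanSingleton_le_iff_mem, S_toMul]
    exact (h _).mp hx
  · rw [← hyv]
    have h1 : y = S ((S ^ 29) y) := by
      rw [← Module.End.mul_apply, ← pow_succ', S30]; rfl
    rw [h1, dv_S, T_sV]
    refine dI_mono (FractionalIdeal.spanSingleton_ne_zero_iff.mpr (Units.ne_zero _)) ?_ _
    rw [FractionalIdeal.spanSingleton_le_iff_mem, h, ← S_toMul, ← h1]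
    exact hy

/-- Inclusion after inverting `31`. -/
theorem dI_away {I J : FI} (hI : I ≠ 0) (h : ∀ x : K, x ∈ I → ∃ n : ℕ, (31 : K) ^ n * x ∈ J) {v : V}
    (hv : v ≠ P0) : dI J v ≤ dI I v := by
  obtain ⟨x, hx, hxv⟩ := exists_min hI v
  obtain ⟨n, hn⟩ := h _ hx
  obtain ⟨z, hz⟩ := exists_toMul (31 : K) (by norm_num)
  have h1 : dv z v = 0 := by
    have h2 : 0 ≤ dv z v := dv_nonneg (y := (31 : 𝓞 K)) (by rw [hz]; rfl) v
    by_contra h3
    have h4 : 0 < dv z v := lt_of_le_of_ne h2 (Ne.symm h3)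
    have h5 := (dv_pos_iff (y := (31 : 𝓞 K)) (by rw [hz]; rfl) v).mp h4
    obtain ⟨q, hq, hq31, hqv⟩ := exists_prime_mem v hv
    have hc : IsCoprime ((q : ℕ) : ℤ) ((31 : ℕ) : ℤ) :=
      Nat.isCoprime_iff_coprime.mpr ((Nat.coprime_primes hq fact31.out).mpr hq31)
    obtain ⟨c, d, hcd⟩ := hc
    apply v.isPrime.ne_top
    rw [Ideal.eq_top_iff_one]
    have h6 : (c : 𝓞 K) * ((q : ℕ) : 𝓞 K) + (d : 𝓞 K) * 31 = 1 := by
      have := congrArg (fun n : ℤ => (n : 𝓞 K)) hcd
      push_cast at this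
      exact this
    rw [← h6]
    exact Ideal.add_mem _ (Ideal.mul_mem_left _ _ hqv) (Ideal.mul_mem_left _ _ h5)
  have h2 : dv (n • z + x) v = dI I v := by
    rw [map_add, Finsupp.add_apply, map_nsmul, Finsupp.smul_apply, h1, smul_zero, zero_add, hxv]
  rw [← h2]
  refine dI_mono (FractionalIdeal.spanSingleton_ne_zero_iff.mpr (Units.ne_zero _)) ?_ _
  rw [FractionalIdeal.spanSingleton_le_iff_mem, toMul_add, toMul_nsmul', hz]
  exact hn

theorem aeval_neg1 (p : ℤ[X]) (h : p.eval 1 = 1) : aeval S p neg1 = neg1 := by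
  have h1 : ∀ n : ℕ, (S ^ n) neg1 = neg1 := by
    intro n
    apply toMul_inj
    rw [S_pow_toMul]
    change (σ ^ n) (-1) = -1
    rw [map_neg, map_one]
  have h2 : ∀ p : ℤ[X], aeval S p neg1 = (p.eval 1) • neg1 := by
    intro p
    induction p using Polynomial.induction_on' with
    | add p q hp hq => rw [map_add, LinearMap.add_apply, hp, hq, eval_add, add_zsmul]
    | monomial n c =>
      rw [aeval_monomial, eval_monomial, one_pow, mul_one, Module.End.mul_apply, h1, Module.algebraMap_end_apply]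
  rw [h2, h, one_zsmul]

/-- Theorem A, the sign is absorbed. -/
theorem thmA' (a : D) (u : Additive Kˣ) (h : ∀ v : V, v ≠ P0 → (aeval T Φ a) v = dv u v)
    (hp : Tp ((aeval S A u).toMul : K)) :
    ∃ x : Additive Kˣ, (∀ v : V, v ≠ P0 → a v = dv x v) ∧ u = aeval S Φ x := by
  classical
  obtain ⟨x, j, hx, hu⟩ := thmA a u ((aeval T Φ a) P0 - dv u P0) (by
    ext v
    by_cases hv : v = P0
    · subst hv
      simp
    · rw [h v hv]
      simp [Ne.symm hv]) hp
  have hneg : dv neg1 = 0 := by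
    refine dv_of_unit (-1) ?_
    simp [neg1]
  rcases hu with hu | hu
  · refine ⟨x, fun v hv => ?_, hu⟩
    rw [hx]
    simp [Ne.symm hv]
  · refine ⟨x + neg1, fun v hv => ?_, ?_⟩
    · rw [hx]
      simp [Ne.symm hv, hneg]
    · rw [map_add, aeval_neg1 Φ Φ_eval, hu]

end Pool.Agent.Helper2.E8A
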