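import Pool.Agent.Helper2.E8A.Dvs

/-!
# Block E8A-GA: the primes of degree at least two are rare

Let `v` be a prime of `𝓞 K` over the rational prime `p` with `absNorm v = p ^ f`, `f ≥ 2`. Then `p ≠ 31` (the only prime over `31`
has norm `31`), `f` is the order of `p` modulo `31` (`IsCyclotomicExtension.Rat.inertiaDeg_eq_of_not_dvd`), and there are `30 / f` primes
over `p` (`Ideal.ncard_primesOver_mul_ramificationIdxIn_mul_inertiaDegIn`, or only `≤ 30 / f` by
`Ideal.sum_ramification_inertia`). So the sum over the primes over `p` is at most `g p = (30 / f) / p ^ f`: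
`g 2 = 6 / 32`, `g 3 = 3 ^ (-30)`, `g 5 = 10 / 125`, `g p ≤ 10 / p ^ 3` for `7 ≤ p < 61` (`f ≥ 3` because `p ≢ 30` modulo `31`) and
`g p ≤ 15 / p ^ 2` for `p ≥ 61`. The sum over all `p` is at most
`0.1875 + 0.001 + 0.08 + 10 ∑_{n ≥ 7} 1 / n ^ 3 + 15 ∑_{n ≥ 61} 1 / n ^ 2 ≤ 0.27 + 0.14 + 0.25 < 0.9` (telescoping:
`1 / n ^ 3 ≤ (1 / ((n - 1) n) - 1 / (n (n + 1))) / 2`, `1 / n ^ 2 ≤ 1 / (n - 1) - 1 / n`).
-/

set_option autoImplicit false

namespace Pool.Agent.Helper2.E8A

open NumberField Polynomial IsDedekindDomain nonZeroDivisors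

/-- The rational prime below `v`. -/
private noncomputable def pr93 (v : V) : ℕ := Ideal.absNorm (Ideal.under ℤ v.asIdeal)

private theorem pr_prime93 (v : V) : (pr93 v).Prime := by
  haveI : NeZero v.asIdeal := ⟨v.ne_bot⟩
  haveI : v.asIdeal.IsPrime := v.isPrime
  exact Nat.absNorm_under_prime v.asIdeal

private theorem lies93 (v : V) : v.asIdeal.LiesOver (Ideal.span {((pr93 v : ℕ) : ℤ)}) :=
  Int.liesOver_span_absNorm v.asIdeal

private theorem norm93 (v : V) :
    Ideal.absNorm v.asIdeal = pr93 v ^ Ideal.inertiaDeg v.asIdeal ℤ := by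
  haveI := lies93 v
  haveI : v.asIdeal.IsPrime := v.isPrime
  exact (Ideal.pow_inertiaDeg (pr93 v) v.asIdeal).symm

private theorem ne31_93 (v : V) (h : ¬ (Ideal.absNorm v.asIdeal).Prime) : pr93 v ≠ 31 := by
  intro h31
  apply h
  haveI hl := lies93 v
  haveI : v.asIdeal.IsPrime := v.isPrime
  rw [norm93 v]
  rw [h31] at hl ⊢
  have h1 := IsCyclotomicExtension.Rat.inertiaDeg_eq_of_prime 31 K v.asIdeal
  rw [h1, pow_one]
  norm_num

private theorem deg93 (v : V) (h31 : pr93 v ≠ 31) :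
    Ideal.inertiaDeg v.asIdeal ℤ = orderOf ((pr93 v : ℕ) : ZMod 31) := by
  haveI := lies93 v
  haveI : v.asIdeal.IsPrime := v.isPrime
  haveI : Fact (pr93 v).Prime := ⟨pr_prime93 v⟩
  apply IsCyclotomicExtension.Rat.inertiaDeg_eq_of_not_dvd (pr93 v) K v.asIdeal (m := 31)
  intro h
  exact h31 ((Nat.prime_dvd_prime_iff_eq (pr_prime93 v) (by norm_num)).mp h)

private theorem ncard93 {p : ℕ} (hp : p.Prime) (h31 : p ≠ 31) :
    (Ideal.primesOver (Ideal.span {(p : ℤ)}) (𝓞 K)).ncard * orderOf (p : ZMod 31) = 30 := by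
  haveI : Fact p.Prime := ⟨hp⟩
  haveI : IsGalois ℚ K := IsCyclotomicExtension.isGalois {31} ℚ K
  have hd : ¬ p ∣ 31 := fun h => h31 ((Nat.prime_dvd_prime_iff_eq hp (by norm_num)).mp h)
  have hpr : (Ideal.span {(p : ℤ)}).IsPrime := by
    rw [Ideal.span_singleton_prime (by exact_mod_cast hp.ne_zero)]
    exact Nat.prime_iff_prime_int.mp hp
  have h1 := Ideal.ncard_primesOver_mul_ramificationIdxIn_mul_inertiaDegIn
    (Ideal.span {(p : ℤ)}) (𝓞 K) Gal(K/ℚ)
  rw [IsCyclotomicExtension.Rat.ramificationIdxIn_eq_of_not_dvd p K (m := 31) hd,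
    IsCyclotomicExtension.Rat.inertiaDegIn_eq_of_not_dvd p K (m := 31) hd, one_mul,
    IsGaloisGroup.card_eq_finrank Gal(K/ℚ) ℚ K,
    IsCyclotomicExtension.finrank K (cyclotomic.irreducible_rat (n := 31) (by norm_num))] at h1
  rw [h1]
  rfl

private theorem card93 {p : ℕ} (hp : p.Prime) (s : Finset V) (hs : ∀ v ∈ s, pr93 v = p) :
    s.card ≤ (Ideal.primesOver (Ideal.span {(p : ℤ)}) (𝓞 K)).ncard := by
  classical
  haveI : Fact p.Prime := ⟨hp⟩
  have hpr : (Ideal.span {(p : ℤ)}).IsPrime := by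
    rw [Ideal.span_singleton_prime (by exact_mod_cast hp.ne_zero)]
    exact Nat.prime_iff_prime_int.mp hp
  have hfin : (Ideal.primesOver (Ideal.span {(p : ℤ)}) (𝓞 K)).Finite :=
    Algebra.QuasiFinite.finite_primesOver _
  have h1 : ((s.image fun v : V => v.asIdeal) : Set (Ideal (𝓞 K))) ⊆
      Ideal.primesOver (Ideal.span {(p : ℤ)}) (𝓞 K) := by
    intro I hI
    rw [Finset.mem_coe, Finset.mem_image] at hI
    obtain ⟨v, hv, rfl⟩ := hI
    refine ⟨v.isPrime, ?_⟩
    have := lies93 v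
    rwa [hs v hv] at this
  have h2 := Set.ncard_le_ncard h1 hfin
  rw [Set.ncard_coe_finset, Finset.card_image_of_injective s
    (fun v w h => HeightOneSpectrum.ext h)] at h2
  exact h2

/-- The bound for the primes over `p`. -/
private noncomputable def G93 (p : ℕ) : ℝ :=
  if p = 2 then 6 / 32 else if p = 3 then 1 / 100 else if p = 5 then 10 / 125 else
    if p < 61 then 10 / (p : ℝ) ^ 3 else 15 / (p : ℝ) ^ 2

private theorem frac93 {n p f F : ℕ} (hp : 1 ≤ p) (hn : n * f = 30) (hF : 0 < F) (hf : F ≤ f) :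
    (n : ℝ) * (1 / (p : ℝ) ^ f) ≤ (30 / F) * (1 / (p : ℝ) ^ F) := by
  have hp' : (1 : ℝ) ≤ p := by exact_mod_cast hp
  have hF' : (0 : ℝ) < F := by exact_mod_cast hF
  have h1 : (n : ℝ) ≤ 30 / F := by
    rw [le_div_iff₀ hF']
    have : n * F ≤ n * f := Nat.mul_le_mul_left n hf
    rw [hn] at this
    exact_mod_cast this
  have h2 : 1 / (p : ℝ) ^ f ≤ 1 / (p : ℝ) ^ F :=
    one_div_le_one_div_of_le (by positivity) (pow_le_pow_right₀ hp' hf)
  exact mul_le_mul h1 h2 (by positivity) (by positivity)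

private theorem ord_ge93 {x : ZMod 31} {F : ℕ} (hx : ∀ k, 0 < k → k < F → x ^ k ≠ 1)
    (h0 : orderOf x ≠ 0) : F ≤ orderOf x := by
  by_contra h
  push Not at h
  exact hx (orderOf x) (Nat.pos_of_ne_zero h0) h (pow_orderOf_eq_one x)

private theorem G_bd93 {p n : ℕ} (hp : p.Prime) (h31 : p ≠ 31)
    (hn : n * orderOf (p : ZMod 31) = 30) (h2 : 2 ≤ orderOf (p : ZMod 31)) :
    (n : ℝ) * (1 / (p : ℝ) ^ orderOf (p : ZMod 31)) ≤ G93 p := by
  have h0 : orderOf (p : ZMod 31) ≠ 0 := by omega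
  have hp1 : 1 ≤ p := hp.one_lt.le
  unfold G93
  split_ifs with h h h h
  · subst h
    refine (frac93 hp1 hn (F := 5) (by norm_num) (ord_ge93 ?_ h0)).trans (by norm_num)
    intro k hk0 hk
    interval_cases k <;> decide
  · subst h
    refine (frac93 hp1 hn (F := 6) (by norm_num) (ord_ge93 ?_ h0)).trans (by norm_num)
    intro k hk0 hk
    interval_cases k <;> decide
  · subst h
    refine (frac93 hp1 hn (F := 3) (by norm_num) (ord_ge93 ?_ h0)).trans (by norm_num)
    intro k hk0 hk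
    interval_cases k <;> decide
  · refine (frac93 hp1 hn (F := 3) (by norm_num) (ord_ge93 ?_ h0)).trans (le_of_eq ?_)
    · intro k hk0 hk hk1
      have hk2 : k = 1 ∨ k = 2 := by omega
      rcases hk2 with rfl | rfl
      · rw [pow_one] at hk1
        rw [hk1, orderOf_one] at h2
        omega
      · have h3 : ((p : ZMod 31) - 1) * ((p : ZMod 31) + 1) = 0 := by linear_combination hk1
        rcases mul_eq_zero.mp h3 with h4 | h4
        · rw [sub_eq_zero] at h4
          rw [h4, orderOf_one] at h2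
          omega
        · have h5 : ((p + 1 : ℕ) : ZMod 31) = 0 := by
            push_cast
            exact h4
          rw [ZMod.natCast_eq_zero_iff] at h5
          obtain ⟨c, hc⟩ := h5
          have hc1 : c = 1 := by omega
          rw [hc1] at hc
          have hp30 : p = 30 := by omega
          rw [hp30] at hp
          norm_num at hp
    · push_cast
      ring
  · refine (frac93 hp1 hn (F := 2) (by norm_num) h2).trans (le_of_eq ?_)
    push_cast
    ring

private theorem G_nonneg93 (p : ℕ) : 0 ≤ G93 p := by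
  unfold G93
  split_ifs <;> positivity

private theorem tail3_93 (N : ℕ) (hN : 7 ≤ N) :
    ∑ n ∈ Finset.Ico 7 N, 10 / (n : ℝ) ^ 3 ≤ 5 / 42 - 5 / (((N : ℝ) - 1) * N) := by
  induction N, hN using Nat.le_induction with
  | base => norm_num
  | succ N hN ih =>
    rw [Finset.sum_Ico_succ_top hN]
    have hN' : (7 : ℝ) ≤ N := by exact_mod_cast hN
    have h1 : 10 / (N : ℝ) ^ 3 ≤ 5 / (((N : ℝ) - 1) * N) - 5 / (N * (N + 1)) := by
      have e : 5 / (((N : ℝ) - 1) * N) - 5 / (N * (N + 1)) = 10 / (N * ((N : ℝ) ^ 2 - 1)) := by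
        have a1 : (N : ℝ) - 1 ≠ 0 := by linarith
        have a2 : (N : ℝ) ≠ 0 := by linarith
        have a3 : (N : ℝ) + 1 ≠ 0 := by linarith
        have a4 : (N : ℝ) ^ 2 - 1 ≠ 0 := by
          have : (N : ℝ) ^ 2 - 1 = ((N : ℝ) - 1) * (N + 1) := by ring
          rw [this]
          exact mul_ne_zero a1 a3
        field_simp
        ring
      rw [e]
      refine div_le_div_of_nonneg_left (by norm_num) ?_ ?_
      · nlinarith
      · nlinarith
    push_cast
    have e2 : ((N : ℝ) + 1 - 1) * (N + 1) = N * (N + 1) := by ring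
    rw [e2]
    linarith

private theorem tail2_93 (N : ℕ) (hN : 61 ≤ N) :
    ∑ n ∈ Finset.Ico 61 N, 15 / (n : ℝ) ^ 2 ≤ 15 / 60 - 15 / ((N : ℝ) - 1) := by
  induction N, hN using Nat.le_induction with
  | base => norm_num
  | succ N hN ih =>
    rw [Finset.sum_Ico_succ_top hN]
    have hN' : (61 : ℝ) ≤ N := by exact_mod_cast hN
    have h1 : 15 / (N : ℝ) ^ 2 ≤ 15 / ((N : ℝ) - 1) - 15 / N := by
      have e : 15 / ((N : ℝ) - 1) - 15 / N = 15 / (N * ((N : ℝ) - 1)) := by
        have a1 : (N : ℝ) - 1 ≠ 0 := by linarith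
        have a2 : (N : ℝ) ≠ 0 := by linarith
        field_simp
        ring
      rw [e]
      refine div_le_div_of_nonneg_left (by norm_num) ?_ ?_
      · nlinarith
      · nlinarith
    push_cast
    have e2 : ((N : ℝ) + 1 - 1) = N := by ring
    rw [e2]
    linarith

private theorem sumG93 (P : Finset ℕ) (hP : ∀ p ∈ P, p.Prime) : ∑ p ∈ P, G93 p ≤ 9 / 10 := by
  classical
  obtain ⟨N, hN61, hN⟩ : ∃ N, 61 ≤ N ∧ ∀ p ∈ P, p < N := by
    refine ⟨max 61 (P.sup id + 1), le_max_left _ _, fun p hp => ?_⟩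
    have : p ≤ P.sup id := Finset.le_sup (f := id) hp
    exact lt_of_lt_of_le (Nat.lt_succ_of_le this) (le_max_right _ _)
  have hsub : P ⊆ ({2, 3, 5} : Finset ℕ) ∪ (Finset.Ico 7 61 ∪ Finset.Ico 61 N) := by
    intro p hp
    have h1 := hP p hp
    have h2 := hN p hp
    have h3 := h1.two_le
    rw [Finset.mem_union, Finset.mem_union, Finset.mem_Ico, Finset.mem_Ico]
    by_cases h4 : 7 ≤ p
    · right
      omega
    · left
      push Not at h4
      interval_cases p
      · simp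
      · simp
      · norm_num at h1
      · simp
      · norm_num at h1
  have h1 : ∑ p ∈ P, G93 p ≤ ∑ p ∈ ({2, 3, 5} : Finset ℕ) ∪ (Finset.Ico 7 61 ∪ Finset.Ico 61 N),
      G93 p := Finset.sum_le_sum_of_subset_of_nonneg hsub fun p _ _ => G_nonneg93 p
  have h2 : ∑ p ∈ ({2, 3, 5} : Finset ℕ) ∪ (Finset.Ico 7 61 ∪ Finset.Ico 61 N), G93 p ≤
      ∑ p ∈ ({2, 3, 5} : Finset ℕ), G93 p + (∑ p ∈ Finset.Ico 7 61, G93 p +
        ∑ p ∈ Finset.Ico 61 N, G93 p) := by
    have hun : ∀ A B : Finset ℕ, ∑ p ∈ A ∪ B, G93 p ≤ ∑ p ∈ A, G93 p + ∑ p ∈ B, G93 p := by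
      intro A B
      have h3 := Finset.sum_union_inter (s₁ := A) (s₂ := B) (f := G93)
      have h4 : 0 ≤ ∑ p ∈ A ∩ B, G93 p := Finset.sum_nonneg fun p _ => G_nonneg93 p
      linarith
    refine (hun _ _).trans ?_
    have := hun (Finset.Ico 7 61) (Finset.Ico 61 N)
    linarith
  have h3 : ∑ p ∈ Finset.Ico 7 61, G93 p ≤ 5 / 42 := by
    have h4 : ∑ p ∈ Finset.Ico 7 61, G93 p = ∑ n ∈ Finset.Ico (7 : ℕ) 61, 10 / (n : ℝ) ^ 3 := by
      refine Finset.sum_congr rfl fun p hp => ?_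
      rw [Finset.mem_Ico] at hp
      unfold G93
      rw [if_neg (by omega), if_neg (by omega), if_neg (by omega), if_pos hp.2]
    rw [h4]
    refine (tail3_93 61 (by norm_num)).trans ?_
    norm_num
  have h5 : ∑ p ∈ Finset.Ico 61 N, G93 p ≤ 15 / 60 := by
    have h4 : ∑ p ∈ Finset.Ico 61 N, G93 p = ∑ n ∈ Finset.Ico 61 N, 15 / (n : ℝ) ^ 2 := by
      refine Finset.sum_congr rfl fun p hp => ?_
      rw [Finset.mem_Ico] at hp
      unfold G93
      rw [if_neg (by omega), if_neg (by omega), if_neg (by omega), if_neg (by omega)]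
    rw [h4]
    refine (tail2_93 N hN61).trans ?_
    have : (61 : ℝ) ≤ N := by exact_mod_cast hN61
    have h6 : 0 ≤ 15 / ((N : ℝ) - 1) := by
      apply div_nonneg (by norm_num)
      linarith
    linarith
  have h6 : ∑ p ∈ ({2, 3, 5} : Finset ℕ), G93 p = 6 / 32 + (1 / 100 + 10 / 125) := by
    rw [Finset.sum_insert (by decide), Finset.sum_insert (by decide), Finset.sum_singleton]
    unfold G93
    norm_num
  rw [h6] at h2
  have h7 : (6 : ℝ) / 32 + (1 / 100 + 10 / 125) + (5 / 42 + 15 / 60) ≤ 9 / 10 := by norm_num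
  linarith

theorem sum_f2 (s : Finset V) (hs : ∀ v ∈ s, ¬ (Ideal.absNorm v.asIdeal).Prime) :
    ∑ v ∈ s, (1 : ℝ) / (Ideal.absNorm v.asIdeal : ℝ) ≤ 9 / 10 := by
  classical
  rw [← Finset.sum_fiberwise_of_maps_to (s := s) (t := s.image pr93) (g := pr93)
    (fun v hv => Finset.mem_image_of_mem _ hv)]
  refine (Finset.sum_le_sum (g := G93) fun p hp => ?_).trans (sumG93 (s.image pr93) ?_)
  · rw [Finset.mem_image] at hp
    obtain ⟨v0, hv0, hv0p⟩ := hp
    have hpp : p.Prime := hv0p ▸ pr_prime93 v0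
    have h31 : p ≠ 31 := hv0p ▸ ne31_93 v0 (hs v0 hv0)
    have hn := ncard93 hpp h31
    have hterm : ∀ v ∈ s.filter (fun v => pr93 v = p),
        (1 : ℝ) / (Ideal.absNorm v.asIdeal : ℝ) = 1 / (p : ℝ) ^ orderOf (p : ZMod 31) := by
      intro v hv
      rw [Finset.mem_filter] at hv
      rw [norm93 v, deg93 v (hv.2 ▸ h31), hv.2]
      push_cast
      rfl
    rw [Finset.sum_congr rfl hterm, Finset.sum_const, nsmul_eq_mul]
    have hc := card93 hpp (s.filter (fun v => pr93 v = p)) (fun v hv => (Finset.mem_filter.mp hv).2)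
    have h2 : 2 ≤ orderOf (p : ZMod 31) := by
      have h3 := hs v0 hv0
      rw [norm93 v0, deg93 v0 (hv0p ▸ h31), hv0p] at h3
      by_contra h4
      have h5 : orderOf (p : ZMod 31) = 0 ∨ orderOf (p : ZMod 31) = 1 := by omega
      rcases h5 with h5 | h5
      · rw [h5, mul_zero] at hn
        omega
      · rw [h5, pow_one] at h3
        exact h3 hpp
    refine le_trans ?_ (G_bd93 hpp h31 hn h2)
    have hc' : ((s.filter (fun v => pr93 v = p)).card : ℝ) ≤
        ((Ideal.primesOver (Ideal.span {(p : ℤ)}) (𝓞 K)).ncard : ℝ) := by exact_mod_cast hc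
    exact mul_le_mul_of_nonneg_right hc' (by positivity)
  · intro p hp
    rw [Finset.mem_image] at hp
    obtain ⟨v, _, rfl⟩ := hp
    exact pr_prime93 v

end Pool.Agent.Helper2.E8A
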