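import Pool.Agent.Helper2.E8A.Ga

/-!
# Block E8A-GB: every ideal class contains an ideal all of whose prime factors have degree one

`cls`: let `N (C, s)` be the number of nonzero ideals of norm `≤ s` in the class `C`. By
`NumberField.Ideal.tendsto_norm_le_and_mk_eq_div_atTop` (Mathlib) `N (C, s) / s → κ > 0` with the same `κ` for all classes; so there is `B`
with `N (C, s) ≤ B s` for all `C` and all `s > 0` (for small `s < 1` it is `0`; finitely many classes). If every ideal in the class `C` has a prime factor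
`v` of degree `≥ 2` (`absNorm` not a prime), then `N (C, s) ≤ ∑_v N (C [v]⁻¹, s / N v)` (`I = v J`), the sum over the primes `v` of degree `≥ 2` with
`N v ≤ s`. Divide by `s` and let `s → ∞`: the terms are `≤ B / N v`, which is summable with sum `≤ 9 / 10 B` (`sum_f2`), and the `v`-th term
tends to `κ / N v`; by dominated convergence (`tendsto_tsum_of_dominated_convergence`, or split off a finite set `F` with
`∑_{v ∉ F} B / N v ≤ κ / 100`) one gets `κ ≤ (9 / 10) κ + κ / 100`, a contradiction.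
-/

set_option autoImplicit false

namespace Pool.Agent.Helper2.E8A

open NumberField Polynomial IsDedekindDomain nonZeroDivisors

open Filter Topology

/-- The prime `v` as a nonzero ideal. -/
private noncomputable def vI93 (v : V) : (Ideal (𝓞 K))⁰ :=
  ⟨v.asIdeal, mem_nonZeroDivisors_of_ne_zero v.ne_bot⟩

/-- The nonzero ideals of norm at most `s` in the class `C`. -/
private def SS93 (C : ClassGroup (𝓞 K)) (s : ℝ) : Set (Ideal (𝓞 K))⁰ :=
  {I | (Ideal.absNorm (I : Ideal (𝓞 K)) : ℝ) ≤ s ∧ ClassGroup.mk0 I = C}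

private theorem SS_fin93 (C : ClassGroup (𝓞 K)) (s : ℝ) : (SS93 C s).Finite := by
  refine (Ideal.finite_setOfPred_absNorm_le₀ (S := 𝓞 K) ⌈s⌉₊).subset ?_
  intro I hI
  exact Nat.cast_le.mp (hI.1.trans (Nat.le_ceil s))

private noncomputable def TT93 (C : ClassGroup (𝓞 K)) (s : ℝ) : Finset (Ideal (𝓞 K))⁰ :=
  (SS_fin93 C s).toFinset

private theorem mem_TT93 {C : ClassGroup (𝓞 K)} {s : ℝ} {I : (Ideal (𝓞 K))⁰} :
    I ∈ TT93 C s ↔ (Ideal.absNorm (I : Ideal (𝓞 K)) : ℝ) ≤ s ∧ ClassGroup.mk0 I = C := by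
  unfold TT93
  rw [Set.Finite.mem_toFinset]
  exact Iff.rfl

private theorem tend93 : ∃ κ : ℝ, 0 < κ ∧ ∀ C : ClassGroup (𝓞 K),
    Tendsto (fun s : ℝ => ((TT93 C s).card : ℝ) / s) atTop (𝓝 κ) := by
  refine ⟨(2 ^ InfinitePlace.nrRealPlaces K * (2 * Real.pi) ^ InfinitePlace.nrComplexPlaces K *
    Units.regulator K) / (Units.torsionOrder K * Real.sqrt |discr K|), ?_, fun C => ?_⟩
  · refine div_pos ?_ ?_
    · have := NumberField.Units.regulator_pos K
      positivity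
    · refine mul_pos (Nat.cast_pos.mpr (NumberField.Units.torsionOrder_pos K)) ?_
      exact Real.sqrt_pos_of_pos (abs_pos.mpr (Int.cast_ne_zero.mpr (discr_ne_zero K)))
  · have h := NumberField.Ideal.tendsto_norm_le_and_mk_eq_div_atTop K C
    refine h.congr fun s => ?_
    congr 2
    exact Nat.card_eq_card_finite_toFinset (SS_fin93 C s)

private theorem card_le93 {C : ClassGroup (𝓞 K)} {s t : ℝ} (h : s ≤ t) :
    (TT93 C s).card ≤ (TT93 C t).card := by
  apply Finset.card_le_card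
  intro I hI
  rw [mem_TT93] at hI ⊢
  exact ⟨hI.1.trans h, hI.2⟩

private theorem one_le_norm93 (I : (Ideal (𝓞 K))⁰) :
    (1 : ℝ) ≤ (Ideal.absNorm (I : Ideal (𝓞 K)) : ℝ) := by
  have : 0 < Ideal.absNorm (I : Ideal (𝓞 K)) := Ideal.absNorm_pos_of_nonZeroDivisors I
  exact_mod_cast this

private theorem exists_B93 : ∃ B : ℝ, 0 < B ∧ ∀ (C : ClassGroup (𝓞 K)) (s : ℝ), 0 < s →
    ((TT93 C s).card : ℝ) ≤ B * s := by
  obtain ⟨κ, hκ, ht⟩ := tend93
  have h1 : ∀ C : ClassGroup (𝓞 K), ∃ B : ℝ, 0 ≤ B ∧ ∀ s : ℝ, 0 < s →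
      ((TT93 C s).card : ℝ) ≤ B * s := by
    intro C
    have h2 := (ht C).eventually_le_const (lt_add_one κ)
    obtain ⟨s0, hs0⟩ := eventually_atTop.mp h2
    refine ⟨max (κ + 1) (TT93 C s0).card, le_max_of_le_left (by linarith), fun s hs => ?_⟩
    by_cases hs1 : s < 1
    · have : TT93 C s = ∅ := by
        rw [Finset.eq_empty_iff_forall_notMem]
        intro I hI
        rw [mem_TT93] at hI
        have := one_le_norm93 I
        linarith [hI.1]
      rw [this, Finset.card_empty, Nat.cast_zero]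
      have : 0 ≤ max (κ + 1) ((TT93 C s0).card : ℝ) := le_max_of_le_left (by linarith)
      positivity
    · push Not at hs1
      by_cases hs2 : s0 ≤ s
      · have h3 := hs0 s hs2
        rw [div_le_iff₀ hs] at h3
        refine h3.trans ?_
        exact mul_le_mul_of_nonneg_right (le_max_left _ _) hs.le
      · push Not at hs2
        have h3 : ((TT93 C s).card : ℝ) ≤ (TT93 C s0).card := by
          exact_mod_cast card_le93 hs2.le
        have h4 : ((TT93 C s0).card : ℝ) ≤ max (κ + 1) ((TT93 C s0).card : ℝ) := le_max_right _ _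
        have h5 : 0 ≤ max (κ + 1) ((TT93 C s0).card : ℝ) := le_max_of_le_left (by linarith)
        nlinarith
  choose B hB0 hB using h1
  refine ⟨∑ C, B C + 1, ?_, fun C s hs => (hB C s hs).trans ?_⟩
  · have : 0 ≤ ∑ C, B C := Finset.sum_nonneg fun C _ => hB0 C
    linarith
  · have h3 : B C ≤ ∑ C, B C := Finset.single_le_sum (fun C _ => hB0 C) (Finset.mem_univ C)
    nlinarith

private theorem Vfin93 (s : ℝ) : {v : V | (Ideal.absNorm v.asIdeal : ℝ) ≤ s ∧
    ¬ (Ideal.absNorm v.asIdeal).Prime}.Finite := by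
  have h1 := Ideal.finite_setOfPred_absNorm_le₀ (S := 𝓞 K) ⌈s⌉₊
  refine Set.Finite.of_finite_image (f := vI93) (h1.subset ?_) ?_
  · rintro _ ⟨v, hv, rfl⟩
    exact Nat.cast_le.mp (hv.1.trans (Nat.le_ceil s))
  · intro v _ w _ h
    exact HeightOneSpectrum.ext (congrArg (fun I : (Ideal (𝓞 K))⁰ => (I : Ideal (𝓞 K))) h)

private theorem split93 {C : ClassGroup (𝓞 K)} (hC : ∀ I : (Ideal (𝓞 K))⁰, ClassGroup.mk0 I = C →
    ∃ v : V, v.asIdeal ∣ (I : Ideal (𝓞 K)) ∧ ¬ (Ideal.absNorm v.asIdeal).Prime) (s : ℝ) :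
    (TT93 C s).card ≤ ∑ v ∈ (Vfin93 s).toFinset,
      (TT93 (C * (ClassGroup.mk0 (vI93 v))⁻¹) (s / Ideal.absNorm v.asIdeal)).card := by
  classical
  have h1 : TT93 C s ⊆ (Vfin93 s).toFinset.biUnion fun v =>
      (TT93 (C * (ClassGroup.mk0 (vI93 v))⁻¹) (s / Ideal.absNorm v.asIdeal)).image
        fun J => vI93 v * J := by
    intro I hI
    rw [mem_TT93] at hI
    obtain ⟨v, ⟨J, hJ⟩, hvp⟩ := hC I hI.2
    have hI0 : (I : Ideal (𝓞 K)) ≠ 0 := nonZeroDivisors.ne_zero I.2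
    have hJ0 : J ≠ 0 := by
      rintro rfl
      rw [mul_zero] at hJ
      exact hI0 hJ
    have hIJ : I = vI93 v * ⟨J, mem_nonZeroDivisors_of_ne_zero hJ0⟩ := Subtype.ext hJ
    have hn : (Ideal.absNorm (I : Ideal (𝓞 K)) : ℝ) =
        (Ideal.absNorm v.asIdeal : ℝ) * (Ideal.absNorm J : ℝ) := by
      rw [hJ, map_mul]
      push_cast
      rfl
    have hv1 : (1 : ℝ) ≤ (Ideal.absNorm v.asIdeal : ℝ) := one_le_norm93 (vI93 v)
    have hJ1 : (1 : ℝ) ≤ (Ideal.absNorm J : ℝ) :=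
      one_le_norm93 ⟨J, mem_nonZeroDivisors_of_ne_zero hJ0⟩
    rw [Finset.mem_biUnion]
    refine ⟨v, ?_, ?_⟩
    · rw [Set.Finite.mem_toFinset]
      refine ⟨?_, hvp⟩
      have := hI.1
      rw [hn] at this
      nlinarith
    · rw [Finset.mem_image]
      refine ⟨⟨J, mem_nonZeroDivisors_of_ne_zero hJ0⟩, ?_, hIJ.symm⟩
      rw [mem_TT93]
      constructor
      · rw [le_div_iff₀ (by linarith)]
        have := hI.1
        rw [hn] at this
        show (Ideal.absNorm J : ℝ) * _ ≤ s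
        linarith
      · rw [← hI.2, hIJ, map_mul]
        rw [mul_comm (ClassGroup.mk0 (vI93 v)), mul_assoc, mul_inv_cancel, mul_one]
  refine (Finset.card_le_card h1).trans (Finset.card_biUnion_le.trans ?_)
  exact Finset.sum_le_sum fun v _ => Finset.card_image_le

private theorem exists_F93 {ε : ℝ} (hε : 0 < ε) : ∃ F : Finset V,
    (∀ v ∈ F, ¬ (Ideal.absNorm v.asIdeal).Prime) ∧ ∀ G : Finset V, Disjoint G F →
      (∀ v ∈ G, ¬ (Ideal.absNorm v.asIdeal).Prime) →
      ∑ v ∈ G, (1 : ℝ) / (Ideal.absNorm v.asIdeal : ℝ) ≤ ε := by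
  classical
  let A : Set ℝ := {x | ∃ G : Finset V, (∀ v ∈ G, ¬ (Ideal.absNorm v.asIdeal).Prime) ∧
    x = ∑ v ∈ G, (1 : ℝ) / (Ideal.absNorm v.asIdeal : ℝ)}
  have hne : A.Nonempty := ⟨0, ∅, by simp, by simp⟩
  have hbdd : BddAbove A := by
    refine ⟨9 / 10, ?_⟩
    rintro x ⟨G, hG, rfl⟩
    exact sum_f2 G hG
  obtain ⟨x, ⟨F, hF, rfl⟩, hx⟩ := exists_lt_of_lt_csSup hne (sub_lt_self (sSup A) hε)
  refine ⟨F, hF, fun G hd hG => ?_⟩
  have h1 : ∑ v ∈ G ∪ F, (1 : ℝ) / (Ideal.absNorm v.asIdeal : ℝ) ≤ sSup A := by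
    refine le_csSup hbdd ⟨G ∪ F, ?_, rfl⟩
    intro v hv
    rcases Finset.mem_union.mp hv with h | h
    · exact hG v h
    · exact hF v h
  rw [Finset.sum_union hd] at h1
  linarith

theorem cls (C : ClassGroup (𝓞 K)) : ∃ I : (Ideal (𝓞 K))⁰, ClassGroup.mk0 I = C ∧
    ∀ v : V, v.asIdeal ∣ (I : Ideal (𝓞 K)) → (Ideal.absNorm v.asIdeal).Prime := by
  classical
  by_contra hcon
  have hC : ∀ I : (Ideal (𝓞 K))⁰, ClassGroup.mk0 I = C →
      ∃ v : V, v.asIdeal ∣ (I : Ideal (𝓞 K)) ∧ ¬ (Ideal.absNorm v.asIdeal).Prime := by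
    intro I hI
    by_contra h
    push Not at h
    exact hcon ⟨I, hI, h⟩
  obtain ⟨κ, hκ, ht⟩ := tend93
  obtain ⟨B, hB, hBb⟩ := exists_B93
  have hε : 0 < κ / (20 * B) := by positivity
  obtain ⟨F, hF, hFG⟩ := exists_F93 hε
  have hv1 : ∀ v : V, (1 : ℝ) ≤ (Ideal.absNorm v.asIdeal : ℝ) := fun v => one_le_norm93 (vI93 v)
  -- the upper bound
  have hup : ∀ s : ℝ, 0 < s → ((TT93 C s).card : ℝ) / s ≤
      ∑ v ∈ F, (1 / (Ideal.absNorm v.asIdeal : ℝ)) *
        (((TT93 (C * (ClassGroup.mk0 (vI93 v))⁻¹) (s / Ideal.absNorm v.asIdeal)).card : ℝ) /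
          (s / Ideal.absNorm v.asIdeal)) + κ / 20 := by
    intro s hs
    have h1 : ((TT93 C s).card : ℝ) ≤ ∑ v ∈ (Vfin93 s).toFinset,
      ((TT93 (C * (ClassGroup.mk0 (vI93 v))⁻¹) (s / Ideal.absNorm v.asIdeal)).card : ℝ) := by
      exact_mod_cast split93 hC s
    have h2 : ∑ v ∈ (Vfin93 s).toFinset,
      ((TT93 (C * (ClassGroup.mk0 (vI93 v))⁻¹) (s / Ideal.absNorm v.asIdeal)).card : ℝ) ≤
        ∑ v ∈ F, ((TT93 (C * (ClassGroup.mk0 (vI93 v))⁻¹)
          (s / Ideal.absNorm v.asIdeal)).card : ℝ) +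
        ∑ v ∈ (Vfin93 s).toFinset \ F, ((TT93 (C * (ClassGroup.mk0 (vI93 v))⁻¹)
          (s / Ideal.absNorm v.asIdeal)).card : ℝ) := by
      rw [← Finset.sum_union Finset.disjoint_sdiff]
      refine Finset.sum_le_sum_of_subset_of_nonneg ?_ fun v _ _ => Nat.cast_nonneg _
      intro v hv
      by_cases hvF : v ∈ F
      · exact Finset.mem_union_left _ hvF
      · exact Finset.mem_union_right _ (Finset.mem_sdiff.mpr ⟨hv, hvF⟩)
    have h3 : ∑ v ∈ (Vfin93 s).toFinset \ F, ((TT93 (C * (ClassGroup.mk0 (vI93 v))⁻¹)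
          (s / Ideal.absNorm v.asIdeal)).card : ℝ) ≤ κ / 20 * s := by
      calc ∑ v ∈ (Vfin93 s).toFinset \ F, ((TT93 (C * (ClassGroup.mk0 (vI93 v))⁻¹)
          (s / Ideal.absNorm v.asIdeal)).card : ℝ)
          ≤ ∑ v ∈ (Vfin93 s).toFinset \ F, B * s * (1 / (Ideal.absNorm v.asIdeal : ℝ)) := by
            refine Finset.sum_le_sum fun v _ => ?_
            have h4 := hBb (C * (ClassGroup.mk0 (vI93 v))⁻¹) (s / Ideal.absNorm v.asIdeal)
              (div_pos hs (lt_of_lt_of_le one_pos (hv1 v)))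
            refine h4.trans (le_of_eq ?_)
            ring
        _ = B * s * ∑ v ∈ (Vfin93 s).toFinset \ F, (1 / (Ideal.absNorm v.asIdeal : ℝ)) := by
            rw [Finset.mul_sum]
        _ ≤ B * s * (κ / (20 * B)) := by
            refine mul_le_mul_of_nonneg_left ?_ (by positivity)
            refine hFG _ Finset.sdiff_disjoint fun v hv => ?_
            have := (Finset.mem_sdiff.mp hv).1
            rw [Set.Finite.mem_toFinset] at this
            exact this.2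
        _ = κ / 20 * s := by
            field_simp
    rw [div_le_iff₀ hs, add_mul, Finset.sum_mul]
    have h5 : ∀ v : V, (1 / (Ideal.absNorm v.asIdeal : ℝ)) *
        (((TT93 (C * (ClassGroup.mk0 (vI93 v))⁻¹) (s / Ideal.absNorm v.asIdeal)).card : ℝ) /
          (s / Ideal.absNorm v.asIdeal)) * s =
        ((TT93 (C * (ClassGroup.mk0 (vI93 v))⁻¹) (s / Ideal.absNorm v.asIdeal)).card : ℝ) := by
      intro v
      have h6 : (Ideal.absNorm v.asIdeal : ℝ) ≠ 0 := by
        have := hv1 v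
        linarith
      field_simp
    rw [Finset.sum_congr rfl fun v _ => h5 v]
    linarith
  -- the limit
  have hlim : Tendsto (fun s : ℝ => ∑ v ∈ F, (1 / (Ideal.absNorm v.asIdeal : ℝ)) *
        (((TT93 (C * (ClassGroup.mk0 (vI93 v))⁻¹) (s / Ideal.absNorm v.asIdeal)).card : ℝ) /
          (s / Ideal.absNorm v.asIdeal)) + κ / 20) atTop
        (𝓝 (∑ v ∈ F, (1 / (Ideal.absNorm v.asIdeal : ℝ)) * κ + κ / 20)) := by
    refine Tendsto.add_const _ (tendsto_finsetSum _ fun v _ => Tendsto.const_mul _ ?_)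
    exact (ht _).comp (tendsto_id.atTop_div_const (lt_of_lt_of_le one_pos (hv1 v)))
  have hle := le_of_tendsto_of_tendsto (ht C) hlim
    ((eventually_gt_atTop 0).mono fun s hs => hup s hs)
  rw [← Finset.sum_mul] at hle
  have h9 := sum_f2 F hF
  nlinarith

end Pool.Agent.Helper2.E8A
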