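import Pool.Agent.Helper2.E8A.Gb

/-!
# Block E8A-GC: divisors modulo principal divisors

`exists_eff`: let `I` be the fractional ideal `∏ v ^ a v` (`FractionalIdeal.count_finsuppProd`), `J` the integral ideal of `cls` in its
ideal class, so `I = y J` for some `y ∈ Kˣ` (`ClassGroup.mk_eq_mk` and its variants, `ClassGroup.mk_mk0`), and `a = (divisor of J) + dv y`. The divisor of `J`
is `n [P0] + b` with `b` supported on primes of degree one different from `P0` (`count_coe`, `Associates.count_ne_zero_iff_dvd`), and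
`[P0] = dv pi0` (`dv_pi0`).
-/

set_option autoImplicit false

namespace Pool.Agent.Helper2.E8A

open NumberField Polynomial IsDedekindDomain nonZeroDivisors

theorem exists_eff (a : D) : ∃ (b : D) (y : Additive Kˣ), a = b + dv y ∧
    ∀ v ∈ b.support, Dg1 v := by
  classical
  obtain ⟨I, hI⟩ : ∃ I : FractionalIdeal (𝓞 K)⁰ K,
      I = a.prod fun v n => (v.asIdeal : FractionalIdeal (𝓞 K)⁰ K) ^ n := ⟨_, rfl⟩
  have hc : ∀ v, FractionalIdeal.count K v I = a v := fun v => by
    rw [hI]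
    exact FractionalIdeal.count_finsuppProd K v a
  have hI0 : I ≠ 0 := by
    rw [hI, Finsupp.prod]
    exact Finset.prod_ne_zero_iff.mpr fun v _ =>
      zpow_ne_zero _ (FractionalIdeal.coeIdeal_ne_zero.mpr v.ne_bot)
  obtain ⟨J, hJ, hJ2⟩ := cls ((ClassGroup.equiv K).symm
    (QuotientGroup.mk' (toPrincipalIdeal (𝓞 K) K).range (Units.mk0 I hI0)))
  have h1 : ClassGroup.equiv K (ClassGroup.mk0 J) =
      QuotientGroup.mk' (toPrincipalIdeal (𝓞 K) K).range (Units.mk0 I hI0) := by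
    rw [hJ, MulEquiv.apply_symm_apply]
  rw [ClassGroup.equiv_mk0, QuotientGroup.mk'_eq_mk'] at h1
  obtain ⟨z, hz, hz2⟩ := h1
  obtain ⟨x, hx⟩ := MonoidHom.mem_range.mp hz
  have h2 : ((J : Ideal (𝓞 K)) : FractionalIdeal (𝓞 K)⁰ K) *
      FractionalIdeal.spanSingleton (𝓞 K)⁰ (x : K) = I := by
    have h3 := congrArg Units.val hz2
    rw [← hx, Units.val_mul, coe_toPrincipalIdeal, FractionalIdeal.coe_mk0, Units.val_mk0] at h3
    exact h3
  have hJ0 : (J : Ideal (𝓞 K)) ≠ 0 := mem_nonZeroDivisors_iff_ne_zero.mp J.2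
  have hJ1 : ((J : Ideal (𝓞 K)) : FractionalIdeal (𝓞 K)⁰ K) ≠ 0 :=
    FractionalIdeal.coeIdeal_ne_zero.mpr hJ0
  obtain ⟨b, hb⟩ : ∃ b : D, ∀ v, b v =
      FractionalIdeal.count K v ((J : Ideal (𝓞 K)) : FractionalIdeal (𝓞 K)⁰ K) :=
    ⟨Finsupp.ofSupportFinite _ (FractionalIdeal.finite_factors _), fun v => rfl⟩
  have hab : a = b + dv (Additive.ofMul x) := by
    ext v
    rw [Finsupp.add_apply, dv_apply, hb, ← hc v, ← h2, FractionalIdeal.count_mul K v hJ1]
    · rfl
    · exact FractionalIdeal.spanSingleton_ne_zero_iff.mpr (Units.ne_zero _)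
  refine ⟨b.erase P0, Additive.ofMul x + b P0 • pi0, ?_, ?_⟩
  · rw [map_add, map_zsmul, dv_pi0, Finsupp.smul_single, smul_eq_mul, mul_one, hab,
      add_comm (dv (Additive.ofMul x)), ← add_assoc, Finsupp.erase_add_single]
  · intro v hv
    rw [Finsupp.support_erase, Finset.mem_erase, Finsupp.mem_support_iff, hb,
      FractionalIdeal.count_coe K v hJ0] at hv
    refine ⟨hJ2 v ?_, hv.1⟩
    exact (Associates.count_ne_zero_iff_dvd hJ0 v.irreducible).mp
      (fun h => hv.2 (by rw [h]; rfl))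

end Pool.Agent.Helper2.E8A
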