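import Pool.Agent.Helper2.E8A.Sig

/-!
# Block E8A-HIL: Hilbert 90 for `K / K⁺` and the units of `K`

`hilbert`: if `c ≠ -1` take `h = 1 + c` (`(1 + c) / (1 + c⁻¹) = c`), if `c = -1` take `h = ζ - ζ⁻¹`.

`unit_dec`: `e / e-bar` has absolute value `1` at all places, so it is a root of unity (`unitsMulComplexConjInv` of
`NumberField.IsCMField`, or `NumberField.Embeddings.pow_eq_one_of_norm_eq_one`), i.e. `± ζ ^ k`
(`IsPrimitiveRoot.exists_neg_pow_of_isOfFinOrder` or the torsion order `62`). Modulo the prime ideal `(1 - ζ)` complex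
conjugation is trivial (`ζ = 1`, every element of `𝓞 K` is a polynomial in `ζ`), `e` is a unit and `2 ≠ 0`, so the sign is `+`. With
`2 i = k` modulo `31` the element `ε = ζ ^ (-i) e` is real.
-/

set_option autoImplicit false

namespace Pool.Agent.Helper2.E8A

open NumberField Polynomial IsDedekindDomain nonZeroDivisors

theorem hilbert {c : K} (hc : c * (σ ^ 15) c = 1) : ∃ h : K, h ≠ 0 ∧ c = h / (σ ^ 15) h := by
  have hc0 : c ≠ 0 := fun h => by
    rw [h, zero_mul] at hc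
    exact zero_ne_one hc
  by_cases h1 : c = -1
  · have hz0 : ζ ≠ 0 := hζ.ne_zero (by norm_num)
    have hz : ζ - ζ⁻¹ ≠ 0 := by
      intro h
      have h2 : ζ ^ 2 = 1 := by
        have h3 : ζ = ζ⁻¹ := sub_eq_zero.1 h
        calc ζ ^ 2 = ζ * ζ := sq ζ
          _ = ζ * ζ⁻¹ := by rw [← h3]
          _ = 1 := mul_inv_cancel₀ hz0
      have h4 := (hζ.pow_eq_one_iff_dvd 2).1 h2
      norm_num at h4
    refine ⟨ζ - ζ⁻¹, hz, ?_⟩
    have e : (σ ^ 15) (ζ - ζ⁻¹) = -(ζ - ζ⁻¹) := by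
      rw [map_sub, map_inv₀, σ15_ζ, inv_inv]
      ring
    rw [e, h1, div_neg, div_self hz]
  · have h2 : 1 + c ≠ 0 := by
      intro h
      apply h1
      linear_combination h
    refine ⟨1 + c, h2, ?_⟩
    have h3 : (σ ^ 15) c = c⁻¹ := eq_inv_of_mul_eq_one_right hc
    have h4 : (σ ^ 15) (1 + c) = (1 + c) / c := by
      rw [map_add, map_one, h3]
      field_simp
      ring
    rw [h4]
    field_simp

/-- Automorphisms of the ring of integers. -/
private noncomputable def t97 (τ : K ≃ₐ[ℚ] K) : 𝓞 K ≃+* 𝓞 K :=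
  RingOfIntegers.mapRingEquiv (τ : K ≃+* K)

private theorem t97_coe (τ : K ≃ₐ[ℚ] K) (x : 𝓞 K) : ((t97 τ x : 𝓞 K) : K) = τ (x : K) := rfl

/-- Complex conjugation on the ring of integers. -/
private noncomputable def s97 : 𝓞 K ≃+* 𝓞 K := t97 (σ ^ 15)

private theorem s97_coe (x : 𝓞 K) : ((s97 x : 𝓞 K) : K) = (σ ^ 15) (x : K) := by
  unfold s97
  rw [t97_coe]

private theorem vpow97 (x : 𝓞 K) (n : ℕ) : ((x ^ n : 𝓞 K) : K) = (x : K) ^ n :=
  map_pow (algebraMap (𝓞 K) K) x n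

private theorem vmul97 (x y : 𝓞 K) : ((x * y : 𝓞 K) : K) = (x : K) * (y : K) :=
  map_mul (algebraMap (𝓞 K) K) x y

private theorem vneg97 (x : 𝓞 K) : ((-x : 𝓞 K) : K) = -(x : K) :=
  map_neg (algebraMap (𝓞 K) K) x

private theorem toInt97 : ((hζ.toInteger : 𝓞 K) : K) = ζ := rfl

private theorem s97_zeta : s97 hζ.toInteger = hζ.toInteger ^ 30 := by
  apply RingOfIntegers.ext
  rw [s97_coe, toInt97, σ15_ζ]
  rw [vpow97, toInt97]
  apply inv_eq_of_mul_eq_one_right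
  rw [← pow_succ']
  exact hζ.pow_eq_one

private theorem dvd97 (x : 𝓞 K) : hζ.toInteger - 1 ∣ x - s97 x := by
  have hx : x ∈ Algebra.adjoin ℤ ({hζ.toInteger} : Set (𝓞 K)) := by
    have h := IsCyclotomicExtension.Rat.adjoin_singleton_eq_top (n := 31) (K := K) hζ
    rw [h]
    exact Algebra.mem_top
  induction hx using Algebra.adjoin_induction with
  | mem x hx =>
    rw [Set.mem_singleton_iff] at hx
    rw [hx, s97_zeta]
    have h1 := sub_dvd_pow_sub_pow hζ.toInteger 1 30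
    rw [one_pow] at h1
    have h2 : hζ.toInteger - hζ.toInteger ^ 30 =
        (hζ.toInteger - 1) - (hζ.toInteger ^ 30 - 1) := by ring
    rw [h2]
    exact dvd_sub dvd_rfl h1
  | algebraMap r =>
    have e : s97 (algebraMap ℤ (𝓞 K) r) = algebraMap ℤ (𝓞 K) r := by
      simp
    rw [e, sub_self]
    exact dvd_zero _
  | add x y _ _ hx hy =>
    have e : x + y - s97 (x + y) = (x - s97 x) + (y - s97 y) := by
      rw [map_add]
      ring
    rw [e]
    exact dvd_add hx hy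
  | mul x y _ _ hx hy =>
    have e : x * y - s97 (x * y) = (x - s97 x) * y + s97 x * (y - s97 y) := by
      rw [map_mul]
      ring
    rw [e]
    exact dvd_add (hx.mul_right _) (hy.mul_left _)

private theorem not_dvd97 : ¬ hζ.toInteger - 1 ∣ (2 : 𝓞 K) := by
  have h : IsCyclotomicExtension {31 ^ (0 + 1)} ℚ K := by simpa using cyc
  have hz : IsPrimitiveRoot ζ (31 ^ (0 + 1)) := by simpa using hζ
  exact hz.toInteger_sub_one_not_dvd_two (p := 31) (k := 0) (by norm_num)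

/-- Every unit is a root of unity times a real unit. -/
theorem unit_dec (e : (𝓞 K)ˣ) : ∃ (i : ℕ) (ε : (𝓞 K)ˣ), Rl ((ε : 𝓞 K) : K) ∧
    ((e : 𝓞 K) : K) = ζ ^ i * ((ε : 𝓞 K) : K) := by
  have hz0 : ζ ≠ 0 := hζ.ne_zero (by norm_num)
  -- the conjugate unit
  set e' : (𝓞 K)ˣ := Units.map (s97 : 𝓞 K →* 𝓞 K) e with he'
  have he'1 : ((e' : 𝓞 K) : K) = (σ ^ 15) ((e : 𝓞 K) : K) := s97_coe _
  have hne : ((e : 𝓞 K) : K) ≠ 0 := by
    intro h
    exact e.ne_zero (RingOfIntegers.ext h)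
  have hne' : ((e' : 𝓞 K) : K) ≠ 0 := by
    intro h
    exact e'.ne_zero (RingOfIntegers.ext h)
  set x : K := (((e * e'⁻¹ : (𝓞 K)ˣ) : 𝓞 K) : K) with hx
  have hx1 : x * ((e' : 𝓞 K) : K) = ((e : 𝓞 K) : K) := by
    have h1 : (e * e'⁻¹) * e' = e := by
      rw [mul_assoc, inv_mul_cancel, mul_one]
    have h2 := congrArg (fun u : (𝓞 K)ˣ => ((u : 𝓞 K) : K)) h1
    rw [hx, ← vmul97, ← Units.val_mul]
    exact h2
  have hfin : IsOfFinOrder x := by
    rw [isOfFinOrder_iff_pow_eq_one]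
    obtain ⟨n, hn, hn1⟩ := Embeddings.pow_eq_one_of_norm_eq_one K ℂ (x := x)
      (RingOfIntegers.isIntegral_coe _) (by
        intro φ
        have h1 : ‖φ ((e' : 𝓞 K) : K)‖ = ‖φ ((e : 𝓞 K) : K)‖ := by
          rw [he'1, ← conj_emb]
          exact RCLike.norm_conj _
        have h2 : ‖φ x‖ * ‖φ ((e' : 𝓞 K) : K)‖ = ‖φ ((e : 𝓞 K) : K)‖ := by
          rw [← norm_mul, ← map_mul, hx1]
        rw [h1] at h2
        have h3 : ‖φ ((e : 𝓞 K) : K)‖ ≠ 0 := by
          rw [norm_ne_zero_iff]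
          exact (map_ne_zero φ).2 hne
        exact mul_right_cancel₀ h3 (h2.trans (one_mul _).symm))
    exact ⟨n, hn, hn1⟩
  obtain ⟨r, _, hr⟩ := hζ.exists_pow_or_neg_mul_pow_of_isOfFinOrder (n := 31) (by decide) hfin
  -- the sign
  have hr2 : x = ζ ^ r := by
    rcases hr with hr | hr
    · exact hr
    · exfalso
      have h1 : (e : 𝓞 K) = -(hζ.toInteger ^ r * (e' : 𝓞 K)) := by
        apply RingOfIntegers.ext
        rw [vneg97, vmul97, vpow97, toInt97, ← hx1, hr]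
        ring
      have h2 : hζ.toInteger - 1 ∣ (e : 𝓞 K) - (e' : 𝓞 K) := dvd97 (e : 𝓞 K)
      have h3 : hζ.toInteger - 1 ∣ hζ.toInteger ^ r - 1 := by
        have h4 := sub_dvd_pow_sub_pow hζ.toInteger 1 r
        rwa [one_pow] at h4
      have h5 : hζ.toInteger - 1 ∣ 2 * (e' : 𝓞 K) := by
        have h6 : 2 * (e' : 𝓞 K) = -((hζ.toInteger ^ r - 1) * (e' : 𝓞 K)) -
            ((e : 𝓞 K) - (e' : 𝓞 K)) := by
          rw [h1]
          ring
        rw [h6]
        exact dvd_sub ((h3.mul_right _).neg_right) h2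
      have h7 : hζ.toInteger - 1 ∣ 2 := by
        have h8 := h5.mul_right ((e'⁻¹ : (𝓞 K)ˣ) : 𝓞 K)
        rwa [mul_assoc, Units.mul_inv, mul_one] at h8
      exact not_dvd97 h7
  -- the real unit
  have hz31 : hζ.toInteger ^ 31 = 1 := by
    apply RingOfIntegers.ext
    rw [vpow97, toInt97]
    exact hζ.pow_eq_one
  set z : (𝓞 K)ˣ := ⟨hζ.toInteger, hζ.toInteger ^ 30, by rw [← pow_succ', hz31],
    by rw [← pow_succ, hz31]⟩ with hz
  have hzc : ((z : 𝓞 K) : K) = ζ := rfl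
  have hc : (((z ^ (30 * (16 * r)) * e : (𝓞 K)ˣ) : 𝓞 K) : K) =
      ζ ^ (30 * (16 * r)) * ((e : 𝓞 K) : K) := by
    rw [Units.val_mul, Units.val_pow_eq_pow_val, vmul97, vpow97, hzc]
  have hpow : ∀ n : ℕ, ζ ^ (31 * n) = 1 := by
    intro n
    rw [pow_mul, hζ.pow_eq_one, one_pow]
  refine ⟨16 * r, z ^ (30 * (16 * r)) * e, ?_, ?_⟩
  · unfold Rl
    rw [hc, map_mul, map_pow, σ15_ζ, ← he'1, ← hx1, hr2, inv_pow]
    have h1 : ζ ^ (30 * (16 * r)) ≠ 0 := pow_ne_zero _ hz0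
    rw [inv_mul_eq_iff_eq_mul₀ h1]
    have h2 : ζ ^ (30 * (16 * r)) * (ζ ^ (30 * (16 * r)) * (ζ ^ r * ((e' : 𝓞 K) : K))) =
        ζ ^ (31 * (31 * r)) * ((e' : 𝓞 K) : K) := by
      rw [← mul_assoc, ← mul_assoc, ← pow_add, ← pow_add]
      congr 2
      ring
    rw [h2, hpow, one_mul]
  · rw [hc, ← mul_assoc, ← pow_add]
    have h2 : 16 * r + 30 * (16 * r) = 31 * (16 * r) := by ring
    rw [h2, hpow, one_mul]

end Pool.Agent.Helper2.E8A
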