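import Pool.Agent.Helper2.E8A.InvA

/-!
# Block E8A-INV2: divisors invariant under complex conjugation

`inv_div`: induction on the number of elements of the support of `a` different from `P0`: for such a `v` subtract `a v • dv x` with the
`x` of `inv_prime` (`a` has the same value at `v` and at `sV^[15] v`, `T_pow_apply`).
-/

set_option autoImplicit false

namespace Pool.Agent.Helper2.E8A

open NumberField Polynomial IsDedekindDomain nonZeroDivisors

theorem T_pow_single (n : ℕ) (v : V) (m : ℤ) :
    (T ^ n) (Finsupp.single v m) = Finsupp.single ((sV^[n]) v) m := by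
  induction n with
  | zero => rfl
  | succ n ih =>
    rw [pow_succ', Module.End.mul_apply, ih, T_single, Function.iterate_succ_apply']

open Classical in
theorem inv_div_aux (n : ℕ) : ∀ a : D, (T ^ 15) a = a → (a.support.erase P0).card ≤ n →
    ∃ (x : Additive Kˣ) (j : ℤ), a = dv x + j • Finsupp.single P0 1 := by
  induction n with
  | zero =>
    intro a _ hc
    refine ⟨0, a P0, ?_⟩
    have h0 : a.support.erase P0 = ∅ := Finset.card_eq_zero.1 (Nat.le_zero.1 hc)
    rw [map_zero, zero_add]
    ext w
    rw [Finsupp.smul_apply, Finsupp.single_apply]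
    by_cases hw : P0 = w
    · rw [if_pos hw, ← hw]
      simp
    · rw [if_neg hw, smul_zero]
      by_contra h1
      have h2 : w ∈ a.support.erase P0 :=
        Finset.mem_erase.2 ⟨fun h => hw h.symm, Finsupp.mem_support_iff.2 h1⟩
      rw [h0] at h2
      exact absurd h2 (Finset.notMem_empty w)
  | succ n ih =>
    intro a ha hc
    by_cases hE : a.support.erase P0 = ∅
    · exact ih a ha (by rw [hE]; exact Nat.zero_le _)
    obtain ⟨v, hv⟩ := Finset.nonempty_iff_ne_empty.2 hE
    obtain ⟨hvP, hvs⟩ := Finset.mem_erase.1 hv
    obtain ⟨x, hx⟩ := inv_prime v hvP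
    have hav : a ((sV^[15]) v) = a v := by
      have h1 := T_pow_apply 15 a v
      rwa [ha] at h1
    -- the three facts on `dv x`
    have hT : (T ^ 15) (dv x) = dv x := by
      rcases hx with ⟨h1, h2⟩ | ⟨_, h2⟩
      · rw [h2, T_pow_single, h1]
      · rw [h2, map_add, T_pow_single, T_pow_single, ← Function.iterate_add_apply, sV30, add_comm]
    have hxv : dv x v = 1 := by
      rcases hx with ⟨_, h2⟩ | ⟨h1, h2⟩
      · rw [h2, Finsupp.single_eq_same]
      · rw [h2, Finsupp.add_apply, Finsupp.single_eq_same, Finsupp.single_apply, if_neg h1, add_zero]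
    have hxw : ∀ w, w ≠ v → a w ≠ a v → dv x w = 0 := by
      intro w hw haw
      rcases hx with ⟨_, h2⟩ | ⟨_, h2⟩
      · rw [h2, Finsupp.single_apply, if_neg (fun h => hw h.symm)]
      · have h3 : (sV^[15]) v ≠ w := by
          intro h
          exact haw (by rw [← h, hav])
        rw [h2, Finsupp.add_apply, Finsupp.single_apply, if_neg (fun h => hw h.symm),
          Finsupp.single_apply, if_neg h3, add_zero]
    have hxw' : ∀ w, w ≠ v → (dv x w = 0 ∨ (dv x w = 1 ∧ a w = a v)) := by
      intro w hw
      rcases hx with ⟨_, h2⟩ | ⟨_, h2⟩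
      · left
        rw [h2, Finsupp.single_apply, if_neg (fun h => hw h.symm)]
      · by_cases h3 : (sV^[15]) v = w
        · right
          rw [h2, Finsupp.add_apply, Finsupp.single_apply, if_neg (fun h => hw h.symm),
            Finsupp.single_apply, if_pos h3, zero_add]
          exact ⟨rfl, by rw [← h3, hav]⟩
        · left
          rw [h2, Finsupp.add_apply, Finsupp.single_apply, if_neg (fun h => hw h.symm),
            Finsupp.single_apply, if_neg h3, add_zero]
    have h1 : (T ^ 15) (a - a v • dv x) = a - a v • dv x := by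
      rw [map_sub, map_zsmul, ha, hT]
    have h2 : (a - a v • dv x).support.erase P0 ⊆ (a.support.erase P0).erase v := by
      intro w hw
      obtain ⟨hwP, hws⟩ := Finset.mem_erase.1 hw
      rw [Finsupp.mem_support_iff, Finsupp.sub_apply, Finsupp.smul_apply, smul_eq_mul] at hws
      have hwv : w ≠ v := by
        intro h
        apply hws
        rw [h, hxv]
        ring
      refine Finset.mem_erase.2 ⟨hwv, Finset.mem_erase.2 ⟨hwP, Finsupp.mem_support_iff.2 ?_⟩⟩
      rcases hxw' w hwv with h3 | ⟨h3, h4⟩
      · rw [h3, mul_zero, sub_zero] at hws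
        exact hws
      · exfalso
        apply hws
        rw [h3, h4]
        ring
    have h3 : ((a - a v • dv x).support.erase P0).card ≤ n := by
      have h4 := Finset.card_le_card h2
      rw [Finset.card_erase_of_mem hv] at h4
      omega
    obtain ⟨y, j, hy⟩ := ih _ h1 h3
    refine ⟨y + a v • x, j, ?_⟩
    rw [map_add, map_zsmul]
    have h5 : a = (a - a v • dv x) + a v • dv x := by abel
    calc a = (a - a v • dv x) + a v • dv x := h5
      _ = dv y + j • Finsupp.single P0 1 + a v • dv x := by rw [hy]
      _ = dv y + a v • dv x + j • Finsupp.single P0 1 := by abel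

theorem inv_div (a : D) (h : (T ^ 15) a = a) : ∃ (x : Additive Kˣ) (j : ℤ),
    a = dv x + j • Finsupp.single P0 1 :=
  inv_div_aux _ a h le_rfl

end Pool.Agent.Helper2.E8A
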