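import Pool.Agent.Helper2.E8A.KpTc
import Pool.Agent.Helper2.E8A.KpTd

/-!
# E8A-KPT: the table

For every prime `p ≤ 82160` with `p mod 31 ∈ {1, 30}` and for `p = 31` a certificate for `cert_one`.
-/

set_option autoImplicit false

namespace Pool.Agent.Helper2.E8A

open NumberField Polynomial IsDedekindDomain nonZeroDivisors

/-- The rows for the primes `1` modulo `31`. -/
def tA : List Row := tab0 ++ (tab1 ++ (tab2 ++ (tab3 ++ (tab4 ++ (tab5 ++ tab6)))))

/-- The rows for the primes `-1` modulo `31`. -/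
def tB : List Row := tab7 ++ (tab8 ++ (tab9 ++ (tab10 ++ (tab11 ++ tab12))))

theorem tA_ok : tA.all chk = true := by
  simp only [tA, List.all_append, tab0_ok, tab1_ok, tab2_ok, tab3_ok, tab4_ok, tab5_ok, tab6_ok, Bool.and_self]

theorem tB_ok : tB.all chk = true := by
  simp only [tB, List.all_append, tab7_ok, tab8_ok, tab9_ok, tab10_ok, tab11_ok, tab12_ok, Bool.and_self]

theorem row_of_mem {l : List Row} (hl : l.all chk = true) {p : ℕ} (h : p ∈ l.map Row.p) (hp : p.Prime) :
    ∃ P ∈ Ideal.primesOver (Ideal.span {(p : ℤ)}) (𝓞 Kp), Submodule.IsPrincipal P := by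
  obtain ⟨t, ht, rfl⟩ := List.mem_map.mp h
  exact row_spec t (List.all_eq_true.mp hl t ht) hp

/-- The product of the primes up to `13`. -/
def Q1 : ℕ := 30030

/-- The product of the primes up to `283`. -/
def Q2 : ℕ := 6975357535853769564018389183934484833544679824821000822079731605785973739106144495802573231793827147966964944839451970

theorem Q1_spec : ∀ q : ℕ, q.Prime → q ∣ Q1 → q ≤ 13 := by
  intro q hq h
  have h1 : Q1 = ([2, 3, 5, 7, 11, 13] : List ℕ).prod := by decide +kernel
  rw [h1, Prime.dvd_prod_iff (Nat.Prime.prime hq)] at h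
  obtain ⟨a, ha, hqa⟩ := h
  have h2 : ∀ a ∈ ([2, 3, 5, 7, 11, 13] : List ℕ), a ≤ 13 ∧ 0 < a := by decide +kernel
  exact (Nat.le_of_dvd (h2 a ha).2 hqa).trans (h2 a ha).1

theorem Q2_spec : ∀ q : ℕ, q.Prime → q ∣ Q2 → q ≤ 283 := by
  intro q hq h
  have h1 : Q2 = ([2, 3, 5, 7, 11, 13, 17, 19, 23, 29, 31, 37, 41, 43, 47, 53, 59, 61, 67, 71, 73, 79, 83, 89, 97, 101, 103, 107, 109, 113, 127, 131, 137, 139, 149, 151, 157, 163, 167, 173, 179, 181, 191, 193, 197, 199, 211, 223, 227, 229, 233, 239, 241, 251, 257, 263, 269, 271, 277, 281, 283] : List ℕ).prod := by decide +kernel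
  rw [h1, Prime.dvd_prod_iff (Nat.Prime.prime hq)] at h
  obtain ⟨a, ha, hqa⟩ := h
  have h2 : ∀ a ∈ ([2, 3, 5, 7, 11, 13, 17, 19, 23, 29, 31, 37, 41, 43, 47, 53, 59, 61, 67, 71, 73, 79, 83, 89, 97, 101, 103, 107, 109, 113, 127, 131, 137, 139, 149, 151, 157, 163, 167, 173, 179, 181, 191, 193, 197, 199, 211, 223, 227, 229, 233, 239, 241, 251, 257, 263, 269, 271, 277, 281, 283] : List ℕ), a ≤ 283 ∧ 0 < a := by decide +kernel
  exact (Nat.le_of_dvd (h2 a ha).2 hqa).trans (h2 a ha).1

theorem prgA1 : prg Q1 13 9 32 (tA.map Row.p) = true := by decide +kernel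

theorem prgA2 : prg Q2 283 2641 311 (tA.map Row.p) = true := by decide +kernel

theorem prgB1 : prg Q1 13 9 30 (tB.map Row.p) = true := by decide +kernel

theorem prgB2 : prg Q2 283 2641 309 (tB.map Row.p |>.drop 1) = true := by decide +kernel

theorem table {p : ℕ} (hp : p.Prime) (hB : p ≤ 82160) (h : p % 31 = 1 ∨ p % 31 = 30 ∨ p = 31) :
    ∃ P ∈ Ideal.primesOver (Ideal.span {(p : ℤ)}) (𝓞 Kp), Submodule.IsPrincipal P := by
  have h1 := hp.one_lt
  rcases h with h | h | h
  · refine row_of_mem tA_ok ?_ hp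
    by_cases h2 : p < 311
    · have := prg_spec Q1_spec _ _ _ prgA1 ((p - 32) / 31) (by omega) (by
        rwa [show 32 + 31 * ((p - 32) / 31) = p by omega])
      rwa [show 32 + 31 * ((p - 32) / 31) = p by omega] at this
    · have := prg_spec Q2_spec _ _ _ prgA2 ((p - 311) / 31) (by omega) (by
        rwa [show 311 + 31 * ((p - 311) / 31) = p by omega])
      rwa [show 311 + 31 * ((p - 311) / 31) = p by omega] at this
  · refine row_of_mem tB_ok ?_ hp
    by_cases h2 : p < 309
    · have := prg_spec Q1_spec _ _ _ prgB1 ((p - 30) / 31) (by omega) (by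
        rwa [show 30 + 31 * ((p - 30) / 31) = p by omega])
      rwa [show 30 + 31 * ((p - 30) / 31) = p by omega] at this
    · have := prg_spec Q2_spec _ _ _ prgB2 ((p - 309) / 31) (by omega) (by
        rwa [show 309 + 31 * ((p - 309) / 31) = p by omega])
      rw [show 309 + 31 * ((p - 309) / 31) = p by omega] at this
      exact List.mem_of_mem_drop this
  · subst h
    exact row_of_mem tab13_ok (by decide +kernel) hp

end Pool.Agent.Helper2.E8A
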