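import Pool.Agent.Helper2.E8A.KpB
import Pool.Agent.Helper2.E8A.KpT

/-!
# Block E8A-KPF (helper2): the class number of the real subfield
-/

set_option autoImplicit false

namespace Pool.Agent.Helper2.E8A

open NumberField Polynomial IsDedekindDomain nonZeroDivisors

theorem prod_sq : cc 1 ^ 2 = cc 2 + 2 := by
  have h := prod_cc 1 1 le_rfl
  rw [cc_zero] at h
  linear_combination h

theorem prod_cu : cc 1 ^ 3 = cc 3 + 3 * cc 1 := by
  have h := prod_cc 2 1 (by norm_num)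
  simp only [Nat.reduceAdd, Nat.reduceSub] at h
  linear_combination h + cc 1 * prod_sq

theorem prod_5 : cc 1 ^ 5 = cc 5 + 5 * cc 3 + 10 * cc 1 := by
  have h3 := prod_cc 3 1 (by norm_num)
  have h4 := prod_cc 4 1 (by norm_num)
  have h2 := prod_cc 2 1 (by norm_num)
  simp only [Nat.reduceAdd, Nat.reduceSub] at h2 h3 h4
  linear_combination h4 + cc 1 * h3 + 4 * h2 + cc 1 ^ 2 * prod_cu + 3 * cc 1 * prod_sq

theorem kp_two : ∃ P ∈ Ideal.primesOver (Ideal.span {((2 : ℕ) : ℤ)}) (𝓞 Kp), Submodule.IsPrincipal P := by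
  have e1 : mulS (-1) [(7, -1), (11, 1)] [4, 1, 3, 1, 2, 2, 1, 2, 1, 3, 1, 3, 1, 3, 2] = cst (-2) := by decide +kernel
  have e2 : mulS (-1) [(7, -1), (11, 1)] [-37, -4, -34, -15, -29, -26, -23, -33, -16, -34, -11, -31, -11, -24, -16] =
      [7, -2, 2, -3, -2, -3, -3, -3, -3, -3, -3, -3, -3, -3, -3] := by decide +kernel
  refine cert (f := 5) Nat.prime_two (α := vs (-1) [(7, -1), (11, 1)])
    (β := vl [4, 1, 3, 1, 2, 2, 1, 2, 1, 3, 1, 3, 1, 3, 2])
    (γ := vl [-37, -4, -34, -15, -29, -26, -23, -33, -16, -34, -11, -31, -11, -24, -16])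
    (g := X ^ 5 + X ^ 2 + 1) (by monicity!) (by compute_degree!) ?_ ?_ ?_ ?_
  · rw [← mulS_spec _ _ (by simp) _ (by simp), e1, vl_cst]
    push_cast
    ring
  · rw [← mulS_spec _ _ (by simp) _ (by simp), e2, vl_eq]
    simp only [map_add, map_pow, aeval_X, map_one]
    push_cast
    linear_combination - prod_5 - prod_sq - 3 * sum_cc'
  · intro h
    have := vl_dvd (by simp) h 1 (by simp)
    norm_num at this
  · intro P hP
    exact (kp_inert_2 P hP).ge

theorem kp_five : ∃ P ∈ Ideal.primesOver (Ideal.span {((5 : ℕ) : ℤ)}) (𝓞 Kp), Submodule.IsPrincipal P := by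
  have e1 : mulS (-1) [(12, 1), (15, 1)] [2, 3, 5, 2, 2, 0, 4, 2, 3, 1, 1, 4, 3, 3, 2] = cst (-5) := by decide +kernel
  have e2 : mulS (-1) [(12, 1), (15, 1)] [0, 1, 1, 1, 0, 0, 0, 0, 0, 0, 0, 1, 1, 1, 1] =
      [-1, -2, -2, -3, -3, -3, -3, -3, -3, -3, -3, -3, -3, -3, -3] := by decide +kernel
  refine cert (f := 3) Nat.prime_five (α := vs (-1) [(12, 1), (15, 1)])
    (β := vl [2, 3, 5, 2, 2, 0, 4, 2, 3, 1, 1, 4, 3, 3, 2])
    (γ := vl [0, 1, 1, 1, 0, 0, 0, 0, 0, 0, 0, 1, 1, 1, 1])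
    (g := X ^ 3 + X ^ 2 - X + 1) (by monicity!) (by compute_degree!) ?_ ?_ ?_ ?_
  · rw [← mulS_spec _ _ (by simp) _ (by simp), e1, vl_cst]
    push_cast
    ring
  · rw [← mulS_spec _ _ (by simp) _ (by simp), e2, vl_eq]
    simp only [map_add, map_sub, map_pow, aeval_X, map_one]
    push_cast
    linear_combination - prod_cu - prod_sq - 3 * sum_cc'
  · intro h
    have := vl_dvd (by simp) h 2 (by simp)
    norm_num at this
  · intro P hP
    exact (kp_inert_5 P hP).ge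

theorem kp_37 : ∃ P ∈ Ideal.primesOver (Ideal.span {((37 : ℕ) : ℤ)}) (𝓞 Kp), Submodule.IsPrincipal P := by
  have e1 : mulS (-1) [(2, 2), (10, 2), (12, 2)]
      [93, 83, 37, 121, 93, 93, 121, 117, 117, 83, 121, 83, 37, 117, 37] = cst (-37) := by decide +kernel
  have e2 : mulS (-1) [(2, 2), (10, 2), (12, 2)]
      [11, 3, -33, -40, -48, -86, -84, -76, -94, -72, -42, -44, -18, 8, 0] =
      [5, 1, 19, 18, 18, 18, 18, 18, 18, 18, 18, 18, 18, 18, 18] := by decide +kernel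
  refine cert (f := 3) (by norm_num) (α := vs (-1) [(2, 2), (10, 2), (12, 2)])
    (β := vl [93, 83, 37, 121, 93, 93, 121, 117, 117, 83, 121, 83, 37, 117, 37])
    (γ := vl [11, 3, -33, -40, -48, -86, -84, -76, -94, -72, -42, -44, -18, 8, 0])
    (g := X ^ 3 - 17 * X ^ 2 - 16 * X + 16) (by monicity!) (by compute_degree!) ?_ ?_ ?_ ?_
  · rw [← mulS_spec _ _ (by simp) _ (by simp), e1, vl_cst]
    push_cast
    ring
  · rw [← mulS_spec _ _ (by simp) _ (by simp), e2, vl_eq]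
    simp only [map_add, map_sub, map_mul, map_pow, aeval_X, map_ofNat]
    push_cast
    linear_combination - prod_cu + 17 * prod_sq + 18 * sum_cc'
  · intro h
    have := vl_dvd (by simp) h 93 (by simp)
    norm_num at this
  · intro P hP
    exact kp_inert_37 P hP

theorem kp_pid : IsPrincipalIdealRing (𝓞 Kp) := by
  refine kp_reduce fun p hp hB => ?_
  by_cases h : p % 31 = 1 ∨ p % 31 = 30 ∨ p = 31
  · obtain ⟨P, h1, h2⟩ := table hp hB h
    exact ⟨P, h1, Or.inr h2⟩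
  rw [not_or, not_or] at h
  by_cases h2 : p = 2
  · subst h2
    obtain ⟨P, h1, h2⟩ := kp_two
    exact ⟨P, h1, Or.inr h2⟩
  by_cases h5 : p = 5
  · subst h5
    obtain ⟨P, h1, h2⟩ := kp_five
    exact ⟨P, h1, Or.inr h2⟩
  by_cases h37 : p = 37
  · subst h37
    obtain ⟨P, h1, h2⟩ := kp_37
    exact ⟨P, h1, Or.inr h2⟩
  have hp0 : (Ideal.span {(p : ℤ)}).IsPrime := by
    rw [Ideal.span_singleton_prime (by exact_mod_cast hp.ne_zero)]
    exact Nat.prime_iff_prime_int.mp hp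
  have hmax : (Ideal.span {(p : ℤ)}).IsMaximal := hp0.isMaximal (by
    rw [Ne, Ideal.span_singleton_eq_bot]
    exact_mod_cast hp.ne_zero)
  obtain ⟨⟨P, hP⟩⟩ := Ideal.nonempty_primesOver (S := 𝓞 Kp) (Ideal.span {(p : ℤ)})
  exact ⟨P, hP, Or.inl (kp_inert_big hp hB h2 h5 h.2.2 h37 h.1 h.2.1 P hP)⟩

end Pool.Agent.Helper2.E8A
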