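import Pool.Agent.Helper2.E8A.Dvs
import Pool.Agent.Helper2.E8A.KpF

/-!
# Block E8A-INV1: primes and complex conjugation

`inv_prime`: let `v ≠ P0`, `p` the prime ideal of `𝓞 Kp` below `v`, `p = (π)` (`kp_pid`). The primes of `𝓞 K` over `p` are `v` and its
image `v'` under complex conjugation: if `w` is another one, take `a ∈ w`, `a ∉ v ∪ v'`; the norm of `a` is in `w ∩ 𝓞 Kp = p ⊆ v`.
And `dv π w ≤ 1`, as `π` divides a rational prime `q ≠ 31`, `dv q w = 1` (`dv_prime`).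
-/

set_option autoImplicit false

namespace Pool.Agent.Helper2.E8A

open NumberField Polynomial IsDedekindDomain nonZeroDivisors

/-- The action of `σ` on the integers. -/
noncomputable def sInv : 𝓞 K ≃+* 𝓞 K := RingOfIntegers.mapRingEquiv (σ : K ≃+* K)

theorem sInv_coe (y : 𝓞 K) : ((sInv y : 𝓞 K) : K) = σ (y : K) := rfl

theorem sO_pow_coe (n : ℕ) (y : 𝓞 K) : (((sInv^[n]) y : 𝓞 K) : K) = (σ ^ n) (y : K) := by
  induction n with
  | zero => rfl
  | succ n ih =>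
    rw [Function.iterate_succ_apply', sInv_coe, ih, pow_succ', AlgEquiv.mul_apply]

theorem sO_mem (v : V) (y : 𝓞 K) : sInv y ∈ (sV v).asIdeal ↔ y ∈ v.asIdeal := by
  change sInv y ∈ Ideal.comap (sInv.symm : 𝓞 K →+* 𝓞 K) v.asIdeal ↔ _
  rw [Ideal.mem_comap]
  change sInv.symm (sInv y) ∈ v.asIdeal ↔ _
  rw [RingEquiv.symm_apply_apply]

theorem sO_pow_mem (n : ℕ) (v : V) (y : 𝓞 K) : (sInv^[n]) y ∈ ((sV^[n]) v).asIdeal ↔ y ∈ v.asIdeal := by
  induction n with
  | zero => rfl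
  | succ n ih =>
    rw [Function.iterate_succ_apply', Function.iterate_succ_apply', sO_mem, ih]

/-- The rational prime below `v`. -/
theorem exists_prime_mem (v : V) (hv : v ≠ P0) : ∃ q : ℕ, q.Prime ∧ q ≠ 31 ∧ ((q : ℕ) : 𝓞 K) ∈ v.asIdeal := by
  have : NeZero v.asIdeal := ⟨v.ne_bot⟩
  have := v.isPrime
  refine ⟨Ideal.absNorm (Ideal.under ℤ v.asIdeal), Nat.absNorm_under_prime v.asIdeal, ?_,
    Int.absNorm_under_mem v.asIdeal⟩
  intro h31
  apply hv
  have h1 : v.asIdeal.LiesOver (Ideal.span {((31 : ℕ) : ℤ)}) := by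
    have h2 := Int.liesOver_span_absNorm v.asIdeal
    rwa [h31] at h2
  have h3 := IsCyclotomicExtension.Rat.eq_span_zeta_sub_one_of_liesOver' 31 K hζ v.asIdeal
  ext1
  exact h3

/-- The norm to the real subfield. -/
theorem exists_norm (a : 𝓞 K) : ∃ b : 𝓞 Kp, algebraMap (𝓞 Kp) (𝓞 K) b = a * (sInv^[15]) a := by
  have h1 : ((a * (sInv^[15]) a : 𝓞 K) : K) ∈ Kp := by
    rw [mem_Kp]
    unfold Rl
    have h0 : ((a * (sInv^[15]) a : 𝓞 K) : K) = (a : K) * (((sInv^[15]) a : 𝓞 K) : K) := rfl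
    rw [h0, map_mul, sO_pow_coe, σ15_σ15, mul_comm]
  have h2 : IsIntegral ℤ (⟨((a * (sInv^[15]) a : 𝓞 K) : K), h1⟩ : Kp) := by
    have h3 : IsIntegral ℤ ((a * (sInv^[15]) a : 𝓞 K) : K) := RingOfIntegers.isIntegral_coe _
    exact (isIntegral_algebraMap_iff (A := Kp) (B := K) (FaithfulSMul.algebraMap_injective Kp K)).mp h3
  refine ⟨⟨⟨((a * (sInv^[15]) a : 𝓞 K) : K), h1⟩, h2⟩, ?_⟩
  apply RingOfIntegers.ext
  rfl

theorem coe_alg (π : 𝓞 Kp) : ((algebraMap (𝓞 Kp) (𝓞 K) π : 𝓞 K) : K) = ((π : Kp) : K) := rfl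

theorem rl_alg (π : 𝓞 Kp) : (σ ^ 15) ((algebraMap (𝓞 Kp) (𝓞 K) π : 𝓞 K) : K) =
    ((algebraMap (𝓞 Kp) (𝓞 K) π : 𝓞 K) : K) := by
  have h : ((algebraMap (𝓞 Kp) (𝓞 K) π : 𝓞 K) : K) ∈ Kp := SetLike.coe_mem (π : Kp)
  rw [mem_Kp, Rl] at h
  rw [h]

/-- The primes over the same prime of the real subfield. -/
theorem eq_or_eq (v w : V) (h : w.asIdeal.under (𝓞 Kp) ≤ v.asIdeal.under (𝓞 Kp)) :
    w = v ∨ w = (sV^[15]) v := by
  by_contra hne
  rw [not_or] at hne
  have h1 : ¬ ((w.asIdeal : Set (𝓞 K)) ⊆ (v.asIdeal : Set (𝓞 K)) ∪ (((sV^[15]) v).asIdeal : Set (𝓞 K))) := by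
    rw [Ideal.subset_union, not_or]
    constructor
    · intro h2
      apply hne.1
      ext1
      exact w.isMaximal.eq_of_le v.isPrime.ne_top h2
    · intro h2
      apply hne.2
      ext1
      exact w.isMaximal.eq_of_le ((sV^[15]) v).isPrime.ne_top h2
  rw [Set.not_subset] at h1
  obtain ⟨a, ha, hna⟩ := h1
  rw [Set.mem_union, not_or] at hna
  obtain ⟨b, hb⟩ := exists_norm a
  have h3 : b ∈ w.asIdeal.under (𝓞 Kp) := by
    rw [Ideal.under_def, Ideal.mem_comap, hb]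
    exact Ideal.mul_mem_right _ _ ha
  have h4 := h h3
  rw [Ideal.under_def, Ideal.mem_comap, hb] at h4
  rcases v.isPrime.mem_or_mem h4 with h5 | h5
  · exact hna.1 h5
  · apply hna.2
    have h6 := (sO_pow_mem 15 v ((sInv^[15]) a)).mpr h5
    have h7 : (sInv^[15]) ((sInv^[15]) a) = a := by
      apply RingOfIntegers.ext
      rw [sO_pow_coe, sO_pow_coe, σ15_σ15]
    rwa [h7] at h6

open Classical in
theorem inv_prime (v : V) (hv : v ≠ P0) : ∃ x : Additive Kˣ,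
    ((sV^[15]) v = v ∧ dv x = Finsupp.single v 1) ∨ ((sV^[15]) v ≠ v ∧
      dv x = Finsupp.single v 1 + Finsupp.single ((sV^[15]) v) 1) := by
  have := kp_pid
  obtain ⟨π, hπ⟩ := IsPrincipalIdealRing.principal (v.asIdeal.under (𝓞 Kp))
  rw [Ideal.submodule_span_eq] at hπ
  have hne : v.asIdeal.under (𝓞 Kp) ≠ ⊥ := Ideal.under_ne_bot _ v.ne_bot
  have hπ0 : π ≠ 0 := by
    rintro rfl
    apply hne
    rw [hπ, Ideal.span_singleton_eq_bot]
  have hmax : (v.asIdeal.under (𝓞 Kp)).IsMaximal := (v.isPrime.under (𝓞 Kp)).isMaximal hne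
  have hy0 : ((algebraMap (𝓞 Kp) (𝓞 K) π : 𝓞 K) : K) ≠ 0 := by
    rw [RingOfIntegers.coe_ne_zero_iff]
    exact (map_ne_zero_iff _ (FaithfulSMul.algebraMap_injective (𝓞 Kp) (𝓞 K))).mpr hπ0
  set x : Additive Kˣ := Additive.ofMul (Units.mk0 _ hy0) with hx
  have hpos : ∀ w : V, 0 < dv x w ↔ w = v ∨ w = (sV^[15]) v := by
    intro w
    rw [dv_pos_iff (y := algebraMap (𝓞 Kp) (𝓞 K) π) rfl w]
    constructor
    · intro h1
      have h2 : v.asIdeal.under (𝓞 Kp) ≤ w.asIdeal.under (𝓞 Kp) := by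
        rw [hπ, Ideal.span_singleton_le_iff_mem, Ideal.under_def, Ideal.mem_comap]
        exact h1
      have h3 := hmax.eq_of_le (w.isPrime.under (𝓞 Kp)).ne_top h2
      exact eq_or_eq v w h3.ge
    · have h1 : π ∈ v.asIdeal.under (𝓞 Kp) := by
        rw [hπ]
        exact Ideal.mem_span_singleton_self π
      rw [Ideal.under_def, Ideal.mem_comap] at h1
      rintro (h2 | h2)
      · rw [h2]
        exact h1
      · rw [h2]
        have h3 := (sO_pow_mem 15 v _).mpr h1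
        have h4 : (sInv^[15]) (algebraMap (𝓞 Kp) (𝓞 K) π) = algebraMap (𝓞 Kp) (𝓞 K) π := by
          apply RingOfIntegers.ext
          rw [sO_pow_coe, rl_alg]
        rwa [h4] at h3
  have hle : ∀ w : V, w = v ∨ w = (sV^[15]) v → dv x w ≤ 1 := by
    intro w hw
    obtain ⟨q, hq, h31, hqv⟩ := exists_prime_mem v hv
    have hqw : ((q : ℕ) : 𝓞 K) ∈ w.asIdeal := by
      rcases hw with h1 | h1
      · rw [h1]
        exact hqv
      · rw [h1]
        have h3 := (sO_pow_mem 15 v _).mpr hqv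
        have h4 : (sInv^[15]) ((q : ℕ) : 𝓞 K) = ((q : ℕ) : 𝓞 K) := by
          apply RingOfIntegers.ext
          have h5 : (((q : ℕ) : 𝓞 K) : K) = (q : K) := map_natCast (algebraMap (𝓞 K) K) q
          rw [sO_pow_coe, h5, map_natCast]
        rwa [h4] at h3
    have h1 : ((q : ℕ) : 𝓞 Kp) ∈ v.asIdeal.under (𝓞 Kp) := by
      rw [Ideal.under_def, Ideal.mem_comap, map_natCast]
      exact hqv
    rw [hπ, Ideal.mem_span_singleton'] at h1
    obtain ⟨z, hz⟩ := h1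
    have hz1 : ((algebraMap (𝓞 Kp) (𝓞 K) z : 𝓞 K) : K) * ((algebraMap (𝓞 Kp) (𝓞 K) π : 𝓞 K) : K) = q := by
      have h2 := congrArg (fun t => ((algebraMap (𝓞 Kp) (𝓞 K) t : 𝓞 K) : K)) hz
      simp only [map_mul, map_natCast] at h2
      exact h2
    have hq0 : (q : K) ≠ 0 := by
      exact_mod_cast hq.ne_zero
    have hz0 : ((algebraMap (𝓞 Kp) (𝓞 K) z : 𝓞 K) : K) ≠ 0 := by
      intro h
      rw [h, zero_mul] at hz1
      exact hq0 hz1.symm
    have h2 : Additive.ofMul (Units.mk0 _ hz0) + x = Additive.ofMul (Units.mk0 (q : K) hq0) := by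
      rw [hx, ← ofMul_mul]
      congr 1
      ext1
      exact hz1
    have h3 := congrArg (fun t => dv t w) h2
    simp only [map_add, Finsupp.add_apply] at h3
    rw [dv_prime hq h31 (x := Additive.ofMul (Units.mk0 (q : K) hq0)) rfl w hqw] at h3
    have h4 := dv_nonneg (x := Additive.ofMul (Units.mk0 _ hz0)) (y := algebraMap (𝓞 Kp) (𝓞 K) z) rfl w
    omega
  have hval : ∀ w : V, dv x w = if w = v ∨ w = (sV^[15]) v then 1 else 0 := by
    intro w
    split_ifs with h1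
    · have h2 := (hpos w).mpr h1
      have h3 := hle w h1
      omega
    · have h2 := dv_nonneg (x := x) (y := algebraMap (𝓞 Kp) (𝓞 K) π) rfl w
      have h3 := (hpos w).not.mpr h1
      omega
  refine ⟨x, ?_⟩
  by_cases h15 : (sV^[15]) v = v
  · left
    refine ⟨h15, ?_⟩
    ext w
    rw [hval, Finsupp.single_apply]
    by_cases h1 : w = v
    · rw [if_pos (Or.inl h1), if_pos h1.symm]
    · rw [if_neg (fun h => h1 (h.elim id (fun h2 => h2.trans h15))), if_neg (fun h => h1 h.symm)]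
  · right
    refine ⟨h15, ?_⟩
    ext w
    rw [hval, Finsupp.add_apply, Finsupp.single_apply, Finsupp.single_apply]
    by_cases h1 : w = v
    · subst h1
      rw [if_pos (Or.inl rfl), if_pos rfl, if_neg h15]
      rfl
    · by_cases h2 : w = (sV^[15]) v
      · rw [if_pos (Or.inr h2), if_neg (fun h => h1 h.symm), if_pos h2.symm]
        rfl
      · rw [if_neg (not_or.mpr ⟨h1, h2⟩), if_neg (fun h => h1 h.symm), if_neg (fun h => h2 h.symm)]
        rfl

end Pool.Agent.Helper2.E8A
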