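import Mathlib

/-!
# Block E8A-JA0: a power sum

`sum_pow`: the polynomial `X ^ i (1 - X) ^ j` has degree `i + j < p - 1`; expand and use `FiniteField.sum_pow_lt_card_sub_one`.
-/

set_option autoImplicit false

namespace Pool.Agent.Helper2.E8A

theorem sum_pow {p : ℕ} [Fact p.Prime] {i j : ℕ} (h : i + j < p - 1) :
    ∑ x : ZMod p, x ^ i * (1 - x) ^ j = 0 := by
  have h0 : ∀ n, n < p - 1 → ∑ x : ZMod p, x ^ n = 0 := fun n hn =>
    FiniteField.sum_pow_lt_card_sub_one (K := ZMod p) n (by rwa [ZMod.card])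
  have h1 : ∀ x : ZMod p, x ^ i * (1 - x) ^ j =
      ∑ k ∈ Finset.range (j + 1), ((-1) ^ k * (j.choose k : ZMod p)) * x ^ (i + k) := by
    intro x
    have h2 : (1 - x) ^ j = ∑ k ∈ Finset.range (j + 1), (-x) ^ k * 1 ^ (j - k) * (j.choose k : ZMod p) := by
      rw [← add_pow]
      congr 1
      ring
    rw [h2, Finset.mul_sum]
    refine Finset.sum_congr rfl fun k _ => ?_
    rw [neg_pow, pow_add, one_pow]
    ring
  simp only [h1]
  rw [Finset.sum_comm]
  refine Finset.sum_eq_zero fun k hk => ?_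
  rw [← Finset.mul_sum, h0 (i + k) (by
    have := Finset.mem_range.1 hk
    omega), mul_zero]

end Pool.Agent.Helper2.E8A
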