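import Pool.Agent.Helper2.E8A.Dvs
import Pool.Agent.Helper2.E8A.Ja0

/-!
# Block E8A-JA: the residue map and the character of a prime of degree one

`exists_cd`: `v` of degree one: `p = absNorm v`, `𝓞 K / v` is a field with `p` elements, so isomorphic to `ZMod p` (`ρ`). `p ≠ 31` as
`P0` is the only prime over `31`. `ρ ζ` is a primitive 31st root of unity in `ZMod p` (`p ≠ 31`; `X ^ 31 - 1` is separable), so
`31 ∣ p - 1`. For `x ≠ 0` the element `x ^ m`, `m = (p - 1) / 31`, is a 31st root of unity, so a power of `ρ ζ`: `x ^ m = ρ ζ ^ k` with a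
unique `k < 31` (`IsPrimitiveRoot.eq_pow_of_pow_eq_one`); put `χ x = ζ ^ k`. It is multiplicative, and nontrivial (a generator
`x` of `(ZMod p)ˣ` has `x ^ m ≠ 1`).
-/

set_option autoImplicit false

namespace Pool.Agent.Helper2.E8A

open NumberField Polynomial IsDedekindDomain nonZeroDivisors

/-- The residue map and the character of a prime of degree one. -/
structure Cd (v : V) where
  p : ℕ
  hp : Fact p.Prime
  h31 : p ≠ 31
  m : ℕ
  hm : p = 31 * m + 1
  ρ : 𝓞 K →+* ZMod p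
  ker : ∀ x : 𝓞 K, ρ x = 0 ↔ x ∈ v.asIdeal
  χ : MulChar (ZMod p) (𝓞 K)
  ne : χ ≠ 1
  val : ∀ x : ZMod p, x ≠ 0 → ρ (χ x) = x ^ m
  pow : ∀ x : ZMod p, x ≠ 0 → ∃ k : ℕ, χ x = hζ.toInteger ^ k

/-- `1 - ζ` is not in a prime different from `P0`. -/
theorem zeta_sub_one_notMem (v : V) (hv : v ≠ P0) : hζ.toInteger - 1 ∉ v.asIdeal := by
  intro h
  apply hv
  apply HeightOneSpectrum.ext
  have h1 : P0.asIdeal ≤ v.asIdeal := by
    change Ideal.span {hζ.toInteger - 1} ≤ v.asIdeal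
    rw [Ideal.span_singleton_le_iff_mem]
    exact h
  exact (P0.isMaximal.eq_of_le v.isPrime.ne_top h1).symm

/-- The residue map. -/
theorem exists_rho (v : V) {p : ℕ} (hp : p.Prime) (h : Ideal.absNorm v.asIdeal = p) :
    ∃ ρ : 𝓞 K →+* ZMod p, ∀ x : 𝓞 K, ρ x = 0 ↔ x ∈ v.asIdeal := by
  have h1 : Nat.card (𝓞 K ⧸ v.asIdeal) = p := by
    rw [← h, Ideal.absNorm_apply, Submodule.cardQuot_apply]
  have : Finite (𝓞 K ⧸ v.asIdeal) := Nat.finite_of_card_ne_zero (by rw [h1]; exact hp.ne_zero)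
  let _ : Fintype (𝓞 K ⧸ v.asIdeal) := Fintype.ofFinite _
  have h2 : Fintype.card (𝓞 K ⧸ v.asIdeal) = p := by
    rw [← Nat.card_eq_fintype_card, h1]
  let e := ZMod.ringEquivOfPrime (𝓞 K ⧸ v.asIdeal) hp h2
  refine ⟨(e.symm : (𝓞 K ⧸ v.asIdeal) →+* ZMod p).comp (Ideal.Quotient.mk v.asIdeal), fun x => ?_⟩
  rw [RingHom.comp_apply]
  change e.symm _ = 0 ↔ _
  rw [EmbeddingLike.map_eq_zero_iff, Ideal.Quotient.eq_zero_iff_mem]

theorem exists_cd (v : V) (hv : Dg1 v) : Nonempty (Cd v) := by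
  obtain ⟨hp, hP0⟩ := hv
  obtain ⟨p, hpdef⟩ : ∃ p, Ideal.absNorm v.asIdeal = p := ⟨_, rfl⟩
  rw [hpdef] at hp
  obtain ⟨ρ, hρ⟩ := exists_rho v hp hpdef
  have : Fact p.Prime := ⟨hp⟩
  have hz := hζ.toInteger_isPrimitiveRoot
  have hz1 : ρ hζ.toInteger ≠ 1 := by
    intro h
    apply zeta_sub_one_notMem v hP0
    rw [← hρ, map_sub, map_one, h, sub_self]
  have hz31 : (ρ hζ.toInteger) ^ 31 = 1 := by
    rw [← map_pow, hz.pow_eq_one, map_one]
  -- the units
  obtain ⟨Z, hZ⟩ := hz.isUnit (by norm_num)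
  have hZo : orderOf Z = 31 := by
    rw [← orderOf_units, hZ]
    exact hz.eq_orderOf.symm
  set W : (ZMod p)ˣ := Units.map (ρ : 𝓞 K →* ZMod p) Z with hW
  have hWv : (W : ZMod p) = ρ hζ.toInteger := by
    rw [hW, Units.coe_map, hZ]
    rfl
  have hWo : orderOf W = 31 := by
    rw [← orderOf_units, hWv]
    exact orderOf_eq_prime hz31 hz1
  have hWp : IsPrimitiveRoot (W : ZMod p) 31 := by
    have h1 := IsPrimitiveRoot.orderOf (W : ZMod p)
    rwa [orderOf_units, hWo] at h1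
  -- `31` divides `p - 1`
  have hdvd : 31 ∣ p - 1 := by
    have h1 : W ^ (p - 1) = 1 := by
      apply Units.ext
      rw [Units.val_pow_eq_pow_val, ZMod.pow_card_sub_one_eq_one (Units.ne_zero W), Units.val_one]
    have h2 := orderOf_dvd_of_pow_eq_one h1
    rwa [hWo] at h2
  obtain ⟨m, hm⟩ := hdvd
  have hp2 := hp.two_le
  have hpm : p = 31 * m + 1 := by omega
  have hm0 : 1 ≤ m := by omega
  have hex : ∀ x : (ZMod p)ˣ, ∃ k : ℕ, W ^ k = x ^ m := by
    intro x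
    have h1 : ((x : ZMod p) ^ m) ^ 31 = 1 := by
      rw [← pow_mul, mul_comm m 31, ← hm]
      exact ZMod.pow_card_sub_one_eq_one (Units.ne_zero x)
    obtain ⟨k, _, hk⟩ := hWp.eq_pow_of_pow_eq_one h1
    refine ⟨k, Units.ext ?_⟩
    rw [Units.val_pow_eq_pow_val, Units.val_pow_eq_pow_val, hk]
  choose k hk using hex
  let f : (ZMod p)ˣ →* (𝓞 K)ˣ := MonoidHom.mk' (fun x => Z ^ k x) (by
    intro x y
    change Z ^ k (x * y) = Z ^ k x * Z ^ k y
    rw [← pow_add, pow_eq_pow_iff_modEq, hZo, ← hWo, ← pow_eq_pow_iff_modEq, pow_add, hk, hk, hk, mul_pow])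
  have hf : ∀ x, f x = Z ^ k x := fun x => rfl
  have hfρ : ∀ x : (ZMod p)ˣ, ρ (f x : 𝓞 K) = (x : ZMod p) ^ m := by
    intro x
    rw [hf, Units.val_pow_eq_pow_val, map_pow, hZ, ← hWv, ← Units.val_pow_eq_pow_val, hk,
      Units.val_pow_eq_pow_val]
  refine ⟨{ p := p, hp := ⟨hp⟩, h31 := by omega, m := m, hm := hpm, ρ := ρ, ker := hρ,
            χ := MulChar.ofUnitHom f, ne := ?_, val := ?_, pow := ?_ }⟩
  · intro h
    obtain ⟨g, hg⟩ := IsCyclic.exists_generator (α := (ZMod p)ˣ)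
    have h1 : orderOf g = p - 1 := by
      rw [orderOf_eq_card_of_forall_mem_zpowers hg, Nat.card_eq_fintype_card, ZMod.card_units]
    have h2 : g ^ m = 1 := by
      apply Units.ext
      rw [Units.val_pow_eq_pow_val, ← hfρ g, ← MulChar.ofUnitHom_coe, h, MulChar.one_apply_coe, map_one,
        Units.val_one]
    have h3 := Nat.le_of_dvd (by omega) (orderOf_dvd_of_pow_eq_one h2)
    omega
  · intro x hx
    have h1 := hfρ (Units.mk0 x hx)
    rw [← MulChar.ofUnitHom_coe] at h1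
    exact h1
  · intro x hx
    refine ⟨k (Units.mk0 x hx), ?_⟩
    have h1 := MulChar.ofUnitHom_coe f (Units.mk0 x hx)
    rw [Units.val_mk0, hf, Units.val_pow_eq_pow_val, hZ] at h1
    exact h1

end Pool.Agent.Helper2.E8A
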