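import Pool.Agent.Helper2.E8A.Ja

/-!
# Block E8A-JB: the Jacobi sum `J (χ, χ ^ 6)`

`J = jacobiSum χ (χ ^ 6) = ∑ x, χ x * χ (1 - x) ^ 6`. As the values of `χ` are powers of `ζ` (or zero), `σ ^ i` maps `J` to
`∑ x, χ x ^ 3 ^ i * χ (1 - x) ^ (6 * 3 ^ i)`, whose image under `ρ` is `∑ x, x ^ (m a) (1 - x) ^ (m b)` with any `a, b ≥ 1` congruent to
`3 ^ i`, `6 * 3 ^ i` modulo `31` (`x ^ (31 m) = 1` for `x ≠ 0`); with the least positive residues it vanishes if `a + b < 31` (`sum_pow`,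
`m (a + b) < 31 m = p - 1`).
`jac_abs`: `σ ^ 15 J = jacobiSum χ⁻¹ (χ ^ 6)⁻¹`, `jacobiSum_mul_jacobiSum_inv` (in `K`, or in `𝓞 K` by injectivity); `χ`, `χ ^ 6`, `χ ^ 7`
are nontrivial, as `χ` has order `31`.
-/

set_option autoImplicit false

namespace Pool.Agent.Helper2.E8A

open NumberField Polynomial IsDedekindDomain nonZeroDivisors

variable {v : V}

/-- The Jacobi sum. -/
noncomputable def Cd.J (c : Cd v) : 𝓞 K :=
  letI := c.hp
  jacobiSum c.χ (c.χ ^ 6)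

/-- The automorphism of `𝓞 K` induced by `σ ^ i`. -/
noncomputable def sO (i : ℕ) : 𝓞 K →+* 𝓞 K := RingOfIntegers.mapRingHom ((σ ^ i : K ≃ₐ[ℚ] K) : K →+* K)

theorem sO_coe (i : ℕ) (x : 𝓞 K) : ((sO i x : 𝓞 K) : K) = (σ ^ i) (x : K) := rfl

private theorem sO_z93 (i : ℕ) : sO i hζ.toInteger = hζ.toInteger ^ 3 ^ i := by
  apply RingOfIntegers.coe_injective
  rw [map_pow]
  exact σ_pow_ζ i

private theorem chi_zero93 (c : Cd v) : c.χ 0 = 0 := by
  haveI := c.hp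
  exact MulChar.map_zero c.χ

private theorem sO_chi93 (c : Cd v) (i : ℕ) (x : ZMod c.p) : sO i (c.χ x) = c.χ x ^ 3 ^ i := by
  by_cases hx : x = 0
  · rw [hx, chi_zero93, map_zero, zero_pow (pow_ne_zero _ (by norm_num))]
  · obtain ⟨k, hk⟩ := c.pow x hx
    rw [hk, map_pow, sO_z93, ← pow_mul, ← pow_mul, mul_comm]

private theorem z31_93 : hζ.toInteger ^ 31 = 1 := hζ.toInteger_isPrimitiveRoot.pow_eq_one

private theorem rho_pow93 (c : Cd v) (hm : 0 < c.m) (x : ZMod c.p) (n a : ℕ) (hn : n % 31 = a)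
    (ha : 0 < a) : c.ρ (c.χ x) ^ n = x ^ (c.m * a) := by
  haveI := c.hp
  have hn0 : n ≠ 0 := by
    rintro rfl
    rw [Nat.zero_mod] at hn
    omega
  by_cases hx : x = 0
  · rw [hx, chi_zero93, map_zero, zero_pow hn0, zero_pow (Nat.mul_pos hm ha).ne']
  · rw [c.val x hx, ← pow_mul]
    have h1 : n = 31 * (n / 31) + a := by omega
    have h2 : c.m * n = (c.p - 1) * (n / 31) + c.m * a := by
      have h3 : c.p - 1 = 31 * c.m := by
        have := c.hm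
        omega
      rw [h3]
      conv_lhs => rw [h1]
      ring
    rw [h2, pow_add, pow_mul, ZMod.pow_card_sub_one_eq_one hx, one_pow, one_mul]

private theorem m_pos93 (c : Cd v) : 0 < c.m := by
  have h1 := c.hm
  have h2 := c.hp.out.one_lt
  omega

theorem jac_mem (c : Cd v) (i : ℕ) (h : 3 ^ i % 31 + 6 * 3 ^ i % 31 < 31) :
    sO i c.J ∈ v.asIdeal := by
  haveI := c.hp
  rw [← c.ker]
  have hJ : c.J = ∑ x : ZMod c.p, c.χ x * (c.χ ^ 6) (1 - x) := rfl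
  have h3 : ¬ 31 ∣ 3 ^ i := by
    intro h3
    have := (by norm_num : Nat.Prime 31).dvd_of_dvd_pow h3
    omega
  have ha : 0 < 3 ^ i % 31 := Nat.pos_of_ne_zero fun h0 => h3 (Nat.dvd_of_mod_eq_zero h0)
  have hb : 0 < 6 * 3 ^ i % 31 := Nat.pos_of_ne_zero fun h0 => by
    have h4 := Nat.dvd_of_mod_eq_zero h0
    rcases (by norm_num : Nat.Prime 31).dvd_mul.mp h4 with h5 | h5
    · omega
    · exact h3 h5
  rw [hJ, map_sum, map_sum]
  have e : ∀ x : ZMod c.p, c.ρ (sO i (c.χ x * (c.χ ^ 6) (1 - x))) =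
      x ^ (c.m * (3 ^ i % 31)) * (1 - x) ^ (c.m * (6 * 3 ^ i % 31)) := by
    intro x
    have h6 : (c.χ ^ 6) (1 - x) = c.χ (1 - x) ^ 6 := MulChar.pow_apply' c.χ (by norm_num) (1 - x)
    rw [h6, map_mul, map_pow, sO_chi93, sO_chi93, map_mul, map_pow, map_pow, map_pow, ← pow_mul,
      rho_pow93 c (m_pos93 c) x (3 ^ i) _ rfl ha,
      rho_pow93 c (m_pos93 c) (1 - x) (3 ^ i * 6) (6 * 3 ^ i % 31) (by rw [mul_comm]) hb]
  rw [Finset.sum_congr rfl fun x _ => e x]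
  apply sum_pow
  have h7 : c.p - 1 = c.m * 31 := by
    have := c.hm
    omega
  rw [h7, ← mul_add]
  exact Nat.mul_lt_mul_of_pos_left h (m_pos93 c)

private theorem chi31_93 (c : Cd v) : c.χ ^ 31 = 1 := by
  haveI := c.hp
  ext a
  rw [MulChar.pow_apply_coe, MulChar.one_apply_coe]
  obtain ⟨k, hk⟩ := c.pow a a.ne_zero
  rw [hk, ← pow_mul, mul_comm, pow_mul, z31_93, one_pow]

theorem jac_abs (c : Cd v) : c.J * sO 15 c.J = (c.p : 𝓞 K) := by
  haveI := c.hp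
  have h31 := chi31_93 c
  have h315 : (3 : ℕ) ^ 15 + 1 = 31 * 462868 := by norm_num
  have hinv : ∀ n : ℕ, (c.χ ^ n).ringHomComp (sO 15) = (c.χ ^ n)⁻¹ := by
    intro n
    have h1 : (c.χ ^ n)⁻¹ = (c.χ ^ n) ^ 3 ^ 15 := by
      have h31n : (c.χ ^ n) ^ 31 = 1 := by rw [← pow_mul, mul_comm, pow_mul, h31, one_pow]
      generalize c.χ ^ n = ψ at h31n
      have h2 : ψ ^ (3 ^ 15) * ψ = 1 := by
        rw [← pow_succ, h315, pow_mul, h31n, one_pow]
      exact inv_eq_of_mul_eq_one_left h2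
    rw [h1]
    ext a
    rw [MulChar.ringHomComp_apply, MulChar.pow_apply_coe, MulChar.pow_apply_coe,
      MulChar.pow_apply_coe, map_pow, sO_chi93]
    rw [← pow_mul, ← pow_mul, mul_comm]
  have h1 : sO 15 c.J = jacobiSum c.χ⁻¹ (c.χ ^ 6)⁻¹ := by
    have hJ : c.J = jacobiSum c.χ (c.χ ^ 6) := rfl
    have h3 := hinv 1
    rw [pow_one] at h3
    rw [hJ, ← jacobiSum_ringHomComp c.χ (c.χ ^ 6) (sO 15), hinv 6, h3]
  have hne6 : c.χ ^ 6 ≠ 1 := by
    intro h6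
    apply c.ne
    have h2 : c.χ ^ 156 = 1 := by
      rw [show 156 = 6 * 26 from rfl, pow_mul, h6, one_pow]
    have h3 : c.χ ^ 156 = c.χ := by
      rw [show 156 = 31 * 5 + 1 from rfl, pow_add, pow_mul, h31, one_pow, one_mul, pow_one]
    rw [← h3, h2]
  have hne7 : c.χ * c.χ ^ 6 ≠ 1 := by
    intro h7
    apply c.ne
    have h2 : c.χ ^ 63 = 1 := by
      rw [show 63 = (1 + 6) * 9 from rfl, pow_mul, pow_add, pow_one, h7, one_pow]
    have h3 : c.χ ^ 63 = c.χ := by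
      rw [show 63 = 31 * 2 + 1 from rfl, pow_add, pow_mul, h31, one_pow, one_mul, pow_one]
    rw [← h3, h2]
  have hinj : Function.Injective (algebraMap (𝓞 K) K) := RingOfIntegers.coe_injective
  -- to the field
  have hcomp : ∀ ψ : MulChar (ZMod c.p) (𝓞 K), ψ ≠ 1 → ψ.ringHomComp (algebraMap (𝓞 K) K) ≠ 1 := by
    intro ψ hψ
    exact (MulChar.ringHomComp_ne_one_iff hinj).mpr hψ
  have hinvc : ∀ ψ : MulChar (ZMod c.p) (𝓞 K), (ψ⁻¹).ringHomComp (algebraMap (𝓞 K) K) =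
      (ψ.ringHomComp (algebraMap (𝓞 K) K))⁻¹ := by
    intro ψ
    exact (MulChar.ringHomComp_inv ψ (algebraMap (𝓞 K) K)).symm
  have hmulc : c.χ.ringHomComp (algebraMap (𝓞 K) K) * (c.χ ^ 6).ringHomComp (algebraMap (𝓞 K) K) ≠ 1 := by
    rw [← MulChar.ringHomComp_mul]
    exact hcomp _ hne7
  have hchar : ringChar K ≠ ringChar (ZMod c.p) := by
    rw [ringChar.eq_zero, ZMod.ringChar_zmod_n]
    exact c.hp.out.ne_zero.symm
  have key := jacobiSum_mul_jacobiSum_inv hchar (hcomp _ c.ne) (hcomp _ hne6) hmulc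
  rw [← hinvc, ← hinvc, jacobiSum_ringHomComp, jacobiSum_ringHomComp, ← map_mul, ← h1] at key
  apply hinj
  rw [ZMod.card] at key
  rw [map_natCast]
  exact key

end Pool.Agent.Helper2.E8A
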