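import Pool.Agent.Helper2.E8A.Jb

/-!
# Block E8A-JC: the divisor of the Jacobi sum

Let `c : Cd v`, `J = c.J`. `dv J ≥ 0` and `dv J + dv (σ ^ 15 J) = dv p` (`jac_abs`), which is `1` at the primes over `p` (`dv_prime`) and
`0` elsewhere. The primes over `p` are the `sV^[i] v`, `i < 30` (the Galois group is transitive on the primes over `p`,
`aut_eq`), and they are different: if `sV^[i] v = v`, `0 < i < 30`, then `σ ^ i` acts on `𝓞 K / v`, which has `p` elements, hence trivially: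
`ζ ^ 3 ^ i - ζ ∈ v`, but `ρ ζ` has order `31` and `3 ^ i ≢ 1` modulo `31`. For the exponents `i` of `θ` and `j = (30 - i) mod 30` one has
`3 ^ j % 31 + 6 * 3 ^ j % 31 < 31` (`decide`), so `σ ^ j J ∈ v` (`jac_mem`), `J ∈ sV^[i] v`, `dv J (sV^[i] v) ≥ 1`. Exactly one of `i`, `i + 15`
(modulo `30`) is an exponent of `θ`, and `dv (σ ^ 15 J) w = dv J (sV^[15] w)`, so `dv J (sV^[i] v) = 1` for the exponents of `θ` and `0` for the
others. So `dv J = aeval T θ [v]`.
-/

set_option autoImplicit false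

namespace Pool.Agent.Helper2.E8A

open NumberField Polynomial IsDedekindDomain nonZeroDivisors

/-- The exponents of `θ`. -/
def expθ : Finset ℕ := {0, 1, 2, 5, 6, 7, 11, 12, 13, 18, 19, 23, 24, 25, 29}

theorem aeval_θ (a : D) : aeval T θ a = ∑ i ∈ expθ, (T ^ i) a := by
  have h : θ = ∑ i ∈ expθ, (X : ℤ[X]) ^ i := by
    simp [θ, expθ]
    ring
  rw [h, map_sum, LinearMap.sum_apply]
  refine Finset.sum_congr rfl fun i _ => ?_
  rw [map_pow, aeval_X]

private theorem T_pow_single44 (n : ℕ) (v : V) (a : ℤ) :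
    (T ^ n) (Finsupp.single v a) = Finsupp.single ((sV^[n]) v) a := by
  induction n with
  | zero => rfl
  | succ n ih =>
    rw [pow_succ', Module.End.mul_apply, ih, T_single, Function.iterate_succ_apply']

private theorem eO_iter_natCast44 (n k : ℕ) : (eO^[n]) ((k : ℕ) : 𝓞 K) = ((k : ℕ) : 𝓞 K) := by
  induction n with
  | zero => rfl
  | succ n ih => rw [Function.iterate_succ_apply', ih, map_natCast]

private theorem eO_iter_eq44 (n : ℕ) (x : 𝓞 K) : (eO^[n]) x = sO n x := by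
  apply RingOfIntegers.ext
  rw [eO_iter, sO_coe]

private theorem sO_sO44 {i j : ℕ} (h : i + j = 30 ∨ i + j = 0) (x : 𝓞 K) : sO i (sO j x) = x := by
  apply RingOfIntegers.ext
  rw [sO_coe, sO_coe, ← AlgEquiv.mul_apply, ← pow_add]
  rcases h with h | h
  · rw [h, σ30, AlgEquiv.one_apply]
  · rw [h, pow_zero, AlgEquiv.one_apply]

private theorem sO_surj44 (i : ℕ) (hi : i < 30) : Function.Surjective (sO i) := by
  intro x
  refine ⟨sO (30 - i) x, ?_⟩
  apply sO_sO44
  left
  omega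

private theorem sO_z44 (i : ℕ) : sO i hζ.toInteger = hζ.toInteger ^ 3 ^ i := by
  apply RingOfIntegers.coe_injective
  rw [map_pow]
  exact σ_pow_ζ i

/-- The Galois group acts transitively on the primes over `p`. -/
private theorem trans44 {p : ℕ} (hp : p.Prime) {v w : V} (hv : (p : 𝓞 K) ∈ v.asIdeal)
    (hw : (p : 𝓞 K) ∈ w.asIdeal) : ∃ i < 30, w = (sV^[i]) v := by
  have hover : ∀ u : V, (p : 𝓞 K) ∈ u.asIdeal →
      u.asIdeal ∈ Ideal.primesOver (Ideal.span {(p : ℤ)}) (𝓞 K) := by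
    intro u hu
    refine ⟨u.isPrime, ?_⟩
    exact (Ideal.liesOver_span_iff u.isPrime.ne_top (Nat.prime_iff_prime_int.mp hp)).mpr
      (by simpa using hu)
  have : IsGalois ℚ K := IsCyclotomicExtension.isGalois {31} ℚ K
  obtain ⟨τ, hτ⟩ := Ideal.exists_comap_galRestrict_eq ℤ ℚ K (𝓞 K) (hover w hw) (hover v hv)
  obtain ⟨i, hi, rfl⟩ := aut_eq τ
  refine ⟨i, hi, ?_⟩
  apply HeightOneSpectrum.ext
  ext y
  obtain ⟨x, rfl⟩ := sO_surj44 i hi y
  have h1 : sO i x ∈ ((sV^[i]) v).asIdeal ↔ x ∈ v.asIdeal := by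
    rw [← eO_iter_eq44]
    exact mem_sV_iter i v x
  rw [h1, ← hτ, Ideal.mem_comap]
  have h2 : (galRestrict ℤ ℚ K (𝓞 K)) (σ ^ i) x = sO i x := by
    apply RingOfIntegers.ext
    rw [sO_coe]
    exact algebraMap_galRestrict_apply ℤ (σ ^ i) x
  rw [h2]

/-- The primes `sV^[i] v` are different. -/
private theorem free44 {v : V} (c : Cd v) (hv : v ≠ P0) {i : ℕ} (hi : i < 30)
    (h : (sV^[i]) v = v) : i = 0 := by
  have := c.hp
  have hz1 : c.ρ hζ.toInteger ≠ 1 := by
    intro h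
    apply zeta_sub_one_notMem v hv
    rw [← c.ker, map_sub, map_one, h, sub_self]
  have hz31 : (c.ρ hζ.toInteger) ^ 31 = 1 := by
    rw [← map_pow, hζ.toInteger_isPrimitiveRoot.pow_eq_one, map_one]
  have ho : orderOf (c.ρ hζ.toInteger) = 31 := orderOf_eq_prime hz31 hz1
  set a : ℕ := (c.ρ hζ.toInteger).val with ha
  have hac : ((a : ℕ) : ZMod c.p) = c.ρ hζ.toInteger := by
    rw [ha, ZMod.natCast_val, ZMod.cast_id', id]
  have h1 : hζ.toInteger - (a : 𝓞 K) ∈ v.asIdeal := by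
    rw [← c.ker, map_sub, map_natCast, hac, sub_self]
  have h2 : sO i (hζ.toInteger - (a : 𝓞 K)) ∈ v.asIdeal := by
    have h3 := (mem_sV_iter i v (hζ.toInteger - (a : 𝓞 K))).mpr h1
    rw [h, eO_iter_eq44] at h3
    exact h3
  rw [map_sub, map_natCast, sO_z44, ← c.ker, map_sub, map_natCast, hac, map_pow, sub_eq_zero] at h2
  have h3 : c.ρ hζ.toInteger ^ 3 ^ i = c.ρ hζ.toInteger ^ 1 := by rw [h2, pow_one]
  have hz0 : c.ρ hζ.toInteger ≠ 0 := by
    intro h0
    rw [h0, zero_pow (by norm_num)] at hz31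
    exact zero_ne_one hz31
  have h4 : 3 ^ i % 31 = 1 % 31 := by
    have h5 := (pow_inj_mod (x := Units.mk0 _ hz0) (n := 3 ^ i) (m := 1))
    have h6 : orderOf (Units.mk0 _ hz0) = 31 := by
      rw [← orderOf_units, Units.val_mk0, ho]
    have h7 : (Units.mk0 _ hz0) ^ 3 ^ i = (Units.mk0 _ hz0) ^ 1 := by
      apply Units.ext
      rw [Units.val_pow_eq_pow_val, Units.val_pow_eq_pow_val, Units.val_mk0, h3]
    have h8 := pow_eq_pow_iff_modEq.mp h7
    rw [h6] at h8
    exact h8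
  have key : ∀ i : ℕ, i < 30 → 3 ^ i % 31 = 1 % 31 → i = 0 := by decide +kernel
  exact key i hi h4

private theorem inj44 {v : V} (c : Cd v) (hv : v ≠ P0) {i j : ℕ} (hi : i < 30) (hj : j < 30)
    (h : (sV^[i]) v = (sV^[j]) v) : i = j := by
  wlog hij : i ≤ j generalizing i j
  · exact (this hj hi h.symm (by omega)).symm
  obtain ⟨k, rfl⟩ := Nat.exists_eq_add_of_le hij
  rw [Function.iterate_add_apply] at h
  have h1 := (sV.injective.iterate i) h
  have h2 := free44 c hv (i := k) (by omega) h1.symm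
  omega

theorem jac (v : V) (hv : Dg1 v) : ∃ y : Additive Kˣ, dv y = aeval T θ (Finsupp.single v 1) := by
  obtain ⟨c⟩ := exists_cd v hv
  have hvP := hv.2
  have := c.hp
  have hpp : ((c.p : 𝓞 K) : K) = (c.p : K) := by simp
  have hpK : ((c.p : 𝓞 K) : K) ≠ 0 := by
    rw [hpp]
    exact_mod_cast c.hp.out.ne_zero
  have hJ0 : (c.J : K) ≠ 0 := by
    intro h0
    apply hpK
    have h1 := congrArg (fun x : 𝓞 K => (x : K)) (jac_abs c)
    simp only [map_mul, h0, zero_mul] at h1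
    exact h1.symm
  set y : Additive Kˣ := Additive.ofMul (Units.mk0 (c.J : K) hJ0) with hy
  set q : Additive Kˣ := Additive.ofMul (Units.mk0 ((c.p : 𝓞 K) : K) hpK) with hq
  have hyq : y + (S ^ 15) y = q := by
    apply Additive.toMul.injective
    apply Units.ext
    rw [toMul_add, Units.val_mul, S_pow_toMul]
    have h1 := congrArg (fun x : 𝓞 K => (x : K)) (jac_abs c)
    simp only [map_mul, sO_coe] at h1
    have h2 : (y.toMul : K) = (c.J : K) := rfl
    have h3 : (q.toMul : K) = ((c.p : 𝓞 K) : K) := rfl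
    rw [h2, h3]
    exact h1
  have hyJ : ((c.J : 𝓞 K) : K) = (y.toMul : K) := rfl
  have hqp : ((c.p : 𝓞 K) : K) = (q.toMul : K) := rfl
  have hnn : ∀ w, 0 ≤ dv y w := dv_nonneg hyJ
  have hsum : ∀ w, dv y w + dv y ((sV^[15]) w) = dv q w := by
    intro w
    have h1 : dv y w + dv ((S ^ 15) y) w = dv q w := by
      rw [← hyq, map_add, Finsupp.add_apply]
    have h2 : dv ((S ^ 15) y) w = dv y ((sV^[15]) w) := by
      rw [dv_S_pow]
      have h3 := T_pow_apply 15 (dv y) ((sV^[15]) w)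
      rw [← Function.iterate_add_apply, show 15 + 15 = 30 from rfl, sV30] at h3
      exact h3
    rw [← h2, h1]
  have hpv : (c.p : 𝓞 K) ∈ v.asIdeal := by
    rw [← c.ker, map_natCast, ZMod.natCast_self]
  have hpi : ∀ i, (c.p : 𝓞 K) ∈ ((sV^[i]) v).asIdeal := by
    intro i
    have h1 := (mem_sV_iter i v (c.p : 𝓞 K)).mpr hpv
    rwa [eO_iter_natCast44] at h1
  have hq1 : ∀ i, dv q ((sV^[i]) v) = 1 := by
    intro i
    refine dv_prime c.hp.out c.h31 ?_ _ (hpi i)
    rw [← hqp, hpp]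
  have hJi : ∀ i ∈ expθ, 0 < dv y ((sV^[i]) v) := by
    intro i hi
    rw [dv_pos_iff hyJ]
    have hd : ∀ i ∈ expθ, (i < 30 ∧ (i + (30 - i) % 30 = 30 ∨ i + (30 - i) % 30 = 0)) ∧
        3 ^ ((30 - i) % 30) % 31 + 6 * 3 ^ ((30 - i) % 30) % 31 < 31 := by
      unfold expθ
      decide +kernel
    obtain ⟨⟨_, h1⟩, h2⟩ := hd i hi
    have h3 := jac_mem c _ h2
    have h4 := (mem_sV_iter i v _).mpr h3
    rw [eO_iter_eq44, sO_sO44 h1] at h4
    exact h4
  have hlt : ∀ i ∈ expθ, i < 30 := by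
    unfold expθ
    decide
  have hval : ∀ i ∈ expθ, dv y ((sV^[i]) v) = 1 := by
    intro i hi
    have h1 := hJi i hi
    have h2 := hsum ((sV^[i]) v)
    have h3 := hnn ((sV^[15]) ((sV^[i]) v))
    rw [hq1] at h2
    omega
  have hval0 : ∀ i < 30, i ∉ expθ → dv y ((sV^[i]) v) = 0 := by
    intro i hi hi2
    have hd : ∀ i < 30, i ∉ expθ → (i + 15) % 30 ∈ expθ := by
      unfold expθ
      decide
    have h1 := hval _ (hd i hi hi2)
    have h2 := hsum ((sV^[i]) v)
    have h3 : (sV^[(i + 15) % 30]) v = (sV^[15]) ((sV^[i]) v) := by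
      rw [← Function.iterate_add_apply]
      rcases Nat.lt_or_ge (i + 15) 30 with h | h
      · rw [Nat.mod_eq_of_lt h, Nat.add_comm]
      · obtain ⟨k, hk⟩ := Nat.exists_eq_add_of_le h
        have hk2 : (i + 15) % 30 = k := by omega
        rw [hk2, Nat.add_comm 15 i, hk, Nat.add_comm 30 k, Function.iterate_add_apply, sV30]
    rw [h3] at h1
    rw [hq1] at h2
    omega
  refine ⟨y, ?_⟩
  rw [aeval_θ]
  ext w
  rw [Finsupp.finsetSum_apply]
  simp only [T_pow_single44]
  classical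
  by_cases hw : (c.p : 𝓞 K) ∈ w.asIdeal
  · obtain ⟨j, hj, rfl⟩ := trans44 c.hp.out hpv hw
    by_cases hjθ : j ∈ expθ
    · rw [hval j hjθ, Finset.sum_eq_single j]
      · rw [Finsupp.single_eq_same]
      · intro i hi hij
        rw [Finsupp.single_apply, if_neg]
        intro h
        exact hij (inj44 c hvP (hlt i hi) hj h)
      · intro h
        exact absurd hjθ h
    · rw [hval0 j hj hjθ, Finset.sum_eq_zero]
      intro i hi
      rw [Finsupp.single_apply, if_neg]
      intro h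
      have := inj44 c hvP (hlt i hi) hj h
      exact hjθ (this ▸ hi)
  · rw [Finset.sum_eq_zero]
    · have h1 : dv q w = 0 := by
        have h2 := dv_nonneg hqp w
        have h3 := (dv_pos_iff hqp w).not.mpr hw
        omega
      have h2 := hsum w
      have h3 := hnn w
      have h4 := hnn ((sV^[15]) w)
      omega
    · intro i _
      rw [Finsupp.single_apply, if_neg]
      intro h
      exact hw (h ▸ hpi i)

end Pool.Agent.Helper2.E8A
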