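import Pool.Agent.Helper2.E8A.KpA0

/-!
# Block E8A-KPA: Minkowski bound for the real subfield

`Kp = maximalRealSubfield K`. `[K : Kp] = 2` (`IsCMField`), so `[Kp : ℚ] = 15`; `Kp` is totally real; `ℚ ⊆ Kp` is Galois (a
subfield of an abelian extension). Discriminant: `natAbs_discr_eq_absNorm_differentIdeal_mul_natAbs_discr_pow Kp (𝓞 Kp) K (𝓞 K)`:
`|disc Kp| ^ 2` divides `|disc K| = 31 ^ 29` (`IsCyclotomicExtension.Rat.absdiscr_prime` or `discr_prime`), so `|disc Kp| ≤ 31 ^ 14`, and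
the Minkowski bound is at most `(15! / 15 ^ 15) * 31 ^ 7 < 82161`. Then
`isPrincipalIdealRing_of_isPrincipal_of_lt_or_isPrincipal_of_mem_primesOver_of_mem_Icc` (`NumberTheory/NumberField/ClassNumber.lean`).
-/

set_option autoImplicit false

namespace Pool.Agent.Helper2.E8A

open NumberField Polynomial IsDedekindDomain nonZeroDivisors

private theorem gal_Kp : IsGalois ℚ Kp := by
  have h1 : IsAbelianGalois ℚ K := IsCyclotomicExtension.isAbelianGalois {31} ℚ K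
  exact (IsAbelianGalois.tower_bot ℚ Kp K).toIsGalois

private theorem discr_K : (discr K).natAbs = 31 ^ 29 := by
  rw [IsCyclotomicExtension.Rat.discr_prime 31 K, Int.natAbs_mul, Int.natAbs_pow]
  norm_num

private theorem discr_Kp : (discr Kp).natAbs ≤ 31 ^ 14 := by
  have h1 := natAbs_discr_eq_absNorm_differentIdeal_mul_natAbs_discr_pow Kp (𝓞 Kp) K (𝓞 K)
  have h2 : Module.finrank Kp K = 2 := (cmK.is_quadratic).finrank_eq_two
  rw [h2, discr_K] at h1
  have h3 : (discr Kp).natAbs ^ 2 ∣ 31 ^ 29 := ⟨_, by rw [h1, mul_comm]⟩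
  obtain ⟨j, hj, hd⟩ := (Nat.dvd_prime_pow fact31.out).mp
    ((dvd_pow_self _ (by norm_num : (2 : ℕ) ≠ 0)).trans h3)
  rw [hd, ← pow_mul] at h3
  have h4 : j * 2 ≤ 29 := (Nat.pow_dvd_pow_iff_le_right (by norm_num)).mp h3
  rw [hd]
  exact Nat.pow_le_pow_right (by norm_num) (by omega)

/-- It suffices to find for every small `p` one prime ideal over `p` which is principal or has a large norm. -/
theorem kp_reduce (h : ∀ p : ℕ, p.Prime → p ≤ 82160 → ∃ P ∈ Ideal.primesOver (Ideal.span {(p : ℤ)}) (𝓞 Kp),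
    82160 < p ^ Ideal.inertiaDeg P ℤ ∨ Submodule.IsPrincipal P) : IsPrincipalIdealRing (𝓞 Kp) := by
  have hg : IsGalois ℚ Kp := gal_Kp
  have hfl : ⌊(4 / Real.pi) ^ InfinitePlace.nrComplexPlaces Kp *
      ((Module.finrank ℚ Kp).factorial / (Module.finrank ℚ Kp : ℝ) ^ Module.finrank ℚ Kp *
        √|(discr Kp : ℝ)|)⌋₊ ≤ 82160 := by
    rw [IsTotallyReal.nrComplexPlaces_eq_zero, finrank_Kp, pow_zero, one_mul]
    have h1 : |((discr Kp : ℤ) : ℝ)| ≤ (31 ^ 7) ^ 2 := by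
      have h2 : |((discr Kp : ℤ) : ℝ)| = (((discr Kp).natAbs : ℕ) : ℝ) := by
        rw [Nat.cast_natAbs, Int.cast_abs]
      rw [h2]
      have h3 : (((discr Kp).natAbs : ℕ) : ℝ) ≤ ((31 ^ 14 : ℕ) : ℝ) := by exact_mod_cast discr_Kp
      refine h3.trans ?_
      norm_num
    have h4 : √|((discr Kp : ℤ) : ℝ)| ≤ 31 ^ 7 := Real.sqrt_le_iff.mpr ⟨by norm_num, h1⟩
    have h5 : ((Nat.factorial 15 : ℕ) : ℝ) / ((15 : ℕ) : ℝ) ^ 15 * √|((discr Kp : ℤ) : ℝ)| <
        82161 := by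
      calc ((Nat.factorial 15 : ℕ) : ℝ) / ((15 : ℕ) : ℝ) ^ 15 * √|((discr Kp : ℤ) : ℝ)|
          ≤ ((Nat.factorial 15 : ℕ) : ℝ) / ((15 : ℕ) : ℝ) ^ 15 * 31 ^ 7 :=
            mul_le_mul_of_nonneg_left h4 (by positivity)
        _ < 82161 := by
            norm_num [Nat.factorial]
    have h6 := (Nat.floor_lt' (by norm_num : (82161 : ℕ) ≠ 0)).mpr
      (by exact_mod_cast h5 : ((Nat.factorial 15 : ℕ) : ℝ) / ((15 : ℕ) : ℝ) ^ 15 *
        √|((discr Kp : ℤ) : ℝ)| < ((82161 : ℕ) : ℝ))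
    omega
  apply RingOfIntegers.isPrincipalIdealRing_of_isPrincipal_of_lt_or_isPrincipal_of_mem_primesOver_of_mem_Icc
  intro p hp hpp
  obtain ⟨P, hP, hor⟩ := h p hpp ((Finset.mem_Icc.mp hp).2.trans hfl)
  refine ⟨P, hP, ?_⟩
  rcases hor with h1 | h1
  · left
    exact lt_of_le_of_lt hfl h1
  · right
    exact h1

end Pool.Agent.Helper2.E8A
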