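import Pool.Agent.Helper2.E8A.Sig

/-!
# Block E8A-KPA0: the real subfield

`Kp = maximalRealSubfield K`. `[K : Kp] = 2` (`IsCMField`), so `[Kp : ℚ] = 15`. `mem_Kp`: complex conjugation is `σ ^ 15`
(`conj_emb`).
-/

set_option autoImplicit false

namespace Pool.Agent.Helper2.E8A

open NumberField Polynomial IsDedekindDomain nonZeroDivisors

/-- The maximal real subfield. -/
noncomputable abbrev Kp : Subfield K := maximalRealSubfield K

theorem finrank_Kp : Module.finrank ℚ Kp = 15 := by
  have h1 : Module.finrank ℚ K = 30 := by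
    rw [IsCyclotomicExtension.finrank (n := 31) K (cyclotomic.irreducible_rat (by norm_num)),
      Nat.totient_prime fact31.out]
  have h2 : Module.finrank Kp K = 2 :=
    (cmK.is_quadratic).finrank_eq_two
  have h3 : Module.finrank ℚ Kp * Module.finrank Kp K = Module.finrank ℚ K :=
    Module.finrank_mul_finrank ℚ Kp K
  rw [h1, h2] at h3
  omega

theorem mem_Kp (x : K) : x ∈ Kp ↔ Rl x := by
  have key : ∀ φ : K →+* ℂ, star (φ x) = φ ((σ ^ 15) x) := fun φ => conj_emb φ x
  unfold Rl
  generalize (σ ^ 15) x = y at key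
  constructor
  · intro h
    obtain ⟨φ⟩ : Nonempty (K →+* ℂ) := inferInstance
    have h1 : star (φ x) = φ x := h φ
    exact φ.injective ((key φ).symm.trans h1)
  · intro h φ
    exact (key φ).trans (congrArg φ h)

end Pool.Agent.Helper2.E8A
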