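import Pool.Agent.Helper2.E8A.KpA

/-!
# Block E8A-KPB: inertia degrees in the real subfield

Let `P` be a prime of `𝓞 Kp` over `p ≠ 31` and `Q` a prime of `𝓞 K` over `P`. The inertia degree of `Q` over `ℤ` is the order `o` of
`p` modulo `31` (`IsCyclotomicExtension.Rat.inertiaDeg_eq_of_not_dvd`), and `o = f (P) * f (Q / P)` (`Ideal.inertiaDeg_algebra_tower`)
with `f (Q / P) ≤ [K : Kp] = 2`. So `f (P) = o` or `2 f (P) = o`, and `f (P) = o` if `o` is odd.

`kp_inert_big`: for the primes `p ≤ 82160` different from `2, 5, 31, 37` with `p mod 31 ≠ 1, 30` one has `82160 < p ^ f (P)`: the order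
`o` of `p` modulo `31` is a divisor of `30`, `o ≥ 3`; `o = 3` (`p ≡ 5, 25`): `f = 3`, `p ≥ 44` unless `p = 5`; `o = 5` (`p ≡ 2, 4, 8, 16`): `f = 5`,
`p ≥ 10` unless `p = 2`; `o = 6` (`p ≡ 6, 26`): `f ≥ 3`, `p ≥ 44` unless `p = 37`; `o = 10` (`p ≡ 15, 23, 27, 29`): `f ≥ 5`, `p ≥ 10`;
`o = 15, 30`: `f ≥ 15`, `p ≥ 3`, `3 ^ 15 > 82160`.
-/

set_option autoImplicit false

namespace Pool.Agent.Helper2.E8A

open NumberField Polynomial IsDedekindDomain nonZeroDivisors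

theorem kp_inert {p : ℕ} (hp : p.Prime) (h31 : p ≠ 31) (P : Ideal (𝓞 Kp))
    (hP : P ∈ Ideal.primesOver (Ideal.span {(p : ℤ)}) (𝓞 Kp)) :
    Ideal.inertiaDeg P ℤ = orderOf (p : ZMod 31) ∨ 2 * Ideal.inertiaDeg P ℤ = orderOf (p : ZMod 31) := by
  have hfp : Fact p.Prime := ⟨hp⟩
  have hPp : P.IsPrime := hP.1
  have hPo : P.LiesOver (Ideal.span {(p : ℤ)}) := hP.2
  have hp0 : (Ideal.span {(p : ℤ)}) ≠ ⊥ := by
    rw [Ne, Ideal.span_singleton_eq_bot]
    exact_mod_cast hp.ne_zero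
  have hP0 : P ≠ ⊥ := Ideal.ne_bot_of_liesOver_of_ne_bot hp0 P
  have hPm : P.IsMaximal := hPp.isMaximal hP0
  obtain ⟨⟨Q, hQp, hQo⟩⟩ := P.nonempty_primesOver (S := 𝓞 K)
  have hQZ : Q.LiesOver (Ideal.span {(p : ℤ)}) := Ideal.LiesOver.trans Q P _
  have h1 : Q.inertiaDeg ℤ = orderOf (p : ZMod 31) :=
    IsCyclotomicExtension.Rat.inertiaDeg_eq_of_not_dvd p K Q
      (fun h => h31 ((Nat.prime_dvd_prime_iff_eq hp fact31.out).1 h))
  have h2 : Q.inertiaDeg ℤ = P.inertiaDeg ℤ * Q.inertiaDeg (𝓞 Kp) :=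
    Ideal.inertiaDeg_tower P Q
  have h3 : 0 < Q.inertiaDeg (𝓞 Kp) := Ideal.inertiaDeg_pos Q (𝓞 Kp)
  have hQ0 : Q ≠ ⊥ := Ideal.ne_bot_of_liesOver_of_ne_bot hP0 Q
  have hQm : Q.IsMaximal := hQp.isMaximal hQ0
  have h4 : Q.inertiaDeg (𝓞 Kp) ≤ 2 := by
    have h5 : Module.finrank Kp K = 2 := (cmK.is_quadratic).finrank_eq_two
    have hnz : NoZeroSMulDivisors (𝓞 Kp) (𝓞 K) := ⟨fun {c x} h => smul_eq_zero.1 h⟩
    set_option linter.deprecated false in
    have h6 := Ideal.inertiaDeg_le_finrank (R := 𝓞 Kp) (S := 𝓞 K) Kp K (p := P) Q hP0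
    rw [h5, Ideal.inertiaDeg'_eq_inertiaDeg] at h6
    exact h6
  rw [h1] at h2
  rcases (by omega : Q.inertiaDeg (𝓞 Kp) = 1 ∨ Q.inertiaDeg (𝓞 Kp) = 2) with h7 | h7
  · left
    rw [h2, h7, mul_one]
  · right
    rw [h2, h7, mul_comm]

private theorem res_47 (p : ℕ) (n : ℕ) (h : (p : ZMod 31) ^ n = 1) :
    (((p % 31 : ℕ) : ZMod 31)) ^ n = 1 := by
  rw [ZMod.natCast_mod]
  exact h

theorem kp_inert_big {p : ℕ} (hp : p.Prime) (hB : p ≤ 82160) (h2 : p ≠ 2) (h5 : p ≠ 5) (h31 : p ≠ 31)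
    (h37 : p ≠ 37) (h1 : p % 31 ≠ 1) (h30 : p % 31 ≠ 30) (P : Ideal (𝓞 Kp))
    (hP : P ∈ Ideal.primesOver (Ideal.span {(p : ℤ)}) (𝓞 Kp)) : 82160 < p ^ Ideal.inertiaDeg P ℤ := by
  have hi := kp_inert hp h31 P hP
  generalize Ideal.inertiaDeg P ℤ = f at hi
  have hp0 : (p : ZMod 31) ≠ 0 := by
    intro h
    rw [ZMod.natCast_eq_zero_iff] at h
    exact h31 ((Nat.prime_dvd_prime_iff_eq fact31.out hp).1 h).symm
  have ho : orderOf (p : ZMod 31) ∣ 30 := by
    apply orderOf_dvd_of_pow_eq_one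
    exact ZMod.pow_card_sub_one_eq_one hp0
  have hpow := pow_orderOf_eq_one (p : ZMod 31)
  generalize orderOf (p : ZMod 31) = o at hi ho hpow
  have hp3 : 3 ≤ p := by
    have := hp.two_le
    omega
  have hlt : p % 31 < 31 := Nat.mod_lt _ (by norm_num)
  have key : ∀ a b : ℕ, a ≤ p → b ≤ f → 82160 < a ^ b → 82160 < p ^ f := by
    intro a b ha hb hab
    calc 82160 < a ^ b := hab
      _ ≤ p ^ b := Nat.pow_le_pow_left ha b
      _ ≤ p ^ f := Nat.pow_le_pow_right (by omega) hb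
  have ho2 : o ∈ Nat.divisors 30 := Nat.mem_divisors.2 ⟨ho, by norm_num⟩
  have hd : Nat.divisors 30 = {1, 2, 3, 5, 6, 10, 15, 30} := by decide
  rw [hd] at ho2
  simp only [Finset.mem_insert, Finset.mem_singleton] at ho2
  have c12 : ¬ (p : ZMod 31) ^ 2 = 1 := by
    intro h
    have h' := res_47 p 2 h
    generalize p % 31 = r at *
    interval_cases r <;> first | exact h1 rfl | exact h30 rfl | (revert h'; decide)
  have c6 : (p : ZMod 31) ^ 6 = 1 → 44 ≤ p := by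
    intro h
    by_contra hlt2
    push Not at hlt2
    clear hB key c12 hlt hP
    interval_cases p
    all_goals first | (exfalso; revert hp; norm_num; done) | omega | (exfalso; revert h; decide)
  have c10 : (p : ZMod 31) ^ 10 = 1 → 10 ≤ p := by
    intro h
    by_contra hlt2
    push Not at hlt2
    clear hB key c12 c6 hlt hP
    interval_cases p
    all_goals first | (exfalso; revert hp; norm_num; done) | omega | (exfalso; revert h; decide)
  rcases ho2 with rfl | rfl | rfl | rfl | rfl | rfl | rfl | rfl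
  · refine absurd ?_ c12
    rw [pow_one] at hpow
    rw [hpow, one_pow]
  · exact absurd hpow c12
  · refine key 44 3 (c6 ?_) (by omega) (by norm_num)
    have : (p : ZMod 31) ^ 6 = ((p : ZMod 31) ^ 3) ^ 2 := by ring
    rw [this, hpow, one_pow]
  · refine key 10 5 (c10 ?_) (by omega) (by norm_num)
    have : (p : ZMod 31) ^ 10 = ((p : ZMod 31) ^ 5) ^ 2 := by ring
    rw [this, hpow, one_pow]
  · exact key 44 3 (c6 hpow) (by omega) (by norm_num)
  · exact key 10 5 (c10 hpow) (by omega) (by norm_num)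
  · exact key 3 15 hp3 (by omega) (by norm_num)
  · exact key 3 15 hp3 (by omega) (by norm_num)

theorem kp_inert_2 (P : Ideal (𝓞 Kp)) (hP : P ∈ Ideal.primesOver (Ideal.span {((2 : ℕ) : ℤ)}) (𝓞 Kp)) :
    Ideal.inertiaDeg P ℤ = 5 := by
  have h := kp_inert Nat.prime_two (by norm_num) P hP
  have ho : orderOf ((2 : ℕ) : ZMod 31) = 5 := by
    have : Fact (Nat.Prime 5) := ⟨by norm_num⟩
    exact orderOf_eq_prime (by decide) (by decide)
  rw [ho] at h
  omega

theorem kp_inert_5 (P : Ideal (𝓞 Kp)) (hP : P ∈ Ideal.primesOver (Ideal.span {((5 : ℕ) : ℤ)}) (𝓞 Kp)) :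
    Ideal.inertiaDeg P ℤ = 3 := by
  have h := kp_inert (by norm_num : Nat.Prime 5) (by norm_num) P hP
  have ho : orderOf ((5 : ℕ) : ZMod 31) = 3 := by
    have : Fact (Nat.Prime 3) := ⟨by norm_num⟩
    exact orderOf_eq_prime (by decide) (by decide)
  rw [ho] at h
  omega

theorem kp_inert_37 (P : Ideal (𝓞 Kp)) (hP : P ∈ Ideal.primesOver (Ideal.span {((37 : ℕ) : ℤ)}) (𝓞 Kp)) :
    3 ≤ Ideal.inertiaDeg P ℤ := by
  have h := kp_inert (by norm_num : Nat.Prime 37) (by norm_num) P hP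
  generalize Ideal.inertiaDeg P ℤ = f at h
  by_contra hlt
  have h4 : orderOf ((37 : ℕ) : ZMod 31) ∣ 4 := by
    have hf : f = 0 ∨ f = 1 ∨ f = 2 := by omega
    have hpos : 0 < orderOf ((37 : ℕ) : ZMod 31) := by
      rw [orderOf_pos_iff, isOfFinOrder_iff_pow_eq_one]
      exact ⟨30, by norm_num, by decide⟩
    rcases hf with rfl | rfl | rfl <;> rcases h with h | h
    · omega
    · omega
    · rw [← h]; norm_num
    · rw [← h]; norm_num
    · rw [← h]; norm_num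
    · rw [← h]
  have h5 := orderOf_dvd_iff_pow_eq_one.1 h4
  revert h5
  decide

end Pool.Agent.Helper2.E8A
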