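import Pool.Agent.Helper2.E8A.KpA

/-!
# Block E8A-KPC: the ring of integers of the real subfield

`cc n` is `ζ ^ n + ζ ^ (-n)`, an element of `𝓞 Kp`. `cc 1, ..., cc 15` is a `ℤ`-basis of `𝓞 Kp`: the ring `𝓞 K` is `ℤ[ζ]` with the
`ℤ`-basis `ζ ^ 1, ..., ζ ^ 30` (`IsCyclotomicExtension.Rat`, `IsPrimitiveRoot.integralPowerBasis` gives `1, ..., ζ ^ 29`; multiply by `ζ`), the
element `∑ b i ζ ^ i` is real iff `b (31 - i) = b i`. `cc n` is an integral polynomial in `cc 1` (`cc (n + 2) = cc 1 * cc (n + 1) - cc n`,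
`cc 0 = 2`), so every element of `𝓞 Kp` is a polynomial in `cc 1` (`1 = - ∑ cc i`).
-/

set_option autoImplicit false

namespace Pool.Agent.Helper2.E8A

open NumberField Polynomial IsDedekindDomain nonZeroDivisors

theorem kpc_z0 : ζ ≠ 0 := hζ.ne_zero (by norm_num)

theorem kpc_z31 : ζ ^ 31 = 1 := hζ.pow_eq_one

theorem kpc_inv (n : ℕ) (h : n ≤ 31) : (ζ ^ n)⁻¹ = ζ ^ (31 - n) := by
  apply inv_eq_of_mul_eq_one_right
  rw [← pow_add, Nat.add_sub_cancel' h, kpc_z31]

theorem kpc_ext {x y : 𝓞 Kp} (h : ((x : Kp) : K) = ((y : Kp) : K)) : x = y :=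
  RingOfIntegers.ext (Subtype.ext h)

theorem kpc_int : IsIntegral ℤ ζ := hζ.isIntegral (by norm_num)

theorem kpc_lift {y : K} (hy : IsIntegral ℤ y) (hr : Rl y) : ∃ x : 𝓞 Kp, ((x : Kp) : K) = y := by
  have hm : y ∈ Kp := (mem_Kp y).2 hr
  have hi : IsIntegral ℤ (⟨y, hm⟩ : Kp) := by
    have h2 : Function.Injective (algebraMap Kp K) := (algebraMap Kp K).injective
    rw [← isIntegral_algebraMap_iff h2]
    exact hy
  exact ⟨⟨⟨y, hm⟩, hi⟩, rfl⟩

theorem kpc_li (b : ℕ → ℤ) (h : ∑ i ∈ Finset.range 30, (b i : K) * ζ ^ i = 0) :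
    ∀ i < 30, b i = 0 := by
  have hc : ∀ n, (∑ i ∈ Finset.range 30, C (b i) * X ^ i : ℤ[X]).coeff n =
      if n < 30 then b n else 0 := by
    intro n
    simp only [finset_sum_coeff, coeff_C_mul, coeff_X_pow]
    rw [Finset.sum_congr rfl (g := fun i => if n = i then b i else 0)]
    · rw [Finset.sum_ite_eq]
      simp only [Finset.mem_range]
    · intro i _
      split_ifs <;> simp
  have h1 : aeval ζ (∑ i ∈ Finset.range 30, C (b i) * X ^ i : ℤ[X]) = 0 := by
    rw [map_sum, ← h]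
    apply Finset.sum_congr rfl
    intro i _
    simp
  have hmin : minpoly ℤ ζ = cyclotomic 31 ℤ := (cyclotomic_eq_minpoly hζ (by norm_num)).symm
  have h2 : minpoly ℤ ζ ∣ (∑ i ∈ Finset.range 30, C (b i) * X ^ i : ℤ[X]) :=
    minpoly.isIntegrallyClosed_dvd kpc_int h1
  rw [hmin] at h2
  have h3 : (∑ i ∈ Finset.range 30, C (b i) * X ^ i : ℤ[X]) = 0 := by
    apply eq_zero_of_dvd_of_degree_lt h2
    rw [degree_cyclotomic, Nat.totient_prime (by norm_num : Nat.Prime 31)]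
    rw [show (((31 - 1 : ℕ) : ℕ) : WithBot ℕ) = ((30 : ℕ) : WithBot ℕ) from rfl,
      degree_lt_iff_coeff_zero]
    intro m hm
    rw [hc, if_neg (by omega)]
  intro i hi
  have h4 := hc i
  rw [h3, coeff_zero, if_pos hi] at h4
  exact h4.symm

theorem kpc_repr (y : K) (hy : IsIntegral ℤ y) :
    ∃ b : ℕ → ℤ, y = ∑ i ∈ Finset.range 30, (b i : K) * ζ ^ (i + 1) := by
  have h1 : IsIntegral ℤ (y * ζ ^ 30) := hy.mul (kpc_int.pow 30)
  obtain ⟨z, hz⟩ :=
    (IsCyclotomicExtension.Rat.isIntegralClosure_adjoin_singleton_of_prime hζ).isIntegral_iff.1 h1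
  have hz2 : y * ζ ^ 30 ∈ Algebra.adjoin ℤ {ζ} := by
    rw [← hz]
    exact z.2
  rw [Algebra.adjoin_singleton_eq_range_aeval] at hz2
  obtain ⟨q, hq⟩ := hz2
  have hq' : aeval ζ q = y * ζ ^ 30 := hq
  have hcy : aeval ζ (cyclotomic 31 ℤ) = 0 := by
    rw [cyclotomic_eq_minpoly hζ (by norm_num)]
    exact minpoly.aeval ℤ ζ
  have hr : aeval ζ (q %ₘ cyclotomic 31 ℤ) = y * ζ ^ 30 := by
    rw [← hq']
    conv_rhs => rw [← modByMonic_add_div q (cyclotomic 31 ℤ)]
    rw [map_add, map_mul, hcy, zero_mul, add_zero]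
  have hd : (q %ₘ cyclotomic 31 ℤ).natDegree < 30 := by
    have h5 := natDegree_modByMonic_lt q (cyclotomic.monic 31 ℤ) (by
      intro h
      have h6 := congrArg natDegree h
      rw [natDegree_cyclotomic, Nat.totient_prime (by norm_num : Nat.Prime 31)] at h6
      simp at h6)
    rw [natDegree_cyclotomic, Nat.totient_prime (by norm_num : Nat.Prime 31)] at h5
    exact h5
  refine ⟨(q %ₘ cyclotomic 31 ℤ).coeff, ?_⟩
  rw [aeval_eq_sum_range' hd] at hr
  calc y = (y * ζ ^ 30) * ζ := by rw [mul_assoc, ← pow_succ, kpc_z31, mul_one]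
    _ = _ := by
      rw [← hr, Finset.sum_mul]
      apply Finset.sum_congr rfl
      intro i _
      rw [zsmul_eq_mul, pow_succ]
      ring

theorem exists_cc (n : ℕ) : ∃ x : 𝓞 Kp, ((x : Kp) : K) = ζ ^ n + (ζ ^ n)⁻¹ := by
  apply kpc_lift
  · have h : (ζ ^ n)⁻¹ = (ζ ^ 30) ^ n := by
      apply inv_eq_of_mul_eq_one_right
      rw [← mul_pow, ← pow_succ', kpc_z31, one_pow]
    rw [h]
    exact (kpc_int.pow n).add ((kpc_int.pow 30).pow n)
  · unfold Rl
    rw [map_add, map_inv₀, map_pow, σ15_ζ, inv_pow, inv_inv, add_comm]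

/-- `ζ ^ n + ζ ^ (-n)` -/
noncomputable def cc (n : ℕ) : 𝓞 Kp := (exists_cc n).choose

theorem cc_coe (n : ℕ) : ((cc n : Kp) : K) = ζ ^ n + (ζ ^ n)⁻¹ := (exists_cc n).choose_spec

theorem cc_zero : cc 0 = 2 := by
  apply kpc_ext
  rw [cc_coe, pow_zero, inv_one]
  have h : (((2 : 𝓞 Kp) : Kp) : K) = 2 := rfl
  rw [h]
  norm_num

theorem cc_mul (i j : ℕ) : cc (i + j) * cc j = cc (i + 2 * j) + cc i := by
  apply kpc_ext
  have h1 : (((cc (i + j) * cc j : 𝓞 Kp) : Kp) : K) = ((cc (i + j) : Kp) : K) * ((cc j : Kp) : K) := by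
    simp
  have h2 : (((cc (i + 2 * j) + cc i : 𝓞 Kp) : Kp) : K) =
      ((cc (i + 2 * j) : Kp) : K) + ((cc i : Kp) : K) := by
    simp
  rw [h1, h2, cc_coe, cc_coe, cc_coe, cc_coe]
  have hz := kpc_z0
  have hi : ζ ^ i ≠ 0 := pow_ne_zero _ hz
  have hj : ζ ^ j ≠ 0 := pow_ne_zero _ hz
  have h3 : ζ ^ (i + 2 * j) = ζ ^ i * (ζ ^ j) ^ 2 := by
    rw [← pow_mul, ← pow_add, mul_comm j 2]
  rw [h3, pow_add]
  field_simp
  ring

theorem cc_symm (n : ℕ) (h : n ≤ 31) : cc (31 - n) = cc n := by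
  apply kpc_ext
  rw [cc_coe, cc_coe, ← kpc_inv n h, inv_inv, add_comm]

theorem cc_add31 (n : ℕ) : cc (n + 31) = cc n := by
  apply kpc_ext
  rw [cc_coe, cc_coe, pow_add, kpc_z31, mul_one]

theorem kpc_coe_sum {ι : Type} (s : Finset ι) (f : ι → 𝓞 Kp) :
    (((∑ i ∈ s, f i : 𝓞 Kp) : Kp) : K) = ∑ i ∈ s, ((f i : Kp) : K) := by
  have h : ((∑ i ∈ s, f i : 𝓞 Kp) : Kp) = ∑ i ∈ s, (f i : Kp) := map_sum (algebraMap (𝓞 Kp) Kp) f s
  rw [h]
  exact map_sum (algebraMap Kp K) (fun i => (f i : Kp)) s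

theorem sum_cc : ∑ i ∈ Finset.range 15, cc (i + 1) = -1 := by
  apply kpc_ext
  rw [kpc_coe_sum]
  have h1 : (((-1 : 𝓞 Kp) : Kp) : K) = -1 := by simp
  rw [h1]
  have h2 := hζ.geom_sum_eq_zero (by norm_num)
  have h3 : ∀ i ∈ Finset.range 15, ((cc (i + 1) : Kp) : K) = ζ ^ (i + 1) + ζ ^ (31 - (i + 1)) := by
    intro i hi
    rw [Finset.mem_range] at hi
    rw [cc_coe, kpc_inv (i + 1) (by omega)]
  rw [Finset.sum_congr rfl h3]
  simp only [Finset.sum_range_succ, Finset.sum_range_zero] at h2 ⊢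
  norm_num at h2 ⊢
  linear_combination h2

/-- The element with the coordinates `a`. -/
noncomputable def val (a : Fin 15 → ℤ) : 𝓞 Kp := ∑ i : Fin 15, (a i : 𝓞 Kp) * cc (i.val + 1)

theorem val_coe (a : Fin 15 → ℤ) : ((val a : Kp) : K) =
    ∑ i : Fin 15, (a i : K) * (ζ ^ (i.val + 1) + ζ ^ (30 - i.val)) := by
  unfold val
  rw [kpc_coe_sum]
  apply Finset.sum_congr rfl
  intro i _
  have h1 : ((((a i : 𝓞 Kp) * cc (i.val + 1) : 𝓞 Kp) : Kp) : K) =
      (a i : K) * ((cc (i.val + 1) : Kp) : K) := by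
    simp
  rw [h1, cc_coe, kpc_inv (i.val + 1) (by omega)]
  congr 3
  omega

theorem kpc_sig (b : ℕ → ℤ) (y : K) (hr : Rl y)
    (hb : y = ∑ i ∈ Finset.range 30, (b i : K) * ζ ^ (i + 1)) :
    y = ∑ i ∈ Finset.range 30, (b (29 - i) : K) * ζ ^ (i + 1) := by
  unfold Rl at hr
  refine hr.symm.trans ?_
  rw [hb, map_sum, ← Finset.sum_range_reflect]
  apply Finset.sum_congr rfl
  intro i hi
  rw [Finset.mem_range] at hi
  rw [map_mul, map_intCast, map_pow, σ15_ζ, inv_pow, kpc_inv (30 - 1 - i + 1) (by omega)]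
  have e1 : 31 - (30 - 1 - i + 1) = i + 1 := by omega
  have e2 : 30 - 1 - i = 29 - i := by omega
  rw [e1, e2]

theorem val_surj : Function.Surjective val := by
  intro x
  have hyi : IsIntegral ℤ ((x : Kp) : K) := by
    have h1 : IsIntegral ℤ (x : Kp) := RingOfIntegers.isIntegral_coe x
    exact h1.algebraMap (B := K)
  have hyr0 : Rl ((x : Kp) : K) := (mem_Kp ((x : Kp) : K)).1 (x : Kp).2
  obtain ⟨b, hb⟩ := kpc_repr _ hyi
  have hs : ((x : Kp) : K) = ∑ i ∈ Finset.range 30, (b (29 - i) : K) * ζ ^ (i + 1) :=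
    kpc_sig b _ hyr0 hb
  have hz : ∀ i < 30, b i - b (29 - i) = 0 := by
    apply kpc_li (fun i => b i - b (29 - i))
    have h1 : (∑ i ∈ Finset.range 30, ((b i - b (29 - i) : ℤ) : K) * ζ ^ i) * ζ = 0 := by
      rw [Finset.sum_mul]
      have h2 : ∀ i ∈ Finset.range 30, ((b i - b (29 - i) : ℤ) : K) * ζ ^ i * ζ =
          (b i : K) * ζ ^ (i + 1) - (b (29 - i) : K) * ζ ^ (i + 1) := by
        intro i _
        push_cast
        ring
      rw [Finset.sum_congr rfl h2, Finset.sum_sub_distrib, ← hb, ← hs, sub_self]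
    exact (mul_eq_zero.1 h1).resolve_right kpc_z0
  refine ⟨fun i => b i.val, ?_⟩
  apply kpc_ext
  rw [val_coe, hb, Finset.sum_range_add (n := 15) (m := 15)]
  rw [← Finset.sum_range_reflect (fun i => (b (15 + i) : K) * ζ ^ (15 + i + 1)), ← Finset.sum_add_distrib,
    Finset.sum_range]
  apply Finset.sum_congr rfl
  intro i _
  have hi := i.2
  have h3 : b (15 + (15 - 1 - i.val)) = b i.val := by
    have h4 := hz i.val (by omega)
    rw [show 15 + (15 - 1 - i.val) = 29 - i.val by omega]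
    omega
  have h5 : 15 + (15 - 1 - i.val) + 1 = 30 - i.val := by omega
  rw [h3, h5]
  ring

theorem val_inj : Function.Injective val := by
  intro a a' h
  have h1 := congrArg (fun x : 𝓞 Kp => ((x : Kp) : K)) h
  simp only [val_coe] at h1
  set b : ℕ → ℤ := fun n => if h : n < 15 then a ⟨n, h⟩ - a' ⟨n, h⟩ else
    if h : n < 30 then a ⟨29 - n, by omega⟩ - a' ⟨29 - n, by omega⟩ else 0 with hb
  have h2 : ∑ i ∈ Finset.range 30, (b i : K) * ζ ^ i = 0 := by
    have h3 : (∑ i ∈ Finset.range 30, (b i : K) * ζ ^ i) * ζ = 0 := by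
      rw [Finset.sum_mul, Finset.sum_range_add (n := 15) (m := 15)]
      rw [← Finset.sum_range_reflect (fun i => (b (15 + i) : K) * ζ ^ (15 + i) * ζ),
        ← Finset.sum_add_distrib, Finset.sum_range]
      have h4 : ∀ i : Fin 15, (b i.val : K) * ζ ^ i.val * ζ +
          (b (15 + (15 - 1 - i.val)) : K) * ζ ^ (15 + (15 - 1 - i.val)) * ζ =
          (a i : K) * (ζ ^ (i.val + 1) + ζ ^ (30 - i.val)) -
          (a' i : K) * (ζ ^ (i.val + 1) + ζ ^ (30 - i.val)) := by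
        intro i
        have hi := i.2
        have e1 : b i.val = a i - a' i := by
          rw [hb]
          simp only [hi, dif_pos]
        have e2 : b (15 + (15 - 1 - i.val)) = a i - a' i := by
          rw [hb]
          have e3 : ¬ (15 + (15 - 1 - i.val) < 15) := by omega
          have e4 : 15 + (15 - 1 - i.val) < 30 := by omega
          simp only [e3, e4, dif_pos, dif_neg, not_false_eq_true]
          have e5 : (⟨29 - (15 + (15 - 1 - i.val)), by omega⟩ : Fin 15) = i := by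
            apply Fin.ext
            change 29 - (15 + (15 - 1 - i.val)) = i.val
            omega
          rw [e5]
        rw [e1, e2]
        have e6 : 30 - i.val = 15 + (15 - 1 - i.val) + 1 := by omega
        rw [e6]
        push_cast
        ring
      rw [Finset.sum_congr rfl (fun i _ => h4 i), Finset.sum_sub_distrib, h1, sub_self]
    exact (mul_eq_zero.1 h3).resolve_right kpc_z0
  funext i
  have h5 := kpc_li b h2 i.val (by omega)
  rw [hb] at h5
  simp only [i.2, dif_pos] at h5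
  exact sub_eq_zero.1 h5

theorem kpc_mem (n : ℕ) : cc n ∈ Algebra.adjoin ℤ {cc 1} ∧ cc (n + 1) ∈ Algebra.adjoin ℤ {cc 1} := by
  induction n with
  | zero =>
    refine ⟨?_, Algebra.subset_adjoin rfl⟩
    rw [cc_zero]
    have h := Subalgebra.natCast_mem (Algebra.adjoin ℤ {cc 1}) 2
    exact_mod_cast h
  | succ n ih =>
    refine ⟨ih.2, ?_⟩
    have h1 := cc_mul n 1
    have h2 : cc (n + 1 + 1) = cc (n + 1) * cc 1 - cc n := by
      rw [h1]
      ring
    rw [h2]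
    exact Subalgebra.sub_mem _ (Subalgebra.mul_mem _ ih.2 (Algebra.subset_adjoin rfl)) ih.1

theorem exists_poly (x : 𝓞 Kp) : ∃ q : ℤ[X], aeval (cc 1) q = x := by
  obtain ⟨a, rfl⟩ := val_surj x
  have h : val a ∈ Algebra.adjoin ℤ {cc 1} := by
    unfold val
    apply Subalgebra.sum_mem
    intro i _
    exact Subalgebra.mul_mem _ (Subalgebra.intCast_mem _ _) (kpc_mem _).1
  rw [Algebra.adjoin_singleton_eq_range_aeval] at h
  exact h

end Pool.Agent.Helper2.E8A
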