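import Pool.Agent.Helper2.E8A.KpC

/-!
# Block E8A-KPD: certificates for principal prime ideals

`α β = p`, `α γ = g (cc 1)` with `g ∈ ℤ[X]` monic of degree `f`, and `β` is not divisible by `p`. Every element of `𝓞 Kp` is an
integral polynomial in `cc 1`, so modulo `(p, g (cc 1)) ⊆ (α)` it is one of `p ^ f` elements: `absNorm (α) ≤ p ^ f`. As `β` is not
divisible by `p`, `α` is not a unit. All prime ideals containing `α` lie over `p` and have norm `p ^ (inertia degree)`; if all inertia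
degrees are at least `f` then `(α)` is a prime ideal (a prime divisor `P` of `(α)` has norm `≥ p ^ f ≥ absNorm (α)`, so `P = (α)`).
-/

set_option autoImplicit false

namespace Pool.Agent.Helper2.E8A

open NumberField Polynomial IsDedekindDomain nonZeroDivisors

private theorem card_le {p f : ℕ} (hp : p.Prime) {α β γ : 𝓞 Kp} {g : ℤ[X]} (hg : g.Monic)
    (hf : g.natDegree = f) (h1 : α * β = (p : 𝓞 Kp)) (h2 : α * γ = aeval (cc 1) g) :
    Ideal.absNorm (Ideal.span {α}) ≤ p ^ f := by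
  classical
  have hp0 : (0 : ℤ) < p := by exact_mod_cast hp.pos
  let F : (Fin f → Fin p) → (𝓞 Kp ⧸ Ideal.span {α}) := fun c =>
    Ideal.Quotient.mk _ (∑ i : Fin f, ((c i : ℕ) : 𝓞 Kp) * cc 1 ^ (i : ℕ))
  have hF : Function.Surjective F := by
    intro y
    obtain ⟨x, rfl⟩ := Ideal.Quotient.mk_surjective y
    obtain ⟨q, rfl⟩ := exists_poly x
    let r : ℤ[X] := q %ₘ g
    let s : ℤ[X] := q /ₘ g
    have hqr : q = r + g * s := (modByMonic_add_div q g).symm
    have hrd : r.natDegree < f ∨ r = 0 := by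
      by_cases hr : r = 0
      · exact Or.inr hr
      · left
        rw [← hf]
        have := natDegree_lt_natDegree hr (degree_modByMonic_lt q hg)
        exact this
    refine ⟨fun i => ⟨((r.coeff i) % (p : ℤ)).toNat, ?_⟩, ?_⟩
    · have h3 := Int.emod_lt_of_pos (r.coeff i) hp0
      have h4 := Int.emod_nonneg (r.coeff i) hp0.ne'
      omega
    · show Ideal.Quotient.mk _ _ = Ideal.Quotient.mk _ _
      rw [Ideal.Quotient.eq, Ideal.mem_span_singleton]
      have e1 : aeval (cc 1) r = ∑ i : Fin f, ((r.coeff i : ℤ) : 𝓞 Kp) * cc 1 ^ (i : ℕ) := by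
        rcases hrd with hrd | hr0
        · rw [aeval_eq_sum_range' hrd, Finset.sum_range]
          refine Finset.sum_congr rfl fun i _ => ?_
          rw [zsmul_eq_mul]
        · rw [hr0]
          simp
      have e2 : aeval (cc 1) q = aeval (cc 1) r + α * (γ * aeval (cc 1) s) := by
        conv_lhs => rw [hqr]
        rw [map_add, map_mul, ← h2]
        ring
      rw [e2, e1]
      have e3 : ∀ i : Fin f, ∃ z : ℤ, ((((r.coeff i) % (p : ℤ)).toNat : ℕ) : 𝓞 Kp) =
          ((r.coeff i : ℤ) : 𝓞 Kp) - (p : 𝓞 Kp) * (z : 𝓞 Kp) := by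
        intro i
        refine ⟨r.coeff i / (p : ℤ), ?_⟩
        have h4 := Int.emod_nonneg (r.coeff i) hp0.ne'
        have h5 : (((r.coeff i % (p : ℤ)).toNat : ℕ) : ℤ) = r.coeff i - p * (r.coeff i / p) := by
          rw [Int.toNat_of_nonneg h4]
          have := Int.emod_add_mul_ediv (r.coeff i) p
          linarith
        have h6 := congrArg (Int.cast : ℤ → 𝓞 Kp) h5
        push_cast at h6
        exact h6
      choose z hz using e3
      have e4 : (∑ i : Fin f, ((((r.coeff i) % (p : ℤ)).toNat : ℕ) : 𝓞 Kp) * cc 1 ^ (i : ℕ)) =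
          (∑ i : Fin f, ((r.coeff i : ℤ) : 𝓞 Kp) * cc 1 ^ (i : ℕ)) -
          α * (β * ∑ i : Fin f, (z i : 𝓞 Kp) * cc 1 ^ (i : ℕ)) := by
        rw [← mul_assoc, h1, Finset.mul_sum, ← Finset.sum_sub_distrib]
        refine Finset.sum_congr rfl fun i _ => ?_
        rw [hz i]
        ring
      show α ∣ (∑ i : Fin f, ((((r.coeff i) % (p : ℤ)).toNat : ℕ) : 𝓞 Kp) * cc 1 ^ (i : ℕ)) - _
      rw [e4]
      exact ⟨-(β * ∑ i : Fin f, (z i : 𝓞 Kp) * cc 1 ^ (i : ℕ)) - γ * aeval (cc 1) s, by ring⟩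
  have h3 : Ideal.absNorm (Ideal.span {α}) = Nat.card (𝓞 Kp ⧸ Ideal.span {α}) := by
    rw [Ideal.absNorm_apply, Submodule.cardQuot_apply]
  rw [h3]
  refine (Nat.card_le_card_of_surjective F hF).trans ?_
  rw [Nat.card_eq_fintype_card, Fintype.card_fun, Fintype.card_fin, Fintype.card_fin]

theorem cert {p f : ℕ} (hp : p.Prime) {α β γ : 𝓞 Kp} {g : ℤ[X]} (hg : g.Monic) (hf : g.natDegree = f)
    (h1 : α * β = (p : 𝓞 Kp)) (h2 : α * γ = aeval (cc 1) g) (h3 : ¬ (p : 𝓞 Kp) ∣ β)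
    (h4 : ∀ P ∈ Ideal.primesOver (Ideal.span {(p : ℤ)}) (𝓞 Kp), f ≤ Ideal.inertiaDeg P ℤ) :
    ∃ P ∈ Ideal.primesOver (Ideal.span {(p : ℤ)}) (𝓞 Kp), Submodule.IsPrincipal P := by
  have hcard := card_le hp hg hf h1 h2
  have hp0 : (p : 𝓞 Kp) ≠ 0 := by exact_mod_cast hp.ne_zero
  have hα0 : α ≠ 0 := by
    rintro rfl
    exact hp0 (by rw [← h1, zero_mul])
  have hu : ¬ IsUnit α := by
    rintro ⟨u, rfl⟩
    apply h3
    rw [← h1]
    exact ⟨((u⁻¹ : (𝓞 Kp)ˣ) : 𝓞 Kp), by rw [mul_comm ((u : 𝓞 Kp)) β, mul_assoc, Units.mul_inv, mul_one]⟩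
  obtain ⟨P, hPm, hαP⟩ := exists_max_ideal_of_mem_nonunits hu
  have hle : Ideal.span {α} ≤ P := by
    rw [Ideal.span_singleton_le_iff_mem]
    exact hαP
  have hpP : (p : 𝓞 Kp) ∈ P := by
    rw [← h1]
    exact P.mul_mem_right _ hαP
  have hPp : P.IsPrime := hPm.isPrime
  have hover : P.LiesOver (Ideal.span {(p : ℤ)}) := by
    refine ⟨?_⟩
    have hmax : (Ideal.span {(p : ℤ)}).IsMaximal :=
      PrincipalIdealRing.isMaximal_of_irreducible (Nat.prime_iff_prime_int.mp hp).irreducible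
    refine hmax.eq_of_le ?_ ?_
    · exact (Ideal.IsPrime.under ℤ P).ne_top
    · rw [Ideal.span_singleton_le_iff_mem, Ideal.mem_comap]
      simpa using hpP
  have hmem : P ∈ Ideal.primesOver (Ideal.span {(p : ℤ)}) (𝓞 Kp) := ⟨hPp, hover⟩
  have hf4 := h4 P hmem
  have hN : Ideal.absNorm P = p ^ Ideal.inertiaDeg P ℤ := (Ideal.pow_inertiaDeg p P).symm
  have hdvd : P ∣ Ideal.span {α} := Ideal.dvd_iff_le.mpr hle
  obtain ⟨J, hJ⟩ := hdvd
  have hNJ : Ideal.absNorm (Ideal.span {α}) = Ideal.absNorm P * Ideal.absNorm J := by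
    rw [hJ, map_mul]
  have hpos : 0 < Ideal.absNorm (Ideal.span {α}) := by
    rw [Nat.pos_iff_ne_zero, Ne, Ideal.absNorm_eq_zero_iff, Ideal.span_singleton_eq_bot]
    exact hα0
  have hJ1 : Ideal.absNorm J = 1 := by
    have hJpos : 0 < Ideal.absNorm J := by
      rcases Nat.eq_zero_or_pos (Ideal.absNorm J) with h0 | h0
      · rw [h0, mul_zero] at hNJ
        omega
      · exact h0
    have h5 : p ^ f ≤ Ideal.absNorm P := by
      rw [hN]
      exact Nat.pow_le_pow_right hp.pos hf4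
    have hPpos : 0 < Ideal.absNorm P := lt_of_lt_of_le (Nat.pow_pos hp.pos) h5
    by_contra hne
    have h6 : 2 ≤ Ideal.absNorm J := by omega
    have h7 : Ideal.absNorm P * 2 ≤ Ideal.absNorm P * Ideal.absNorm J := Nat.mul_le_mul_left _ h6
    omega
  rw [Ideal.absNorm_eq_one_iff] at hJ1
  rw [hJ1, Ideal.mul_top] at hJ
  exact ⟨P, hmem, ⟨⟨α, by rw [← hJ]⟩⟩⟩

/-- Degree one: no condition on the inertia degrees. -/
theorem cert_one {p : ℕ} (hp : p.Prime) {α β γ : 𝓞 Kp} {r : ℤ} (h1 : α * β = (p : 𝓞 Kp))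
    (h2 : α * γ = cc 1 - (r : 𝓞 Kp)) (h3 : ¬ (p : 𝓞 Kp) ∣ β) :
    ∃ P ∈ Ideal.primesOver (Ideal.span {(p : ℤ)}) (𝓞 Kp), Submodule.IsPrincipal P := by
  refine cert hp (g := X - C r) (monic_X_sub_C r) (natDegree_X_sub_C r) h1 (γ := γ) ?_ h3 ?_
  · rw [h2, map_sub, aeval_X, aeval_C]
    simp
  · intro P hP
    have := hP.1
    have := hP.2
    have hN : Ideal.absNorm P = p ^ Ideal.inertiaDeg P ℤ := (Ideal.pow_inertiaDeg p P).symm
    by_contra h0
    have h5 : Ideal.inertiaDeg P ℤ = 0 := by omega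
    rw [h5, pow_zero, Ideal.absNorm_eq_one_iff] at hN
    exact hP.1.ne_top hN

end Pool.Agent.Helper2.E8A
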