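import Pool.Agent.Helper2.E8A.KpD

/-!
# E8A-KPT: multiplication by `cc i` on coordinate lists
-/

set_option autoImplicit false

namespace Pool.Agent.Helper2.E8A

open NumberField Polynomial IsDedekindDomain nonZeroDivisors

/-- Coordinates extended to `-14, ..., 30`. -/
def ext (b : List ℤ) : List ℤ := (b.take 14).reverse ++ (0 :: (b ++ b.reverse))

/-- Multiplication by `cc i`. -/
def mulc (i : ℕ) (b : List ℤ) : List ℤ :=
  List.zipWith (fun x y => x + y - 2 * b.getD (i - 1) 0) (((ext b).drop (15 - i)).take 15) ((ext b).drop (15 + i))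

/-- Multiplication by `n₀ + ∑ a cc i`, `(i, a) ∈ s`. -/
def mulS (n₀ : ℤ) (s : List (ℕ × ℤ)) (b : List ℤ) : List ℤ :=
  s.foldr (fun t acc => List.zipWith (fun x y => t.2 * x + y) (mulc t.1 b) acc) (b.map (n₀ * ·))

/-- The element with the coordinates `b`. -/
noncomputable def vl (b : List ℤ) : 𝓞 Kp := val (fun i => b.getD i.val 0)

/-- The sparse element `n₀ + ∑ a cc i`. -/
noncomputable def vs (n₀ : ℤ) (s : List (ℕ × ℤ)) : 𝓞 Kp :=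
  s.foldr (fun t acc => (t.2 : 𝓞 Kp) * cc t.1 + acc) (n₀ : 𝓞 Kp)

theorem sum_cc' : cc 1 + cc 2 + cc 3 + cc 4 + cc 5 + cc 6 + cc 7 + cc 8 + cc 9 + cc 10 + cc 11 + cc 12 + cc 13 +
    cc 14 + cc 15 = -1 := by
  have h := sum_cc
  simp only [Finset.sum_range_succ, Finset.sum_range_zero, zero_add] at h
  exact h

theorem prod_cc (a b : ℕ) (h : b ≤ a) : cc a * cc b = cc (a + b) + cc (a - b) := by
  have h1 := cc_mul (a - b) b
  rw [Nat.sub_add_cancel h] at h1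
  rw [h1]
  congr 2
  omega

theorem prod_cc' (a b : ℕ) (h : b ≤ a) (h2 : a + b ≤ 31) : cc a * cc b = cc (31 - (a + b)) + cc (a - b) := by
  rw [prod_cc a b h, cc_symm _ h2]

theorem vl_eq (b1 b2 b3 b4 b5 b6 b7 b8 b9 b10 b11 b12 b13 b14 b15 : ℤ) :
    vl [b1, b2, b3, b4, b5, b6, b7, b8, b9, b10, b11, b12, b13, b14, b15] =
    b1 * cc 1 + b2 * cc 2 + b3 * cc 3 + b4 * cc 4 + b5 * cc 5 + b6 * cc 6 + b7 * cc 7 + b8 * cc 8 + b9 * cc 9 +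
    b10 * cc 10 + b11 * cc 11 + b12 * cc 12 + b13 * cc 13 + b14 * cc 14 + b15 * cc 15 := by
  simp [vl, val, Fin.sum_univ_succ]
  ring

theorem mulc_1 (b1 b2 b3 b4 b5 b6 b7 b8 b9 b10 b11 b12 b13 b14 b15 : ℤ) :
    vl (mulc 1 [b1, b2, b3, b4, b5, b6, b7, b8, b9, b10, b11, b12, b13, b14, b15]) =
    cc 1 * vl [b1, b2, b3, b4, b5, b6, b7, b8, b9, b10, b11, b12, b13, b14, b15] := by
  have e : mulc 1 [b1, b2, b3, b4, b5, b6, b7, b8, b9, b10, b11, b12, b13, b14, b15] = [0 + b2 - 2 * b1, b1 + b3 - 2 * b1, b2 + b4 - 2 * b1, b3 + b5 - 2 * b1, b4 + b6 - 2 * b1, b5 + b7 - 2 * b1, b6 + b8 - 2 * b1, b7 + b9 - 2 * b1, b8 + b10 - 2 * b1, b9 + b11 - 2 * b1, b10 + b12 - 2 * b1, b11 + b13 - 2 * b1, b12 + b14 - 2 * b1, b13 + b15 - 2 * b1, b14 + b15 - 2 * b1] := rfl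
  rw [e, vl_eq, vl_eq]
  push_cast
  have h1 : cc 1 * cc 1 = cc 2 + cc 0 := prod_cc 1 1 (by norm_num)
  have h2 : cc 2 * cc 1 = cc 3 + cc 1 := prod_cc 2 1 (by norm_num)
  have h3 : cc 3 * cc 1 = cc 4 + cc 2 := prod_cc 3 1 (by norm_num)
  have h4 : cc 4 * cc 1 = cc 5 + cc 3 := prod_cc 4 1 (by norm_num)
  have h5 : cc 5 * cc 1 = cc 6 + cc 4 := prod_cc 5 1 (by norm_num)
  have h6 : cc 6 * cc 1 = cc 7 + cc 5 := prod_cc 6 1 (by norm_num)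
  have h7 : cc 7 * cc 1 = cc 8 + cc 6 := prod_cc 7 1 (by norm_num)
  have h8 : cc 8 * cc 1 = cc 9 + cc 7 := prod_cc 8 1 (by norm_num)
  have h9 : cc 9 * cc 1 = cc 10 + cc 8 := prod_cc 9 1 (by norm_num)
  have h10 : cc 10 * cc 1 = cc 11 + cc 9 := prod_cc 10 1 (by norm_num)
  have h11 : cc 11 * cc 1 = cc 12 + cc 10 := prod_cc 11 1 (by norm_num)
  have h12 : cc 12 * cc 1 = cc 13 + cc 11 := prod_cc 12 1 (by norm_num)
  have h13 : cc 13 * cc 1 = cc 14 + cc 12 := prod_cc 13 1 (by norm_num)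
  have h14 : cc 14 * cc 1 = cc 15 + cc 13 := prod_cc 14 1 (by norm_num)
  have h15 : cc 15 * cc 1 = cc 15 + cc 14 := prod_cc' 15 1 (by norm_num) (by norm_num)
  rw [cc_zero] at h1
  linear_combination - b1 * h1 - b2 * h2 - b3 * h3 - b4 * h4 - b5 * h5 - b6 * h6 - b7 * h7 - b8 * h8 - b9 * h9 - b10 * h10 - b11 * h11 - b12 * h12 - b13 * h13 - b14 * h14 - b15 * h15 - 2 * b1 * sum_cc'

theorem mulc_2 (b1 b2 b3 b4 b5 b6 b7 b8 b9 b10 b11 b12 b13 b14 b15 : ℤ) :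
    vl (mulc 2 [b1, b2, b3, b4, b5, b6, b7, b8, b9, b10, b11, b12, b13, b14, b15]) =
    cc 2 * vl [b1, b2, b3, b4, b5, b6, b7, b8, b9, b10, b11, b12, b13, b14, b15] := by
  have e : mulc 2 [b1, b2, b3, b4, b5, b6, b7, b8, b9, b10, b11, b12, b13, b14, b15] = [b1 + b3 - 2 * b2, 0 + b4 - 2 * b2, b1 + b5 - 2 * b2, b2 + b6 - 2 * b2, b3 + b7 - 2 * b2, b4 + b8 - 2 * b2, b5 + b9 - 2 * b2, b6 + b10 - 2 * b2, b7 + b11 - 2 * b2, b8 + b12 - 2 * b2, b9 + b13 - 2 * b2, b10 + b14 - 2 * b2, b11 + b15 - 2 * b2, b12 + b15 - 2 * b2, b13 + b14 - 2 * b2] := rfl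
  rw [e, vl_eq, vl_eq]
  push_cast
  have h1 : cc 2 * cc 1 = cc 3 + cc 1 := prod_cc 2 1 (by norm_num)
  have h2 : cc 2 * cc 2 = cc 4 + cc 0 := prod_cc 2 2 (by norm_num)
  have h3 : cc 3 * cc 2 = cc 5 + cc 1 := prod_cc 3 2 (by norm_num)
  have h4 : cc 4 * cc 2 = cc 6 + cc 2 := prod_cc 4 2 (by norm_num)
  have h5 : cc 5 * cc 2 = cc 7 + cc 3 := prod_cc 5 2 (by norm_num)
  have h6 : cc 6 * cc 2 = cc 8 + cc 4 := prod_cc 6 2 (by norm_num)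
  have h7 : cc 7 * cc 2 = cc 9 + cc 5 := prod_cc 7 2 (by norm_num)
  have h8 : cc 8 * cc 2 = cc 10 + cc 6 := prod_cc 8 2 (by norm_num)
  have h9 : cc 9 * cc 2 = cc 11 + cc 7 := prod_cc 9 2 (by norm_num)
  have h10 : cc 10 * cc 2 = cc 12 + cc 8 := prod_cc 10 2 (by norm_num)
  have h11 : cc 11 * cc 2 = cc 13 + cc 9 := prod_cc 11 2 (by norm_num)
  have h12 : cc 12 * cc 2 = cc 14 + cc 10 := prod_cc 12 2 (by norm_num)
  have h13 : cc 13 * cc 2 = cc 15 + cc 11 := prod_cc 13 2 (by norm_num)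
  have h14 : cc 14 * cc 2 = cc 15 + cc 12 := prod_cc' 14 2 (by norm_num) (by norm_num)
  have h15 : cc 15 * cc 2 = cc 14 + cc 13 := prod_cc' 15 2 (by norm_num) (by norm_num)
  rw [cc_zero] at h2
  linear_combination - b1 * h1 - b2 * h2 - b3 * h3 - b4 * h4 - b5 * h5 - b6 * h6 - b7 * h7 - b8 * h8 - b9 * h9 - b10 * h10 - b11 * h11 - b12 * h12 - b13 * h13 - b14 * h14 - b15 * h15 - 2 * b2 * sum_cc'

theorem mulc_3 (b1 b2 b3 b4 b5 b6 b7 b8 b9 b10 b11 b12 b13 b14 b15 : ℤ) :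
    vl (mulc 3 [b1, b2, b3, b4, b5, b6, b7, b8, b9, b10, b11, b12, b13, b14, b15]) =
    cc 3 * vl [b1, b2, b3, b4, b5, b6, b7, b8, b9, b10, b11, b12, b13, b14, b15] := by
  have e : mulc 3 [b1, b2, b3, b4, b5, b6, b7, b8, b9, b10, b11, b12, b13, b14, b15] = [b2 + b4 - 2 * b3, b1 + b5 - 2 * b3, 0 + b6 - 2 * b3, b1 + b7 - 2 * b3, b2 + b8 - 2 * b3, b3 + b9 - 2 * b3, b4 + b10 - 2 * b3, b5 + b11 - 2 * b3, b6 + b12 - 2 * b3, b7 + b13 - 2 * b3, b8 + b14 - 2 * b3, b9 + b15 - 2 * b3, b10 + b15 - 2 * b3, b11 + b14 - 2 * b3, b12 + b13 - 2 * b3] := rfl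
  rw [e, vl_eq, vl_eq]
  push_cast
  have h1 : cc 3 * cc 1 = cc 4 + cc 2 := prod_cc 3 1 (by norm_num)
  have h2 : cc 3 * cc 2 = cc 5 + cc 1 := prod_cc 3 2 (by norm_num)
  have h3 : cc 3 * cc 3 = cc 6 + cc 0 := prod_cc 3 3 (by norm_num)
  have h4 : cc 4 * cc 3 = cc 7 + cc 1 := prod_cc 4 3 (by norm_num)
  have h5 : cc 5 * cc 3 = cc 8 + cc 2 := prod_cc 5 3 (by norm_num)
  have h6 : cc 6 * cc 3 = cc 9 + cc 3 := prod_cc 6 3 (by norm_num)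
  have h7 : cc 7 * cc 3 = cc 10 + cc 4 := prod_cc 7 3 (by norm_num)
  have h8 : cc 8 * cc 3 = cc 11 + cc 5 := prod_cc 8 3 (by norm_num)
  have h9 : cc 9 * cc 3 = cc 12 + cc 6 := prod_cc 9 3 (by norm_num)
  have h10 : cc 10 * cc 3 = cc 13 + cc 7 := prod_cc 10 3 (by norm_num)
  have h11 : cc 11 * cc 3 = cc 14 + cc 8 := prod_cc 11 3 (by norm_num)
  have h12 : cc 12 * cc 3 = cc 15 + cc 9 := prod_cc 12 3 (by norm_num)
  have h13 : cc 13 * cc 3 = cc 15 + cc 10 := prod_cc' 13 3 (by norm_num) (by norm_num)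
  have h14 : cc 14 * cc 3 = cc 14 + cc 11 := prod_cc' 14 3 (by norm_num) (by norm_num)
  have h15 : cc 15 * cc 3 = cc 13 + cc 12 := prod_cc' 15 3 (by norm_num) (by norm_num)
  rw [cc_zero] at h3
  linear_combination - b1 * h1 - b2 * h2 - b3 * h3 - b4 * h4 - b5 * h5 - b6 * h6 - b7 * h7 - b8 * h8 - b9 * h9 - b10 * h10 - b11 * h11 - b12 * h12 - b13 * h13 - b14 * h14 - b15 * h15 - 2 * b3 * sum_cc'

theorem mulc_4 (b1 b2 b3 b4 b5 b6 b7 b8 b9 b10 b11 b12 b13 b14 b15 : ℤ) :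
    vl (mulc 4 [b1, b2, b3, b4, b5, b6, b7, b8, b9, b10, b11, b12, b13, b14, b15]) =
    cc 4 * vl [b1, b2, b3, b4, b5, b6, b7, b8, b9, b10, b11, b12, b13, b14, b15] := by
  have e : mulc 4 [b1, b2, b3, b4, b5, b6, b7, b8, b9, b10, b11, b12, b13, b14, b15] = [b3 + b5 - 2 * b4, b2 + b6 - 2 * b4, b1 + b7 - 2 * b4, 0 + b8 - 2 * b4, b1 + b9 - 2 * b4, b2 + b10 - 2 * b4, b3 + b11 - 2 * b4, b4 + b12 - 2 * b4, b5 + b13 - 2 * b4, b6 + b14 - 2 * b4, b7 + b15 - 2 * b4, b8 + b15 - 2 * b4, b9 + b14 - 2 * b4, b10 + b13 - 2 * b4, b11 + b12 - 2 * b4] := rfl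
  rw [e, vl_eq, vl_eq]
  push_cast
  have h1 : cc 4 * cc 1 = cc 5 + cc 3 := prod_cc 4 1 (by norm_num)
  have h2 : cc 4 * cc 2 = cc 6 + cc 2 := prod_cc 4 2 (by norm_num)
  have h3 : cc 4 * cc 3 = cc 7 + cc 1 := prod_cc 4 3 (by norm_num)
  have h4 : cc 4 * cc 4 = cc 8 + cc 0 := prod_cc 4 4 (by norm_num)
  have h5 : cc 5 * cc 4 = cc 9 + cc 1 := prod_cc 5 4 (by norm_num)
  have h6 : cc 6 * cc 4 = cc 10 + cc 2 := prod_cc 6 4 (by norm_num)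
  have h7 : cc 7 * cc 4 = cc 11 + cc 3 := prod_cc 7 4 (by norm_num)
  have h8 : cc 8 * cc 4 = cc 12 + cc 4 := prod_cc 8 4 (by norm_num)
  have h9 : cc 9 * cc 4 = cc 13 + cc 5 := prod_cc 9 4 (by norm_num)
  have h10 : cc 10 * cc 4 = cc 14 + cc 6 := prod_cc 10 4 (by norm_num)
  have h11 : cc 11 * cc 4 = cc 15 + cc 7 := prod_cc 11 4 (by norm_num)
  have h12 : cc 12 * cc 4 = cc 15 + cc 8 := prod_cc' 12 4 (by norm_num) (by norm_num)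
  have h13 : cc 13 * cc 4 = cc 14 + cc 9 := prod_cc' 13 4 (by norm_num) (by norm_num)
  have h14 : cc 14 * cc 4 = cc 13 + cc 10 := prod_cc' 14 4 (by norm_num) (by norm_num)
  have h15 : cc 15 * cc 4 = cc 12 + cc 11 := prod_cc' 15 4 (by norm_num) (by norm_num)
  rw [cc_zero] at h4
  linear_combination - b1 * h1 - b2 * h2 - b3 * h3 - b4 * h4 - b5 * h5 - b6 * h6 - b7 * h7 - b8 * h8 - b9 * h9 - b10 * h10 - b11 * h11 - b12 * h12 - b13 * h13 - b14 * h14 - b15 * h15 - 2 * b4 * sum_cc'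

theorem mulc_5 (b1 b2 b3 b4 b5 b6 b7 b8 b9 b10 b11 b12 b13 b14 b15 : ℤ) :
    vl (mulc 5 [b1, b2, b3, b4, b5, b6, b7, b8, b9, b10, b11, b12, b13, b14, b15]) =
    cc 5 * vl [b1, b2, b3, b4, b5, b6, b7, b8, b9, b10, b11, b12, b13, b14, b15] := by
  have e : mulc 5 [b1, b2, b3, b4, b5, b6, b7, b8, b9, b10, b11, b12, b13, b14, b15] = [b4 + b6 - 2 * b5, b3 + b7 - 2 * b5, b2 + b8 - 2 * b5, b1 + b9 - 2 * b5, 0 + b10 - 2 * b5, b1 + b11 - 2 * b5, b2 + b12 - 2 * b5, b3 + b13 - 2 * b5, b4 + b14 - 2 * b5, b5 + b15 - 2 * b5, b6 + b15 - 2 * b5, b7 + b14 - 2 * b5, b8 + b13 - 2 * b5, b9 + b12 - 2 * b5, b10 + b11 - 2 * b5] := rfl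
  rw [e, vl_eq, vl_eq]
  push_cast
  have h1 : cc 5 * cc 1 = cc 6 + cc 4 := prod_cc 5 1 (by norm_num)
  have h2 : cc 5 * cc 2 = cc 7 + cc 3 := prod_cc 5 2 (by norm_num)
  have h3 : cc 5 * cc 3 = cc 8 + cc 2 := prod_cc 5 3 (by norm_num)
  have h4 : cc 5 * cc 4 = cc 9 + cc 1 := prod_cc 5 4 (by norm_num)
  have h5 : cc 5 * cc 5 = cc 10 + cc 0 := prod_cc 5 5 (by norm_num)
  have h6 : cc 6 * cc 5 = cc 11 + cc 1 := prod_cc 6 5 (by norm_num)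
  have h7 : cc 7 * cc 5 = cc 12 + cc 2 := prod_cc 7 5 (by norm_num)
  have h8 : cc 8 * cc 5 = cc 13 + cc 3 := prod_cc 8 5 (by norm_num)
  have h9 : cc 9 * cc 5 = cc 14 + cc 4 := prod_cc 9 5 (by norm_num)
  have h10 : cc 10 * cc 5 = cc 15 + cc 5 := prod_cc 10 5 (by norm_num)
  have h11 : cc 11 * cc 5 = cc 15 + cc 6 := prod_cc' 11 5 (by norm_num) (by norm_num)
  have h12 : cc 12 * cc 5 = cc 14 + cc 7 := prod_cc' 12 5 (by norm_num) (by norm_num)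
  have h13 : cc 13 * cc 5 = cc 13 + cc 8 := prod_cc' 13 5 (by norm_num) (by norm_num)
  have h14 : cc 14 * cc 5 = cc 12 + cc 9 := prod_cc' 14 5 (by norm_num) (by norm_num)
  have h15 : cc 15 * cc 5 = cc 11 + cc 10 := prod_cc' 15 5 (by norm_num) (by norm_num)
  rw [cc_zero] at h5
  linear_combination - b1 * h1 - b2 * h2 - b3 * h3 - b4 * h4 - b5 * h5 - b6 * h6 - b7 * h7 - b8 * h8 - b9 * h9 - b10 * h10 - b11 * h11 - b12 * h12 - b13 * h13 - b14 * h14 - b15 * h15 - 2 * b5 * sum_cc'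

theorem mulc_6 (b1 b2 b3 b4 b5 b6 b7 b8 b9 b10 b11 b12 b13 b14 b15 : ℤ) :
    vl (mulc 6 [b1, b2, b3, b4, b5, b6, b7, b8, b9, b10, b11, b12, b13, b14, b15]) =
    cc 6 * vl [b1, b2, b3, b4, b5, b6, b7, b8, b9, b10, b11, b12, b13, b14, b15] := by
  have e : mulc 6 [b1, b2, b3, b4, b5, b6, b7, b8, b9, b10, b11, b12, b13, b14, b15] = [b5 + b7 - 2 * b6, b4 + b8 - 2 * b6, b3 + b9 - 2 * b6, b2 + b10 - 2 * b6, b1 + b11 - 2 * b6, 0 + b12 - 2 * b6, b1 + b13 - 2 * b6, b2 + b14 - 2 * b6, b3 + b15 - 2 * b6, b4 + b15 - 2 * b6, b5 + b14 - 2 * b6, b6 + b13 - 2 * b6, b7 + b12 - 2 * b6, b8 + b11 - 2 * b6, b9 + b10 - 2 * b6] := rfl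
  rw [e, vl_eq, vl_eq]
  push_cast
  have h1 : cc 6 * cc 1 = cc 7 + cc 5 := prod_cc 6 1 (by norm_num)
  have h2 : cc 6 * cc 2 = cc 8 + cc 4 := prod_cc 6 2 (by norm_num)
  have h3 : cc 6 * cc 3 = cc 9 + cc 3 := prod_cc 6 3 (by norm_num)
  have h4 : cc 6 * cc 4 = cc 10 + cc 2 := prod_cc 6 4 (by norm_num)
  have h5 : cc 6 * cc 5 = cc 11 + cc 1 := prod_cc 6 5 (by norm_num)
  have h6 : cc 6 * cc 6 = cc 12 + cc 0 := prod_cc 6 6 (by norm_num)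
  have h7 : cc 7 * cc 6 = cc 13 + cc 1 := prod_cc 7 6 (by norm_num)
  have h8 : cc 8 * cc 6 = cc 14 + cc 2 := prod_cc 8 6 (by norm_num)
  have h9 : cc 9 * cc 6 = cc 15 + cc 3 := prod_cc 9 6 (by norm_num)
  have h10 : cc 10 * cc 6 = cc 15 + cc 4 := prod_cc' 10 6 (by norm_num) (by norm_num)
  have h11 : cc 11 * cc 6 = cc 14 + cc 5 := prod_cc' 11 6 (by norm_num) (by norm_num)
  have h12 : cc 12 * cc 6 = cc 13 + cc 6 := prod_cc' 12 6 (by norm_num) (by norm_num)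
  have h13 : cc 13 * cc 6 = cc 12 + cc 7 := prod_cc' 13 6 (by norm_num) (by norm_num)
  have h14 : cc 14 * cc 6 = cc 11 + cc 8 := prod_cc' 14 6 (by norm_num) (by norm_num)
  have h15 : cc 15 * cc 6 = cc 10 + cc 9 := prod_cc' 15 6 (by norm_num) (by norm_num)
  rw [cc_zero] at h6
  linear_combination - b1 * h1 - b2 * h2 - b3 * h3 - b4 * h4 - b5 * h5 - b6 * h6 - b7 * h7 - b8 * h8 - b9 * h9 - b10 * h10 - b11 * h11 - b12 * h12 - b13 * h13 - b14 * h14 - b15 * h15 - 2 * b6 * sum_cc'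

theorem mulc_7 (b1 b2 b3 b4 b5 b6 b7 b8 b9 b10 b11 b12 b13 b14 b15 : ℤ) :
    vl (mulc 7 [b1, b2, b3, b4, b5, b6, b7, b8, b9, b10, b11, b12, b13, b14, b15]) =
    cc 7 * vl [b1, b2, b3, b4, b5, b6, b7, b8, b9, b10, b11, b12, b13, b14, b15] := by
  have e : mulc 7 [b1, b2, b3, b4, b5, b6, b7, b8, b9, b10, b11, b12, b13, b14, b15] = [b6 + b8 - 2 * b7, b5 + b9 - 2 * b7, b4 + b10 - 2 * b7, b3 + b11 - 2 * b7, b2 + b12 - 2 * b7, b1 + b13 - 2 * b7, 0 + b14 - 2 * b7, b1 + b15 - 2 * b7, b2 + b15 - 2 * b7, b3 + b14 - 2 * b7, b4 + b13 - 2 * b7, b5 + b12 - 2 * b7, b6 + b11 - 2 * b7, b7 + b10 - 2 * b7, b8 + b9 - 2 * b7] := rfl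
  rw [e, vl_eq, vl_eq]
  push_cast
  have h1 : cc 7 * cc 1 = cc 8 + cc 6 := prod_cc 7 1 (by norm_num)
  have h2 : cc 7 * cc 2 = cc 9 + cc 5 := prod_cc 7 2 (by norm_num)
  have h3 : cc 7 * cc 3 = cc 10 + cc 4 := prod_cc 7 3 (by norm_num)
  have h4 : cc 7 * cc 4 = cc 11 + cc 3 := prod_cc 7 4 (by norm_num)
  have h5 : cc 7 * cc 5 = cc 12 + cc 2 := prod_cc 7 5 (by norm_num)
  have h6 : cc 7 * cc 6 = cc 13 + cc 1 := prod_cc 7 6 (by norm_num)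
  have h7 : cc 7 * cc 7 = cc 14 + cc 0 := prod_cc 7 7 (by norm_num)
  have h8 : cc 8 * cc 7 = cc 15 + cc 1 := prod_cc 8 7 (by norm_num)
  have h9 : cc 9 * cc 7 = cc 15 + cc 2 := prod_cc' 9 7 (by norm_num) (by norm_num)
  have h10 : cc 10 * cc 7 = cc 14 + cc 3 := prod_cc' 10 7 (by norm_num) (by norm_num)
  have h11 : cc 11 * cc 7 = cc 13 + cc 4 := prod_cc' 11 7 (by norm_num) (by norm_num)
  have h12 : cc 12 * cc 7 = cc 12 + cc 5 := prod_cc' 12 7 (by norm_num) (by norm_num)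
  have h13 : cc 13 * cc 7 = cc 11 + cc 6 := prod_cc' 13 7 (by norm_num) (by norm_num)
  have h14 : cc 14 * cc 7 = cc 10 + cc 7 := prod_cc' 14 7 (by norm_num) (by norm_num)
  have h15 : cc 15 * cc 7 = cc 9 + cc 8 := prod_cc' 15 7 (by norm_num) (by norm_num)
  rw [cc_zero] at h7
  linear_combination - b1 * h1 - b2 * h2 - b3 * h3 - b4 * h4 - b5 * h5 - b6 * h6 - b7 * h7 - b8 * h8 - b9 * h9 - b10 * h10 - b11 * h11 - b12 * h12 - b13 * h13 - b14 * h14 - b15 * h15 - 2 * b7 * sum_cc'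

theorem mulc_8 (b1 b2 b3 b4 b5 b6 b7 b8 b9 b10 b11 b12 b13 b14 b15 : ℤ) :
    vl (mulc 8 [b1, b2, b3, b4, b5, b6, b7, b8, b9, b10, b11, b12, b13, b14, b15]) =
    cc 8 * vl [b1, b2, b3, b4, b5, b6, b7, b8, b9, b10, b11, b12, b13, b14, b15] := by
  have e : mulc 8 [b1, b2, b3, b4, b5, b6, b7, b8, b9, b10, b11, b12, b13, b14, b15] = [b7 + b9 - 2 * b8, b6 + b10 - 2 * b8, b5 + b11 - 2 * b8, b4 + b12 - 2 * b8, b3 + b13 - 2 * b8, b2 + b14 - 2 * b8, b1 + b15 - 2 * b8, 0 + b15 - 2 * b8, b1 + b14 - 2 * b8, b2 + b13 - 2 * b8, b3 + b12 - 2 * b8, b4 + b11 - 2 * b8, b5 + b10 - 2 * b8, b6 + b9 - 2 * b8, b7 + b8 - 2 * b8] := rfl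
  rw [e, vl_eq, vl_eq]
  push_cast
  have h1 : cc 8 * cc 1 = cc 9 + cc 7 := prod_cc 8 1 (by norm_num)
  have h2 : cc 8 * cc 2 = cc 10 + cc 6 := prod_cc 8 2 (by norm_num)
  have h3 : cc 8 * cc 3 = cc 11 + cc 5 := prod_cc 8 3 (by norm_num)
  have h4 : cc 8 * cc 4 = cc 12 + cc 4 := prod_cc 8 4 (by norm_num)
  have h5 : cc 8 * cc 5 = cc 13 + cc 3 := prod_cc 8 5 (by norm_num)
  have h6 : cc 8 * cc 6 = cc 14 + cc 2 := prod_cc 8 6 (by norm_num)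
  have h7 : cc 8 * cc 7 = cc 15 + cc 1 := prod_cc 8 7 (by norm_num)
  have h8 : cc 8 * cc 8 = cc 15 + cc 0 := prod_cc' 8 8 (by norm_num) (by norm_num)
  have h9 : cc 9 * cc 8 = cc 14 + cc 1 := prod_cc' 9 8 (by norm_num) (by norm_num)
  have h10 : cc 10 * cc 8 = cc 13 + cc 2 := prod_cc' 10 8 (by norm_num) (by norm_num)
  have h11 : cc 11 * cc 8 = cc 12 + cc 3 := prod_cc' 11 8 (by norm_num) (by norm_num)
  have h12 : cc 12 * cc 8 = cc 11 + cc 4 := prod_cc' 12 8 (by norm_num) (by norm_num)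
  have h13 : cc 13 * cc 8 = cc 10 + cc 5 := prod_cc' 13 8 (by norm_num) (by norm_num)
  have h14 : cc 14 * cc 8 = cc 9 + cc 6 := prod_cc' 14 8 (by norm_num) (by norm_num)
  have h15 : cc 15 * cc 8 = cc 8 + cc 7 := prod_cc' 15 8 (by norm_num) (by norm_num)
  rw [cc_zero] at h8
  linear_combination - b1 * h1 - b2 * h2 - b3 * h3 - b4 * h4 - b5 * h5 - b6 * h6 - b7 * h7 - b8 * h8 - b9 * h9 - b10 * h10 - b11 * h11 - b12 * h12 - b13 * h13 - b14 * h14 - b15 * h15 - 2 * b8 * sum_cc'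

theorem mulc_9 (b1 b2 b3 b4 b5 b6 b7 b8 b9 b10 b11 b12 b13 b14 b15 : ℤ) :
    vl (mulc 9 [b1, b2, b3, b4, b5, b6, b7, b8, b9, b10, b11, b12, b13, b14, b15]) =
    cc 9 * vl [b1, b2, b3, b4, b5, b6, b7, b8, b9, b10, b11, b12, b13, b14, b15] := by
  have e : mulc 9 [b1, b2, b3, b4, b5, b6, b7, b8, b9, b10, b11, b12, b13, b14, b15] = [b8 + b10 - 2 * b9, b7 + b11 - 2 * b9, b6 + b12 - 2 * b9, b5 + b13 - 2 * b9, b4 + b14 - 2 * b9, b3 + b15 - 2 * b9, b2 + b15 - 2 * b9, b1 + b14 - 2 * b9, 0 + b13 - 2 * b9, b1 + b12 - 2 * b9, b2 + b11 - 2 * b9, b3 + b10 - 2 * b9, b4 + b9 - 2 * b9, b5 + b8 - 2 * b9, b6 + b7 - 2 * b9] := rfl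
  rw [e, vl_eq, vl_eq]
  push_cast
  have h1 : cc 9 * cc 1 = cc 10 + cc 8 := prod_cc 9 1 (by norm_num)
  have h2 : cc 9 * cc 2 = cc 11 + cc 7 := prod_cc 9 2 (by norm_num)
  have h3 : cc 9 * cc 3 = cc 12 + cc 6 := prod_cc 9 3 (by norm_num)
  have h4 : cc 9 * cc 4 = cc 13 + cc 5 := prod_cc 9 4 (by norm_num)
  have h5 : cc 9 * cc 5 = cc 14 + cc 4 := prod_cc 9 5 (by norm_num)
  have h6 : cc 9 * cc 6 = cc 15 + cc 3 := prod_cc 9 6 (by norm_num)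
  have h7 : cc 9 * cc 7 = cc 15 + cc 2 := prod_cc' 9 7 (by norm_num) (by norm_num)
  have h8 : cc 9 * cc 8 = cc 14 + cc 1 := prod_cc' 9 8 (by norm_num) (by norm_num)
  have h9 : cc 9 * cc 9 = cc 13 + cc 0 := prod_cc' 9 9 (by norm_num) (by norm_num)
  have h10 : cc 10 * cc 9 = cc 12 + cc 1 := prod_cc' 10 9 (by norm_num) (by norm_num)
  have h11 : cc 11 * cc 9 = cc 11 + cc 2 := prod_cc' 11 9 (by norm_num) (by norm_num)
  have h12 : cc 12 * cc 9 = cc 10 + cc 3 := prod_cc' 12 9 (by norm_num) (by norm_num)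
  have h13 : cc 13 * cc 9 = cc 9 + cc 4 := prod_cc' 13 9 (by norm_num) (by norm_num)
  have h14 : cc 14 * cc 9 = cc 8 + cc 5 := prod_cc' 14 9 (by norm_num) (by norm_num)
  have h15 : cc 15 * cc 9 = cc 7 + cc 6 := prod_cc' 15 9 (by norm_num) (by norm_num)
  rw [cc_zero] at h9
  linear_combination - b1 * h1 - b2 * h2 - b3 * h3 - b4 * h4 - b5 * h5 - b6 * h6 - b7 * h7 - b8 * h8 - b9 * h9 - b10 * h10 - b11 * h11 - b12 * h12 - b13 * h13 - b14 * h14 - b15 * h15 - 2 * b9 * sum_cc'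

theorem mulc_10 (b1 b2 b3 b4 b5 b6 b7 b8 b9 b10 b11 b12 b13 b14 b15 : ℤ) :
    vl (mulc 10 [b1, b2, b3, b4, b5, b6, b7, b8, b9, b10, b11, b12, b13, b14, b15]) =
    cc 10 * vl [b1, b2, b3, b4, b5, b6, b7, b8, b9, b10, b11, b12, b13, b14, b15] := by
  have e : mulc 10 [b1, b2, b3, b4, b5, b6, b7, b8, b9, b10, b11, b12, b13, b14, b15] = [b9 + b11 - 2 * b10, b8 + b12 - 2 * b10, b7 + b13 - 2 * b10, b6 + b14 - 2 * b10, b5 + b15 - 2 * b10, b4 + b15 - 2 * b10, b3 + b14 - 2 * b10, b2 + b13 - 2 * b10, b1 + b12 - 2 * b10, 0 + b11 - 2 * b10, b1 + b10 - 2 * b10, b2 + b9 - 2 * b10, b3 + b8 - 2 * b10, b4 + b7 - 2 * b10, b5 + b6 - 2 * b10] := rfl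
  rw [e, vl_eq, vl_eq]
  push_cast
  have h1 : cc 10 * cc 1 = cc 11 + cc 9 := prod_cc 10 1 (by norm_num)
  have h2 : cc 10 * cc 2 = cc 12 + cc 8 := prod_cc 10 2 (by norm_num)
  have h3 : cc 10 * cc 3 = cc 13 + cc 7 := prod_cc 10 3 (by norm_num)
  have h4 : cc 10 * cc 4 = cc 14 + cc 6 := prod_cc 10 4 (by norm_num)
  have h5 : cc 10 * cc 5 = cc 15 + cc 5 := prod_cc 10 5 (by norm_num)
  have h6 : cc 10 * cc 6 = cc 15 + cc 4 := prod_cc' 10 6 (by norm_num) (by norm_num)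
  have h7 : cc 10 * cc 7 = cc 14 + cc 3 := prod_cc' 10 7 (by norm_num) (by norm_num)
  have h8 : cc 10 * cc 8 = cc 13 + cc 2 := prod_cc' 10 8 (by norm_num) (by norm_num)
  have h9 : cc 10 * cc 9 = cc 12 + cc 1 := prod_cc' 10 9 (by norm_num) (by norm_num)
  have h10 : cc 10 * cc 10 = cc 11 + cc 0 := prod_cc' 10 10 (by norm_num) (by norm_num)
  have h11 : cc 11 * cc 10 = cc 10 + cc 1 := prod_cc' 11 10 (by norm_num) (by norm_num)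
  have h12 : cc 12 * cc 10 = cc 9 + cc 2 := prod_cc' 12 10 (by norm_num) (by norm_num)
  have h13 : cc 13 * cc 10 = cc 8 + cc 3 := prod_cc' 13 10 (by norm_num) (by norm_num)
  have h14 : cc 14 * cc 10 = cc 7 + cc 4 := prod_cc' 14 10 (by norm_num) (by norm_num)
  have h15 : cc 15 * cc 10 = cc 6 + cc 5 := prod_cc' 15 10 (by norm_num) (by norm_num)
  rw [cc_zero] at h10
  linear_combination - b1 * h1 - b2 * h2 - b3 * h3 - b4 * h4 - b5 * h5 - b6 * h6 - b7 * h7 - b8 * h8 - b9 * h9 - b10 * h10 - b11 * h11 - b12 * h12 - b13 * h13 - b14 * h14 - b15 * h15 - 2 * b10 * sum_cc'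

theorem mulc_11 (b1 b2 b3 b4 b5 b6 b7 b8 b9 b10 b11 b12 b13 b14 b15 : ℤ) :
    vl (mulc 11 [b1, b2, b3, b4, b5, b6, b7, b8, b9, b10, b11, b12, b13, b14, b15]) =
    cc 11 * vl [b1, b2, b3, b4, b5, b6, b7, b8, b9, b10, b11, b12, b13, b14, b15] := by
  have e : mulc 11 [b1, b2, b3, b4, b5, b6, b7, b8, b9, b10, b11, b12, b13, b14, b15] = [b10 + b12 - 2 * b11, b9 + b13 - 2 * b11, b8 + b14 - 2 * b11, b7 + b15 - 2 * b11, b6 + b15 - 2 * b11, b5 + b14 - 2 * b11, b4 + b13 - 2 * b11, b3 + b12 - 2 * b11, b2 + b11 - 2 * b11, b1 + b10 - 2 * b11, 0 + b9 - 2 * b11, b1 + b8 - 2 * b11, b2 + b7 - 2 * b11, b3 + b6 - 2 * b11, b4 + b5 - 2 * b11] := rfl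
  rw [e, vl_eq, vl_eq]
  push_cast
  have h1 : cc 11 * cc 1 = cc 12 + cc 10 := prod_cc 11 1 (by norm_num)
  have h2 : cc 11 * cc 2 = cc 13 + cc 9 := prod_cc 11 2 (by norm_num)
  have h3 : cc 11 * cc 3 = cc 14 + cc 8 := prod_cc 11 3 (by norm_num)
  have h4 : cc 11 * cc 4 = cc 15 + cc 7 := prod_cc 11 4 (by norm_num)
  have h5 : cc 11 * cc 5 = cc 15 + cc 6 := prod_cc' 11 5 (by norm_num) (by norm_num)
  have h6 : cc 11 * cc 6 = cc 14 + cc 5 := prod_cc' 11 6 (by norm_num) (by norm_num)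
  have h7 : cc 11 * cc 7 = cc 13 + cc 4 := prod_cc' 11 7 (by norm_num) (by norm_num)
  have h8 : cc 11 * cc 8 = cc 12 + cc 3 := prod_cc' 11 8 (by norm_num) (by norm_num)
  have h9 : cc 11 * cc 9 = cc 11 + cc 2 := prod_cc' 11 9 (by norm_num) (by norm_num)
  have h10 : cc 11 * cc 10 = cc 10 + cc 1 := prod_cc' 11 10 (by norm_num) (by norm_num)
  have h11 : cc 11 * cc 11 = cc 9 + cc 0 := prod_cc' 11 11 (by norm_num) (by norm_num)
  have h12 : cc 12 * cc 11 = cc 8 + cc 1 := prod_cc' 12 11 (by norm_num) (by norm_num)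
  have h13 : cc 13 * cc 11 = cc 7 + cc 2 := prod_cc' 13 11 (by norm_num) (by norm_num)
  have h14 : cc 14 * cc 11 = cc 6 + cc 3 := prod_cc' 14 11 (by norm_num) (by norm_num)
  have h15 : cc 15 * cc 11 = cc 5 + cc 4 := prod_cc' 15 11 (by norm_num) (by norm_num)
  rw [cc_zero] at h11
  linear_combination - b1 * h1 - b2 * h2 - b3 * h3 - b4 * h4 - b5 * h5 - b6 * h6 - b7 * h7 - b8 * h8 - b9 * h9 - b10 * h10 - b11 * h11 - b12 * h12 - b13 * h13 - b14 * h14 - b15 * h15 - 2 * b11 * sum_cc'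

theorem mulc_12 (b1 b2 b3 b4 b5 b6 b7 b8 b9 b10 b11 b12 b13 b14 b15 : ℤ) :
    vl (mulc 12 [b1, b2, b3, b4, b5, b6, b7, b8, b9, b10, b11, b12, b13, b14, b15]) =
    cc 12 * vl [b1, b2, b3, b4, b5, b6, b7, b8, b9, b10, b11, b12, b13, b14, b15] := by
  have e : mulc 12 [b1, b2, b3, b4, b5, b6, b7, b8, b9, b10, b11, b12, b13, b14, b15] = [b11 + b13 - 2 * b12, b10 + b14 - 2 * b12, b9 + b15 - 2 * b12, b8 + b15 - 2 * b12, b7 + b14 - 2 * b12, b6 + b13 - 2 * b12, b5 + b12 - 2 * b12, b4 + b11 - 2 * b12, b3 + b10 - 2 * b12, b2 + b9 - 2 * b12, b1 + b8 - 2 * b12, 0 + b7 - 2 * b12, b1 + b6 - 2 * b12, b2 + b5 - 2 * b12, b3 + b4 - 2 * b12] := rfl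
  rw [e, vl_eq, vl_eq]
  push_cast
  have h1 : cc 12 * cc 1 = cc 13 + cc 11 := prod_cc 12 1 (by norm_num)
  have h2 : cc 12 * cc 2 = cc 14 + cc 10 := prod_cc 12 2 (by norm_num)
  have h3 : cc 12 * cc 3 = cc 15 + cc 9 := prod_cc 12 3 (by norm_num)
  have h4 : cc 12 * cc 4 = cc 15 + cc 8 := prod_cc' 12 4 (by norm_num) (by norm_num)
  have h5 : cc 12 * cc 5 = cc 14 + cc 7 := prod_cc' 12 5 (by norm_num) (by norm_num)
  have h6 : cc 12 * cc 6 = cc 13 + cc 6 := prod_cc' 12 6 (by norm_num) (by norm_num)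
  have h7 : cc 12 * cc 7 = cc 12 + cc 5 := prod_cc' 12 7 (by norm_num) (by norm_num)
  have h8 : cc 12 * cc 8 = cc 11 + cc 4 := prod_cc' 12 8 (by norm_num) (by norm_num)
  have h9 : cc 12 * cc 9 = cc 10 + cc 3 := prod_cc' 12 9 (by norm_num) (by norm_num)
  have h10 : cc 12 * cc 10 = cc 9 + cc 2 := prod_cc' 12 10 (by norm_num) (by norm_num)
  have h11 : cc 12 * cc 11 = cc 8 + cc 1 := prod_cc' 12 11 (by norm_num) (by norm_num)
  have h12 : cc 12 * cc 12 = cc 7 + cc 0 := prod_cc' 12 12 (by norm_num) (by norm_num)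
  have h13 : cc 13 * cc 12 = cc 6 + cc 1 := prod_cc' 13 12 (by norm_num) (by norm_num)
  have h14 : cc 14 * cc 12 = cc 5 + cc 2 := prod_cc' 14 12 (by norm_num) (by norm_num)
  have h15 : cc 15 * cc 12 = cc 4 + cc 3 := prod_cc' 15 12 (by norm_num) (by norm_num)
  rw [cc_zero] at h12
  linear_combination - b1 * h1 - b2 * h2 - b3 * h3 - b4 * h4 - b5 * h5 - b6 * h6 - b7 * h7 - b8 * h8 - b9 * h9 - b10 * h10 - b11 * h11 - b12 * h12 - b13 * h13 - b14 * h14 - b15 * h15 - 2 * b12 * sum_cc'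

theorem mulc_13 (b1 b2 b3 b4 b5 b6 b7 b8 b9 b10 b11 b12 b13 b14 b15 : ℤ) :
    vl (mulc 13 [b1, b2, b3, b4, b5, b6, b7, b8, b9, b10, b11, b12, b13, b14, b15]) =
    cc 13 * vl [b1, b2, b3, b4, b5, b6, b7, b8, b9, b10, b11, b12, b13, b14, b15] := by
  have e : mulc 13 [b1, b2, b3, b4, b5, b6, b7, b8, b9, b10, b11, b12, b13, b14, b15] = [b12 + b14 - 2 * b13, b11 + b15 - 2 * b13, b10 + b15 - 2 * b13, b9 + b14 - 2 * b13, b8 + b13 - 2 * b13, b7 + b12 - 2 * b13, b6 + b11 - 2 * b13, b5 + b10 - 2 * b13, b4 + b9 - 2 * b13, b3 + b8 - 2 * b13, b2 + b7 - 2 * b13, b1 + b6 - 2 * b13, 0 + b5 - 2 * b13, b1 + b4 - 2 * b13, b2 + b3 - 2 * b13] := rfl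
  rw [e, vl_eq, vl_eq]
  push_cast
  have h1 : cc 13 * cc 1 = cc 14 + cc 12 := prod_cc 13 1 (by norm_num)
  have h2 : cc 13 * cc 2 = cc 15 + cc 11 := prod_cc 13 2 (by norm_num)
  have h3 : cc 13 * cc 3 = cc 15 + cc 10 := prod_cc' 13 3 (by norm_num) (by norm_num)
  have h4 : cc 13 * cc 4 = cc 14 + cc 9 := prod_cc' 13 4 (by norm_num) (by norm_num)
  have h5 : cc 13 * cc 5 = cc 13 + cc 8 := prod_cc' 13 5 (by norm_num) (by norm_num)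
  have h6 : cc 13 * cc 6 = cc 12 + cc 7 := prod_cc' 13 6 (by norm_num) (by norm_num)
  have h7 : cc 13 * cc 7 = cc 11 + cc 6 := prod_cc' 13 7 (by norm_num) (by norm_num)
  have h8 : cc 13 * cc 8 = cc 10 + cc 5 := prod_cc' 13 8 (by norm_num) (by norm_num)
  have h9 : cc 13 * cc 9 = cc 9 + cc 4 := prod_cc' 13 9 (by norm_num) (by norm_num)
  have h10 : cc 13 * cc 10 = cc 8 + cc 3 := prod_cc' 13 10 (by norm_num) (by norm_num)
  have h11 : cc 13 * cc 11 = cc 7 + cc 2 := prod_cc' 13 11 (by norm_num) (by norm_num)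
  have h12 : cc 13 * cc 12 = cc 6 + cc 1 := prod_cc' 13 12 (by norm_num) (by norm_num)
  have h13 : cc 13 * cc 13 = cc 5 + cc 0 := prod_cc' 13 13 (by norm_num) (by norm_num)
  have h14 : cc 14 * cc 13 = cc 4 + cc 1 := prod_cc' 14 13 (by norm_num) (by norm_num)
  have h15 : cc 15 * cc 13 = cc 3 + cc 2 := prod_cc' 15 13 (by norm_num) (by norm_num)
  rw [cc_zero] at h13
  linear_combination - b1 * h1 - b2 * h2 - b3 * h3 - b4 * h4 - b5 * h5 - b6 * h6 - b7 * h7 - b8 * h8 - b9 * h9 - b10 * h10 - b11 * h11 - b12 * h12 - b13 * h13 - b14 * h14 - b15 * h15 - 2 * b13 * sum_cc'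

theorem mulc_14 (b1 b2 b3 b4 b5 b6 b7 b8 b9 b10 b11 b12 b13 b14 b15 : ℤ) :
    vl (mulc 14 [b1, b2, b3, b4, b5, b6, b7, b8, b9, b10, b11, b12, b13, b14, b15]) =
    cc 14 * vl [b1, b2, b3, b4, b5, b6, b7, b8, b9, b10, b11, b12, b13, b14, b15] := by
  have e : mulc 14 [b1, b2, b3, b4, b5, b6, b7, b8, b9, b10, b11, b12, b13, b14, b15] = [b13 + b15 - 2 * b14, b12 + b15 - 2 * b14, b11 + b14 - 2 * b14, b10 + b13 - 2 * b14, b9 + b12 - 2 * b14, b8 + b11 - 2 * b14, b7 + b10 - 2 * b14, b6 + b9 - 2 * b14, b5 + b8 - 2 * b14, b4 + b7 - 2 * b14, b3 + b6 - 2 * b14, b2 + b5 - 2 * b14, b1 + b4 - 2 * b14, 0 + b3 - 2 * b14, b1 + b2 - 2 * b14] := rfl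
  rw [e, vl_eq, vl_eq]
  push_cast
  have h1 : cc 14 * cc 1 = cc 15 + cc 13 := prod_cc 14 1 (by norm_num)
  have h2 : cc 14 * cc 2 = cc 15 + cc 12 := prod_cc' 14 2 (by norm_num) (by norm_num)
  have h3 : cc 14 * cc 3 = cc 14 + cc 11 := prod_cc' 14 3 (by norm_num) (by norm_num)
  have h4 : cc 14 * cc 4 = cc 13 + cc 10 := prod_cc' 14 4 (by norm_num) (by norm_num)
  have h5 : cc 14 * cc 5 = cc 12 + cc 9 := prod_cc' 14 5 (by norm_num) (by norm_num)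
  have h6 : cc 14 * cc 6 = cc 11 + cc 8 := prod_cc' 14 6 (by norm_num) (by norm_num)
  have h7 : cc 14 * cc 7 = cc 10 + cc 7 := prod_cc' 14 7 (by norm_num) (by norm_num)
  have h8 : cc 14 * cc 8 = cc 9 + cc 6 := prod_cc' 14 8 (by norm_num) (by norm_num)
  have h9 : cc 14 * cc 9 = cc 8 + cc 5 := prod_cc' 14 9 (by norm_num) (by norm_num)
  have h10 : cc 14 * cc 10 = cc 7 + cc 4 := prod_cc' 14 10 (by norm_num) (by norm_num)
  have h11 : cc 14 * cc 11 = cc 6 + cc 3 := prod_cc' 14 11 (by norm_num) (by norm_num)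
  have h12 : cc 14 * cc 12 = cc 5 + cc 2 := prod_cc' 14 12 (by norm_num) (by norm_num)
  have h13 : cc 14 * cc 13 = cc 4 + cc 1 := prod_cc' 14 13 (by norm_num) (by norm_num)
  have h14 : cc 14 * cc 14 = cc 3 + cc 0 := prod_cc' 14 14 (by norm_num) (by norm_num)
  have h15 : cc 15 * cc 14 = cc 2 + cc 1 := prod_cc' 15 14 (by norm_num) (by norm_num)
  rw [cc_zero] at h14
  linear_combination - b1 * h1 - b2 * h2 - b3 * h3 - b4 * h4 - b5 * h5 - b6 * h6 - b7 * h7 - b8 * h8 - b9 * h9 - b10 * h10 - b11 * h11 - b12 * h12 - b13 * h13 - b14 * h14 - b15 * h15 - 2 * b14 * sum_cc'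

theorem mulc_15 (b1 b2 b3 b4 b5 b6 b7 b8 b9 b10 b11 b12 b13 b14 b15 : ℤ) :
    vl (mulc 15 [b1, b2, b3, b4, b5, b6, b7, b8, b9, b10, b11, b12, b13, b14, b15]) =
    cc 15 * vl [b1, b2, b3, b4, b5, b6, b7, b8, b9, b10, b11, b12, b13, b14, b15] := by
  have e : mulc 15 [b1, b2, b3, b4, b5, b6, b7, b8, b9, b10, b11, b12, b13, b14, b15] = [b14 + b15 - 2 * b15, b13 + b14 - 2 * b15, b12 + b13 - 2 * b15, b11 + b12 - 2 * b15, b10 + b11 - 2 * b15, b9 + b10 - 2 * b15, b8 + b9 - 2 * b15, b7 + b8 - 2 * b15, b6 + b7 - 2 * b15, b5 + b6 - 2 * b15, b4 + b5 - 2 * b15, b3 + b4 - 2 * b15, b2 + b3 - 2 * b15, b1 + b2 - 2 * b15, 0 + b1 - 2 * b15] := rfl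
  rw [e, vl_eq, vl_eq]
  push_cast
  have h1 : cc 15 * cc 1 = cc 15 + cc 14 := prod_cc' 15 1 (by norm_num) (by norm_num)
  have h2 : cc 15 * cc 2 = cc 14 + cc 13 := prod_cc' 15 2 (by norm_num) (by norm_num)
  have h3 : cc 15 * cc 3 = cc 13 + cc 12 := prod_cc' 15 3 (by norm_num) (by norm_num)
  have h4 : cc 15 * cc 4 = cc 12 + cc 11 := prod_cc' 15 4 (by norm_num) (by norm_num)
  have h5 : cc 15 * cc 5 = cc 11 + cc 10 := prod_cc' 15 5 (by norm_num) (by norm_num)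
  have h6 : cc 15 * cc 6 = cc 10 + cc 9 := prod_cc' 15 6 (by norm_num) (by norm_num)
  have h7 : cc 15 * cc 7 = cc 9 + cc 8 := prod_cc' 15 7 (by norm_num) (by norm_num)
  have h8 : cc 15 * cc 8 = cc 8 + cc 7 := prod_cc' 15 8 (by norm_num) (by norm_num)
  have h9 : cc 15 * cc 9 = cc 7 + cc 6 := prod_cc' 15 9 (by norm_num) (by norm_num)
  have h10 : cc 15 * cc 10 = cc 6 + cc 5 := prod_cc' 15 10 (by norm_num) (by norm_num)
  have h11 : cc 15 * cc 11 = cc 5 + cc 4 := prod_cc' 15 11 (by norm_num) (by norm_num)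
  have h12 : cc 15 * cc 12 = cc 4 + cc 3 := prod_cc' 15 12 (by norm_num) (by norm_num)
  have h13 : cc 15 * cc 13 = cc 3 + cc 2 := prod_cc' 15 13 (by norm_num) (by norm_num)
  have h14 : cc 15 * cc 14 = cc 2 + cc 1 := prod_cc' 15 14 (by norm_num) (by norm_num)
  have h15 : cc 15 * cc 15 = cc 1 + cc 0 := prod_cc' 15 15 (by norm_num) (by norm_num)
  rw [cc_zero] at h15
  linear_combination - b1 * h1 - b2 * h2 - b3 * h3 - b4 * h4 - b5 * h5 - b6 * h6 - b7 * h7 - b8 * h8 - b9 * h9 - b10 * h10 - b11 * h11 - b12 * h12 - b13 * h13 - b14 * h14 - b15 * h15 - 2 * b15 * sum_cc'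

theorem mulc_spec (i : ℕ) (h1 : 1 ≤ i) (h2 : i ≤ 15) (b : List ℤ) (hb : b.length = 15) :
    vl (mulc i b) = cc i * vl b := by
  match b, hb with
  | [b1, b2, b3, b4, b5, b6, b7, b8, b9, b10, b11, b12, b13, b14, b15], _ =>
    interval_cases i
    · exact mulc_1 _ _ _ _ _ _ _ _ _ _ _ _ _ _ _
    · exact mulc_2 _ _ _ _ _ _ _ _ _ _ _ _ _ _ _
    · exact mulc_3 _ _ _ _ _ _ _ _ _ _ _ _ _ _ _
    · exact mulc_4 _ _ _ _ _ _ _ _ _ _ _ _ _ _ _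
    · exact mulc_5 _ _ _ _ _ _ _ _ _ _ _ _ _ _ _
    · exact mulc_6 _ _ _ _ _ _ _ _ _ _ _ _ _ _ _
    · exact mulc_7 _ _ _ _ _ _ _ _ _ _ _ _ _ _ _
    · exact mulc_8 _ _ _ _ _ _ _ _ _ _ _ _ _ _ _
    · exact mulc_9 _ _ _ _ _ _ _ _ _ _ _ _ _ _ _
    · exact mulc_10 _ _ _ _ _ _ _ _ _ _ _ _ _ _ _
    · exact mulc_11 _ _ _ _ _ _ _ _ _ _ _ _ _ _ _
    · exact mulc_12 _ _ _ _ _ _ _ _ _ _ _ _ _ _ _
    · exact mulc_13 _ _ _ _ _ _ _ _ _ _ _ _ _ _ _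
    · exact mulc_14 _ _ _ _ _ _ _ _ _ _ _ _ _ _ _
    · exact mulc_15 _ _ _ _ _ _ _ _ _ _ _ _ _ _ _

end Pool.Agent.Helper2.E8A
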