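import Pool.Agent.Helper2.E8A.KpTa

/-!
# E8A-KPT: the check of a certificate
-/

set_option autoImplicit false

namespace Pool.Agent.Helper2.E8A

open NumberField Polynomial IsDedekindDomain nonZeroDivisors

theorem mulc_length (i : ℕ) (h2 : i ≤ 15) (b : List ℤ) (hb : b.length = 15) : (mulc i b).length = 15 := by
  unfold mulc ext
  rw [List.length_zipWith, List.length_take, List.length_drop, List.length_drop]
  simp only [List.length_append, List.length_reverse, List.length_take, List.length_cons, hb]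
  omega

theorem vl_zipWith (a : ℤ) (x y : List ℤ) (hx : x.length = 15) (hy : y.length = 15) :
    vl (List.zipWith (fun x y => a * x + y) x y) = (a : 𝓞 Kp) * vl x + vl y := by
  unfold vl val
  rw [Finset.mul_sum, ← Finset.sum_add_distrib]
  refine Finset.sum_congr rfl fun i _ => ?_
  have h : (List.zipWith (fun x y => a * x + y) x y).getD i.val 0 = a * x.getD i.val 0 + y.getD i.val 0 := by
    have h1 : i.val < x.length := by rw [hx]; exact i.isLt
    have h2 : i.val < y.length := by rw [hy]; exact i.isLt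
    rw [List.getD_eq_getElem _ _ (by rw [List.length_zipWith]; exact lt_min h1 h2), List.getD_eq_getElem _ _ h1,
      List.getD_eq_getElem _ _ h2, List.getElem_zipWith]
  beta_reduce
  rw [h]
  push_cast
  ring

theorem vl_map (a : ℤ) (x : List ℤ) : vl (x.map (a * ·)) = (a : 𝓞 Kp) * vl x := by
  unfold vl val
  rw [Finset.mul_sum]
  refine Finset.sum_congr rfl fun i _ => ?_
  have h : (x.map (a * ·)).getD i.val 0 = a * x.getD i.val 0 := by
    rw [List.getD_eq_getElem?_getD, List.getD_eq_getElem?_getD, List.getElem?_map]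
    cases x[i.val]? <;> simp
  beta_reduce
  rw [h]
  push_cast
  ring

theorem mulS_length (n₀ : ℤ) (s : List (ℕ × ℤ)) (hs : ∀ t ∈ s, 1 ≤ t.1 ∧ t.1 ≤ 15) (b : List ℤ) (hb : b.length = 15) :
    (mulS n₀ s b).length = 15 := by
  induction s with
  | nil => simp [mulS, hb]
  | cons t s ih =>
    have h1 := ih (fun t' ht => hs t' (List.mem_cons_of_mem _ ht))
    change (List.zipWith (fun x y => t.2 * x + y) (mulc t.1 b) (mulS n₀ s b)).length = 15
    rw [List.length_zipWith, h1, mulc_length t.1 (hs t List.mem_cons_self).2 b hb, min_self]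

theorem mulS_spec (n₀ : ℤ) (s : List (ℕ × ℤ)) (hs : ∀ t ∈ s, 1 ≤ t.1 ∧ t.1 ≤ 15) (b : List ℤ) (hb : b.length = 15) :
    vl (mulS n₀ s b) = vs n₀ s * vl b := by
  induction s with
  | nil => exact vl_map n₀ b
  | cons t s ih =>
    have hs' : ∀ t' ∈ s, 1 ≤ t'.1 ∧ t'.1 ≤ 15 := fun t' ht => hs t' (List.mem_cons_of_mem _ ht)
    have h1 := ih hs'
    change vl (List.zipWith (fun x y => t.2 * x + y) (mulc t.1 b) (mulS n₀ s b)) = ((t.2 : 𝓞 Kp) * cc t.1 + vs n₀ s) * vl b
    have ht := hs t List.mem_cons_self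
    rw [vl_zipWith _ _ _ (mulc_length t.1 ht.2 b hb) (mulS_length n₀ s hs' b hb), h1,
      mulc_spec t.1 ht.1 ht.2 b hb]
    ring

/-- A certificate: `α = n₀ + ∑ a cc i`, `β = p / α`, `γ = (cc 1 - r) / α`. -/
structure Row where
  p : ℕ
  r : ℤ
  n₀ : ℤ
  s : List (ℕ × ℤ)
  β : List ℤ
  γ : List ℤ

/-- The list of the coordinates of an integer `-a`. -/
def cst (a : ℤ) : List ℤ := [a, a, a, a, a, a, a, a, a, a, a, a, a, a, a]

theorem vl_cst (a : ℤ) : vl (cst a) = - (a : 𝓞 Kp) := by
  rw [cst, vl_eq]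
  linear_combination (a : 𝓞 Kp) * sum_cc'

theorem vl_one_add (r : ℤ) : vl (((1 + r) : ℤ) :: [r, r, r, r, r, r, r, r, r, r, r, r, r, r]) = cc 1 - (r : 𝓞 Kp) := by
  rw [vl_eq]
  push_cast
  linear_combination (r : 𝓞 Kp) * sum_cc'

/-- The check. -/
def chk (t : Row) : Bool :=
  t.s.all (fun x => 1 ≤ x.1 && x.1 ≤ 15) && t.β.length == 15 && t.γ.length == 15 &&
  decide (mulS t.n₀ t.s t.β = cst (-t.p)) &&
  decide (mulS t.n₀ t.s t.γ = (1 + t.r) :: [t.r, t.r, t.r, t.r, t.r, t.r, t.r, t.r, t.r, t.r, t.r, t.r, t.r, t.r]) &&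
  t.β.any (fun x => decide (x % t.p ≠ 0))

theorem vl_dvd {p : ℕ} {b : List ℤ} (hb : b.length = 15) (h : (p : 𝓞 Kp) ∣ vl b) : ∀ x ∈ b, (p : ℤ) ∣ x := by
  obtain ⟨y, hy⟩ := h
  obtain ⟨c, rfl⟩ := val_surj y
  have h1 : vl b = val (fun i => (p : ℤ) * c i) := by
    rw [hy]
    unfold val
    rw [Finset.mul_sum]
    refine Finset.sum_congr rfl fun i _ => ?_
    push_cast
    ring
  have h2 := val_inj h1
  intro x hx
  obtain ⟨i, hi, rfl⟩ := List.mem_iff_getElem.mp hx
  have h3 := congrFun h2 ⟨i, by rw [← hb]; exact hi⟩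
  simp only at h3
  rw [List.getD_eq_getElem _ _ hi] at h3
  exact ⟨_, h3⟩

theorem row_spec (t : Row) (h : chk t = true) (hp : t.p.Prime) :
    ∃ P ∈ Ideal.primesOver (Ideal.span {(t.p : ℤ)}) (𝓞 Kp), Submodule.IsPrincipal P := by
  simp only [chk, Bool.and_eq_true, List.all_eq_true, decide_eq_true_eq, beq_iff_eq, List.any_eq_true] at h
  obtain ⟨⟨⟨⟨⟨h1, h2⟩, h3⟩, h4⟩, h5⟩, x, hx, h6⟩ := h
  refine cert_one hp (α := vs t.n₀ t.s) (β := vl t.β) (γ := vl t.γ) (r := t.r) ?_ ?_ ?_
  · rw [← mulS_spec t.n₀ t.s h1 t.β h2, h4, vl_cst]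
    push_cast
    ring
  · rw [← mulS_spec t.n₀ t.s h1 t.γ h3, h5, vl_one_add]
  · intro h
    exact h6 (Int.emod_eq_zero_of_dvd (vl_dvd h2 h x hx))

/-- The primality check of an arithmetic progression of difference `31`: every `n` is in the table or has a common
divisor with `Q` and is larger than `B`. -/
def prg (Q B : ℕ) : ℕ → ℕ → List ℕ → Bool
  | 0, _, _ => true
  | k + 1, n, l =>
    match l with
    | [] => (Nat.gcd n Q != 1 && Nat.blt B n) && prg Q B k (n + 31) []
    | a :: l' => if Nat.beq a n then prg Q B k (n + 31) l' else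
        (Nat.gcd n Q != 1 && Nat.blt B n) && prg Q B k (n + 31) (a :: l')

theorem prg_spec {Q B : ℕ} (hQ : ∀ q : ℕ, q.Prime → q ∣ Q → q ≤ B) : ∀ (k n : ℕ) (l : List ℕ), prg Q B k n l = true →
    ∀ j < k, (n + 31 * j).Prime → n + 31 * j ∈ l
  | 0, _, _, _, j, hj, _ => absurd hj (Nat.not_lt_zero j)
  | k + 1, n, l, h, j, hj, hp => by
    have key : ∀ m : ℕ, Nat.gcd m Q ≠ 1 → B < m → ¬ m.Prime := by
      intro m h1 h2 h3
      rcases (Nat.Prime.eq_one_or_self_of_dvd h3 _ (Nat.gcd_dvd_left m Q)) with h4 | h4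
      · exact h1 h4
      · have h5 : m ∣ Q := by rw [← h4]; exact Nat.gcd_dvd_right m Q
        exact absurd (hQ m h3 h5) (not_le.mpr h2)
    cases l with
    | nil =>
      simp only [prg, Bool.and_eq_true, bne_iff_ne, ne_eq, Nat.blt_eq] at h
      cases j with
      | zero => exact absurd (by simpa using hp) (key n h.1.1 h.1.2)
      | succ j =>
        have := prg_spec hQ k (n + 31) [] h.2 j (by omega) (by rwa [show n + 31 + 31 * j = n + 31 * (j + 1) by ring])
        simp at this
    | cons a l' =>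
      unfold prg at h
      by_cases ha : Nat.beq a n
      · simp only [ha, if_true] at h
        have ha' : a = n := Nat.eq_of_beq_eq_true ha
        cases j with
        | zero => simp [ha']
        | succ j =>
          have := prg_spec hQ k (n + 31) l' h j (by omega) (by rwa [show n + 31 + 31 * j = n + 31 * (j + 1) by ring])
          rw [show n + 31 + 31 * j = n + 31 * (j + 1) by ring] at this
          exact List.mem_cons_of_mem _ this
      · simp only [ha, Bool.and_eq_true, bne_iff_ne, ne_eq, Nat.blt_eq, if_false, Bool.false_eq_true] at h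
        cases j with
        | zero => exact absurd (by simpa using hp) (key n h.1.1 h.1.2)
        | succ j =>
          have := prg_spec hQ k (n + 31) (a :: l') h.2 j (by omega) (by rwa [show n + 31 + 31 * j = n + 31 * (j + 1) by ring])
          rwa [show n + 31 + 31 * j = n + 31 * (j + 1) by ring] at this

end Pool.Agent.Helper2.E8A
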