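import Pool.Agent.Helper2.E8A.Sig

/-!
# Block E8A-SGN: all signatures occur

For `m` prime to `31` let `η m = (ζ ^ m - ζ ^ (-m)) / (ζ - ζ⁻¹)`, a real unit (cyclotomic unit; `ζ ^ (2 m) - 1` and `ζ ^ 2 - 1` are
associated: `IsPrimitiveRoot.associated_sub_one_pow_sub_one_of_coprime` or direct: quotient `1 + ζ^2 + ... `, and the inverse
quotient with an inverse exponent). For an embedding with `φ ζ = exp (2 π i j / 31)`:
`φ (η m) = sin (2 π m j / 31) / sin (2 π j / 31)`, which is positive iff `s (m j) = s (j)` where `s (n)` says that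
`n mod 31 ∈ {1, ..., 15}` (`Real.sin_pos_of_pos_of_lt_pi`, periodicity). The 15 vectors (signs at `j = 1, ..., 15`) of `-1` and
`η 2, ..., η 15` are a basis of `𝔽₂ ^ 15` (the matrix has rank 15, checked by computer; give for every `j` the subset of the
generators whose product has the sign `-1` exactly at `j`, `decide`).
`Emb j φ` says that `φ ζ = exp (2 π i j / 31)`.
-/

set_option autoImplicit false

namespace Pool.Agent.Helper2.E8A

open NumberField Polynomial IsDedekindDomain nonZeroDivisors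

/-- The embedding `ζ ↦ exp (2 π i j / 31)`. -/
def Emb (j : ℕ) (φ : K →+* ℂ) : Prop := φ ζ = Complex.exp (2 * Real.pi * Complex.I * j / 31)

/-- The sign of `sin (2 π m i / 31)`. -/
def sg86 (m i : ℕ) : ℤ := if (m * i) % 31 ≤ 15 then 1 else -1

/-- The sign vector `s` is the signature of a real unit. -/
def HS86 (s : ℕ → ℤ) : Prop := ∃ ε : (𝓞 K)ˣ, Rl ((ε : 𝓞 K) : K) ∧
    ∀ i : ℕ, 1 ≤ i → i ≤ 15 → ∀ φ : K →+* ℂ, Emb i φ →
      (φ ((ε : 𝓞 K) : K)).im = 0 ∧ 0 < (s i : ℝ) * (φ ((ε : 𝓞 K) : K)).re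

theorem coe_mul86 (ε δ : (𝓞 K)ˣ) : (((ε * δ : (𝓞 K)ˣ) : 𝓞 K) : K) =
    ((ε : 𝓞 K) : K) * ((δ : 𝓞 K) : K) := rfl

theorem coe_pow86 (ε : (𝓞 K)ˣ) (n : ℕ) : (((ε ^ n : (𝓞 K)ˣ) : 𝓞 K) : K) =
    ((ε : 𝓞 K) : K) ^ n := by
  rw [Units.val_pow_eq_pow_val]
  exact map_pow (algebraMap (𝓞 K) K) _ _

theorem HS_mul86 {s t : ℕ → ℤ} (hs : HS86 s) (ht : HS86 t) : HS86 (fun i => s i * t i) := by
  obtain ⟨ε, h1, h2⟩ := hs
  obtain ⟨δ, h3, h4⟩ := ht
  refine ⟨ε * δ, ?_, ?_⟩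
  · unfold Rl at *
    rw [coe_mul86, map_mul, h1, h3]
  · intro i hi hi' φ hφ
    obtain ⟨h5, h6⟩ := h2 i hi hi' φ hφ
    obtain ⟨h7, h8⟩ := h4 i hi hi' φ hφ
    rw [coe_mul86, map_mul]
    refine ⟨?_, ?_⟩
    · rw [Complex.mul_im, h5, h7]
      ring
    · rw [Complex.mul_re, h5, h7]
      have := mul_pos h6 h8
      push_cast
      nlinarith [this]

theorem HS_one86 : HS86 (fun _ => 1) := by
  refine ⟨1, ?_, ?_⟩
  · unfold Rl
    simp
  · intro i hi hi' φ hφ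
    simp

theorem HS_neg86 : HS86 (fun _ => -1) := by
  refine ⟨-1, ?_, ?_⟩
  · unfold Rl
    simp
  · intro i hi hi' φ hφ
    simp

theorem exists_eta86 (m : ℕ) (hm : m.Coprime 31) : ∃ ε : (𝓞 K)ˣ,
    ((ε : 𝓞 K) : K) * (ζ - ζ⁻¹) = ζ ^ m - ζ⁻¹ ^ m := by
  have hz : ζ ≠ 0 := hζ.ne_zero (by norm_num)
  have h2 : IsPrimitiveRoot (hζ.toInteger ^ 2) 31 :=
    hζ.toInteger_isPrimitiveRoot.pow_of_coprime 2 (by norm_num)
  obtain ⟨u, hu⟩ := h2.associated_sub_one_pow_sub_one_of_coprime hm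
  have hu' : ((hζ.toInteger : 𝓞 K) : K) = ζ := rfl
  have h3 : (ζ ^ 2 - 1) * ((u : 𝓞 K) : K) = (ζ ^ 2) ^ m - 1 := by
    have := congrArg (algebraMap (𝓞 K) K) hu
    simp only [map_mul, map_sub, map_pow, map_one] at this
    exact this
  have hzu : IsUnit (hζ.toInteger) := hζ.toInteger_isPrimitiveRoot.isUnit (by norm_num)
  obtain ⟨z, hz'⟩ := hzu
  have hz1 : ((z : 𝓞 K) : K) = ζ := by rw [hz']; rfl
  have hz2 : (((z⁻¹ : (𝓞 K)ˣ) : 𝓞 K) : K) = ζ⁻¹ := by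
    have h4 : ((z : 𝓞 K) : K) * (((z⁻¹ : (𝓞 K)ˣ) : 𝓞 K) : K) = 1 := by
      simp
    rw [hz1] at h4
    exact (inv_eq_of_mul_eq_one_right h4).symm
  refine ⟨u * z * (z⁻¹) ^ m, ?_⟩
  have h5 : (((u * z * (z⁻¹) ^ m : (𝓞 K)ˣ) : 𝓞 K) : K) =
      ((u : 𝓞 K) : K) * ζ * ζ⁻¹ ^ m := by
    rw [coe_mul86, coe_mul86, coe_pow86, hz1, hz2]
  rw [h5]
  have h6 : ζ * (ζ - ζ⁻¹) = ζ ^ 2 - 1 := by
    field_simp
  calc ((u : 𝓞 K) : K) * ζ * ζ⁻¹ ^ m * (ζ - ζ⁻¹)
      = ((ζ * (ζ - ζ⁻¹)) * ((u : 𝓞 K) : K)) * ζ⁻¹ ^ m := by ring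
    _ = ((ζ ^ 2) ^ m - 1) * ζ⁻¹ ^ m := by rw [h6, h3]
    _ = ζ ^ m - ζ⁻¹ ^ m := by
        rw [inv_pow, ← pow_mul, mul_comm 2 m, pow_mul]
        have : ζ ^ m ≠ 0 := pow_ne_zero _ hz
        field_simp

theorem z_sub_ne86 : (ζ - ζ⁻¹ : K) ≠ 0 := by
  intro h
  have hz : ζ ≠ 0 := hζ.ne_zero (by norm_num)
  have h1 : ζ ^ 2 = 1 := by
    have : ζ * (ζ - ζ⁻¹) = 0 := by rw [h, mul_zero]
    have h6 : ζ * (ζ - ζ⁻¹) = ζ ^ 2 - 1 := by
      field_simp
    rw [h6] at this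
    exact sub_eq_zero.mp this
  have := hζ.dvd_of_pow_eq_one 2 h1
  omega

theorem sin_sg86 (n : ℕ) (hn : ¬ 31 ∣ n) :
    0 < ((if n % 31 ≤ 15 then 1 else -1 : ℤ) : ℝ) * Real.sin (2 * Real.pi * n / 31) := by
  have hpi := Real.pi_pos
  set r := n % 31 with hr
  have hr0 : r ≠ 0 := fun h => hn (Nat.dvd_of_mod_eq_zero h)
  have hr1 : r < 31 := Nat.mod_lt _ (by norm_num)
  have hnr : n = r + 31 * (n / 31) := (Nat.mod_add_div n 31).symm
  have h1 : Real.sin (2 * Real.pi * n / 31) = Real.sin (2 * Real.pi * r / 31) := by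
    have : (2 * Real.pi * n / 31 : ℝ) = 2 * Real.pi * r / 31 + ((n / 31 : ℕ) : ℝ) * (2 * Real.pi) := by
      conv_lhs => rw [hnr]
      push_cast
      ring
    rw [this, Real.sin_add_nat_mul_two_pi]
  rw [h1]
  by_cases h : r ≤ 15
  · rw [if_pos h]
    have h2 : 0 < Real.sin (2 * Real.pi * r / 31) := by
      apply Real.sin_pos_of_pos_of_lt_pi
      · have : (0 : ℝ) < r := by exact_mod_cast Nat.pos_of_ne_zero hr0
        positivity
      · have : (r : ℝ) ≤ 15 := by exact_mod_cast h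
        have h3 : 2 * Real.pi * r ≤ 2 * Real.pi * 15 := by
          apply mul_le_mul_of_nonneg_left this; positivity
        rw [div_lt_iff₀ (by norm_num)]
        nlinarith
    simpa using h2
  · rw [if_neg h]
    have h2 : Real.sin (2 * Real.pi * r / 31) < 0 := by
      have h4 : Real.sin (2 * Real.pi * r / 31) = Real.sin (2 * Real.pi * r / 31 - 2 * Real.pi) := by
        rw [Real.sin_sub_two_pi]
      rw [h4]
      apply Real.sin_neg_of_neg_of_neg_pi_lt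
      · have : (r : ℝ) < 31 := by exact_mod_cast hr1
        have h3 : 2 * Real.pi * r / 31 < 2 * Real.pi := by
          rw [div_lt_iff₀ (by norm_num)]
          nlinarith
        linarith
      · have : (16 : ℝ) ≤ r := by exact_mod_cast (by omega : 16 ≤ r)
        have h3 : Real.pi < 2 * Real.pi * r / 31 := by
          rw [lt_div_iff₀ (by norm_num)]
          nlinarith
        linarith
    push_cast
    linarith

theorem HS_eta86 (m : ℕ) (hm : m.Coprime 31) : HS86 (fun i => sg86 m i) := by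
  obtain ⟨ε, hε⟩ := exists_eta86 m hm
  refine ⟨ε, ?_, ?_⟩
  · unfold Rl
    have h1 := congrArg (fun x => (σ ^ 15) x) hε
    have hi : (σ ^ 15) ζ⁻¹ = ζ := by
      have h2 := σ15_σ15 ζ
      rwa [σ15_ζ] at h2
    rw [map_mul, map_sub, map_sub, map_pow, map_pow, hi, σ15_ζ] at h1
    apply mul_right_cancel₀ z_sub_ne86
    rw [hε]
    linear_combination -h1
  · intro i hi hi' φ hφ
    unfold Emb at hφ
    set θ : ℝ := 2 * Real.pi * i / 31 with hθ
    have e1 : φ ζ = Complex.exp ((θ : ℂ) * Complex.I) := by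
      rw [hφ]
      congr 1
      rw [hθ]
      push_cast
      ring
    have e2 : φ ζ⁻¹ = Complex.exp (-(θ : ℂ) * Complex.I) := by
      rw [map_inv₀, e1, ← Complex.exp_neg]
      congr 1
      ring
    have h1 : φ ((ε : 𝓞 K) : K) * (φ ζ - φ ζ⁻¹) = φ ζ ^ m - φ ζ⁻¹ ^ m := by
      rw [← map_sub, ← map_mul, hε, map_sub, map_pow, map_pow]
    have h2 : φ ζ - φ ζ⁻¹ = 2 * Complex.I * (Real.sin θ : ℂ) := by
      rw [e1, e2, Complex.ofReal_sin, Complex.sin]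
      have : Complex.I * Complex.I = -1 := Complex.I_mul_I
      linear_combination (Complex.exp ((θ : ℂ) * Complex.I) - Complex.exp (-(θ : ℂ) * Complex.I)) * this
    have h3 : φ ζ ^ m - φ ζ⁻¹ ^ m = 2 * Complex.I * (Real.sin (m * θ) : ℂ) := by
      rw [e1, e2, ← Complex.exp_nat_mul, ← Complex.exp_nat_mul, Complex.ofReal_sin, Complex.sin]
      have : Complex.I * Complex.I = -1 := Complex.I_mul_I
      have a1 : ((m : ℂ) * ((θ : ℂ) * Complex.I)) = (((m * θ : ℝ) : ℂ) * Complex.I) := by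
        push_cast; ring
      have a2 : ((m : ℂ) * (-(θ : ℂ) * Complex.I)) = (-((m * θ : ℝ) : ℂ) * Complex.I) := by
        push_cast; ring
      rw [a1, a2]
      linear_combination (Complex.exp ((((m * θ : ℝ)) : ℂ) * Complex.I) -
        Complex.exp (-((m * θ : ℝ) : ℂ) * Complex.I)) * this
    rw [h2, h3] at h1
    have hs : 0 < Real.sin θ := by
      have := sin_sg86 i (by omega)
      rw [Nat.mod_eq_of_lt (by omega : i < 31), if_pos hi'] at this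
      simpa using this
    have h4 : φ ((ε : 𝓞 K) : K) * (Real.sin θ : ℂ) = (Real.sin (m * θ) : ℂ) := by
      have hI : (2 * Complex.I : ℂ) ≠ 0 := by simp
      apply mul_left_cancel₀ hI
      rw [← h1]
      ring
    have h5 : φ ((ε : 𝓞 K) : K) = ((Real.sin (m * θ) / Real.sin θ : ℝ) : ℂ) := by
      have : (Real.sin θ : ℂ) ≠ 0 := by exact_mod_cast hs.ne'
      rw [Complex.ofReal_div, eq_div_iff this]
      exact h4
    rw [h5]
    refine ⟨Complex.ofReal_im _, ?_⟩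
    rw [Complex.ofReal_re]
    have h6 : ¬ 31 ∣ m * i := by
      intro h
      have h7 : 31 ∣ i := (Nat.Coprime.symm hm).dvd_of_dvd_mul_left h
      have := Nat.le_of_dvd (by omega) h7
      omega
    have h8 := sin_sg86 (m * i) h6
    have h9 : (2 * Real.pi * ((m * i : ℕ) : ℝ) / 31 : ℝ) = m * θ := by
      rw [hθ]; push_cast; ring
    rw [h9] at h8
    have h10 := div_pos h8 hs
    rw [mul_div_assoc] at h10
    exact h10

/-- The generators whose product is negative exactly at `j` (`0` stands for `-1`). -/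
def tb86 : ℕ → List ℕ
  | 1 => [0, 2, 4, 8, 9, 10, 12, 15]
  | 2 => [2, 4, 5, 6, 8, 11, 15]
  | 3 => [3, 4, 5, 7, 9, 10, 11, 13]
  | 4 => [2, 3, 4, 8, 10, 13, 15]
  | 5 => [2, 3, 6, 7, 8, 10, 12, 14]
  | 6 => [2, 5, 9, 10, 11, 12, 13, 14]
  | 7 => [3, 5, 9, 10, 11, 12, 13, 15]
  | 8 => [2, 4, 5, 8, 9, 14, 15]
  | 9 => [3, 6, 7, 8, 9, 12, 14]
  | 10 => [3, 4, 5, 6, 7, 12, 14]
  | 11 => [2, 3, 6, 7, 12, 13, 14, 15]
  | 12 => [5, 6, 7, 9, 10, 11, 13]
  | 13 => [3, 4, 6, 7, 11, 12, 14, 15]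
  | 14 => [5, 6, 8, 9, 10, 11, 13, 14]
  | 15 => [2, 4, 7, 8, 11, 13, 15]
  | _ => []

/-- The signature of a generator. -/
def gs86 (m i : ℕ) : ℤ := if m = 0 then -1 else sg86 m i

theorem HS_gs86 (m : ℕ) (hm : m ≤ 15) : HS86 (fun i => gs86 m i) := by
  unfold gs86
  by_cases h : m = 0
  · simp only [h, if_true]
    exact HS_neg86
  · simp only [h, if_false]
    apply HS_eta86
    apply Nat.Coprime.symm
    rw [Nat.Prime.coprime_iff_not_dvd (by norm_num)]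
    intro h'
    have := Nat.le_of_dvd (by omega) h'
    omega

theorem HS_list86 : ∀ L : List ℕ, (∀ m ∈ L, m ≤ 15) →
    HS86 (fun i => (L.map (fun m => gs86 m i)).prod)
  | [], _ => by simpa using HS_one86
  | m :: L, h => by
    have h1 := HS_mul86 (HS_gs86 m (h m (by simp)))
      (HS_list86 L (fun m' hm' => h m' (by simp [hm'])))
    simpa using h1

theorem tb_spec86 : ∀ j ∈ Finset.Icc 1 15, (∀ m ∈ tb86 j, m ≤ 15) ∧
    ∀ i ∈ Finset.Icc 1 15, ((tb86 j).map (fun m => gs86 m i)).prod = if i = j then -1 else 1 := by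
  decide +kernel

/-- There is a real unit which is negative at the `j`-th embedding and positive at the others. -/
theorem exists_sgn (j : ℕ) (h1 : 1 ≤ j) (h2 : j ≤ 15) : ∃ ε : (𝓞 K)ˣ, Rl ((ε : 𝓞 K) : K) ∧
    ∀ i : ℕ, 1 ≤ i → i ≤ 15 → ∀ φ : K →+* ℂ, Emb i φ →
      (i = j → (φ ((ε : 𝓞 K) : K)).re < 0) ∧ (i ≠ j → 0 < (φ ((ε : 𝓞 K) : K)).re) := by
  obtain ⟨h3, h4⟩ := tb_spec86 j (Finset.mem_Icc.mpr ⟨h1, h2⟩)
  obtain ⟨ε, h5, h6⟩ := HS_list86 (tb86 j) h3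
  refine ⟨ε, h5, ?_⟩
  intro i hi hi' φ hφ
  obtain ⟨-, h7⟩ := h6 i hi hi' φ hφ
  beta_reduce at h7
  rw [h4 i (Finset.mem_Icc.mpr ⟨hi, hi'⟩)] at h7
  refine ⟨?_, ?_⟩
  · intro h
    rw [if_pos h] at h7
    push_cast at h7
    linarith
  · intro h
    rw [if_neg h] at h7
    push_cast at h7
    linarith

end Pool.Agent.Helper2.E8A
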