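import Pool.Agent.Helper2.E8A.Sgn
import Pool.Agent.Helper2.E8A.Hil

/-!
# Block E8A-SQU: totally positive units are squares

The group of real units of `𝓞 K` is the group of units of `K⁺ = maximalRealSubfield K` (`NumberField.IsCMField.realUnits`,
`mem_realUnits_iff`, `unitsComplexConj_eq_self_iff`), whose rank is `14` (`[K⁺ : ℚ] = 15`, totally real; or
`units_rank_eq_units_rank` and the rank of `K`) and whose torsion is `± 1`. So every real unit is
`± ∏_{i < 14} f i ^ n i` (`NumberField.Units.exist_unique_eq_mul_prod`, `realFundSystem`, `closure_realFundSystem_sup_torsion`), hence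
`δ ^ 2 * (-1) ^ b 0 * ∏ f i ^ b (i + 1)` with a real unit `δ` and bits `b`. The signs at the 15 embeddings of
`(-1) ^ b 0 * ∏ f i ^ b (i + 1)` give a map from `2 ^ 15` bit vectors to the `2 ^ 15` sign vectors. It is surjective: every sign vector is
the sign vector of a real unit (products of the units of `exists_sgn`), and `δ ^ 2` has positive signs. So it is injective
(`Finite.injective_iff_surjective`-type argument for equal cardinalities). If all signs of `e` are positive then `b = 0` and
`e = δ ^ 2`. A real unit has real nonzero conjugates (`conj_emb`). The embeddings `Emb j`, `1 ≤ j ≤ 15`, and their complex conjugates are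
all embeddings (`emb_eq`).
-/

set_option autoImplicit false

namespace Pool.Agent.Helper2.E8A

open NumberField Polynomial IsDedekindDomain nonZeroDivisors

/-- the image of a unit of the maximal real subfield -/
private noncomputable def toK (v : (𝓞 (maximalRealSubfield K))ˣ) : K :=
  algebraMap (𝓞 (maximalRealSubfield K)) K (v : 𝓞 (maximalRealSubfield K))

private theorem toK_mul (v w : (𝓞 (maximalRealSubfield K))ˣ) : toK (v * w) = toK v * toK w := by
  simp [toK]

private theorem toK_one : toK 1 = 1 := by simp [toK]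

private theorem toK_ne (v : (𝓞 (maximalRealSubfield K))ˣ) : toK v ≠ 0 := by
  intro h
  have h1 : toK v * toK v⁻¹ = 1 := by rw [← toK_mul, mul_inv_cancel, toK_one]
  rw [h, zero_mul] at h1
  exact zero_ne_one h1

private theorem conj_sigma (x : K) : IsCMField.complexConj K x = (σ ^ 15) x := by
  have φ : K →+* ℂ := Classical.choice inferInstance
  apply φ.injective
  rw [IsCMField.complexEmbedding_complexConj, ← conj_emb]

private theorem toK_rl (v : (𝓞 (maximalRealSubfield K))ˣ) : Rl (toK v) := by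
  unfold Rl
  rw [← conj_sigma]
  exact (IsCMField.complexConj_eq_self_iff K _).2 (by
    unfold toK
    rw [IsScalarTower.algebraMap_apply (𝓞 (maximalRealSubfield K)) (maximalRealSubfield K) K]
    exact SetLike.coe_mem _)

private theorem rl_iff (x : K) : Rl x ↔ IsCMField.complexConj K x = x := by
  unfold Rl
  rw [← conj_sigma]

private theorem im_zero {x : K} (hx : Rl x) (φ : K →+* ℂ) : (φ x).im = 0 := by
  have h2 : IsCMField.complexConj K x = x := (rl_iff x).1 hx
  have h1 : φ (IsCMField.complexConj K x) = starRingEnd ℂ (φ x) := IsCMField.complexEmbedding_complexConj K φ x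
  rw [h2] at h1
  exact Complex.conj_eq_iff_im.1 h1.symm

private theorem re_mul {x y : K} (hx : Rl x) (φ : K →+* ℂ) : (φ (x * y)).re = (φ x).re * (φ y).re := by
  rw [map_mul, Complex.mul_re, im_zero hx φ, zero_mul, sub_zero]

private theorem re_ne {x : K} (hx : Rl x) (h0 : x ≠ 0) (φ : K →+* ℂ) : (φ x).re ≠ 0 := by
  intro h
  apply h0
  apply φ.injective
  rw [map_zero]
  exact Complex.ext h (im_zero hx φ)

private theorem exists_toK (e : (𝓞 K)ˣ) (hr : Rl ((e : 𝓞 K) : K)) : ∃ v, toK v = ((e : 𝓞 K) : K) := by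
  have h1 : IsCMField.complexConj K ((e : 𝓞 K) : K) = ((e : 𝓞 K) : K) := by
    unfold Rl at hr
    rw [conj_sigma, hr]
  exact (NumberField.IsCMField.Units.complexConj_eq_self_iff K e).1 h1

/-- the embeddings -/
private theorem embs : ∃ φ : Fin 15 → (K →+* ℂ), ∀ i : Fin 15, Emb (i + 1) (φ i) := by
  have h : ∀ i : Fin 15, ∃ φ : K →+* ℂ, Emb (i + 1) φ := fun i => exists_emb (i + 1) (by
    intro h
    have := Nat.le_of_dvd (by omega) h
    omega)
  choose φ hφ using h
  exact ⟨φ, hφ⟩

private theorem surj_aux (φ : Fin 15 → (K →+* ℂ)) (hφ : ∀ i : Fin 15, Emb (i + 1) (φ i)) (J : Finset (Fin 15)) :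
    ∃ ε : (𝓞 K)ˣ, Rl ((ε : 𝓞 K) : K) ∧ ∀ i, (i ∈ J → (φ i ((ε : 𝓞 K) : K)).re < 0) ∧
      (i ∉ J → 0 < (φ i ((ε : 𝓞 K) : K)).re) := by
  classical
  induction J using Finset.induction_on with
  | empty =>
    refine ⟨1, ?_, fun i => ⟨fun h => absurd h (Finset.notMem_empty i), fun _ => ?_⟩⟩
    · simp [Rl]
    · simp
  | insert j J hj ih =>
    obtain ⟨ε, h1, h2⟩ := ih
    obtain ⟨η, g1, g2⟩ := exists_sgn (j + 1) (by omega) (by omega)
    have hco : (((ε * η : (𝓞 K)ˣ) : 𝓞 K) : K) = ((ε : 𝓞 K) : K) * ((η : 𝓞 K) : K) := by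
      simp
    refine ⟨ε * η, ?_, fun i => ?_⟩
    · unfold Rl at *
      rw [hco, map_mul, h1, g1]
    · rw [hco, re_mul h1]
      obtain ⟨a1, a2⟩ := h2 i
      obtain ⟨b1, b2⟩ := g2 (i + 1) (by omega) (by omega) (φ i) (hφ i)
      by_cases hij : i = j
      · subst hij
        have c1 := a2 hj
        have c2 := b1 rfl
        exact ⟨fun _ => mul_neg_of_pos_of_neg c1 c2, fun h => absurd (Finset.mem_insert_self i J) h⟩
      · have c2 := b2 (by
          intro h
          apply hij
          exact Fin.ext (by omega))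
        refine ⟨fun h => ?_, fun h => ?_⟩
        · exact mul_neg_of_neg_of_pos (a1 ((Finset.mem_insert.1 h).resolve_left hij)) c2
        · exact mul_pos (a2 fun h' => h (Finset.mem_insert_of_mem h')) c2

private theorem card_pl : Units.rank (maximalRealSubfield K) = 14 := by
  have h1 : Module.finrank ℚ K = 30 := by
    rw [IsCyclotomicExtension.Rat.finrank 31 K]
    decide
  have h2 : Module.finrank ℚ K = 2 * InfinitePlace.nrComplexPlaces K := IsTotallyComplex.finrank K
  have h3 : Fintype.card (InfinitePlace K) = InfinitePlace.nrRealPlaces K + InfinitePlace.nrComplexPlaces K :=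
    InfinitePlace.card_eq_nrRealPlaces_add_nrComplexPlaces K
  have h4 : InfinitePlace.nrRealPlaces K = 0 := IsTotallyComplex.nrRealPlaces_eq_zero K
  rw [IsCMField.units_rank_eq_units_rank, Units.rank, h3, h4]
  omega

private theorem bit (a : ℤ) : ∃ (m : ℤ) (b : Bool), a = 2 * m + (b.toNat : ℤ) := by
  rcases Int.emod_two_eq_zero_or_one a with h | h
  · exact ⟨a / 2, false, by simp; omega⟩
  · exact ⟨a / 2, true, by simp; omega⟩

/-- the representatives of the units modulo squares -/
private noncomputable def rep (g : (𝓞 (maximalRealSubfield K))ˣ) (b : Bool × (Fin (Units.rank (maximalRealSubfield K)) → Bool)) :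
    (𝓞 (maximalRealSubfield K))ˣ :=
  g ^ b.1.toNat * ∏ i, (Units.fundSystem (maximalRealSubfield K) i) ^ (b.2 i).toNat

private theorem dec : ∃ g : (𝓞 (maximalRealSubfield K))ˣ, ∀ v : (𝓞 (maximalRealSubfield K))ˣ,
    ∃ δ b, v = δ * δ * rep g b := by
  obtain ⟨g, hg⟩ := IsCyclic.exists_zpow_surjective (G := Units.torsion (maximalRealSubfield K))
  refine ⟨(g : (𝓞 (maximalRealSubfield K))ˣ), fun v => ?_⟩
  obtain ⟨⟨z, n⟩, hz, -⟩ := Units.exist_unique_eq_mul_prod (maximalRealSubfield K) v
  obtain ⟨k, hk⟩ := hg z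
  simp only at hk hz
  obtain ⟨m0, b0, h0⟩ := bit k
  choose m b h using fun i => bit (n i)
  refine ⟨(g : (𝓞 (maximalRealSubfield K))ˣ) ^ m0 * ∏ i, (Units.fundSystem (maximalRealSubfield K) i) ^ m i, (b0, b), ?_⟩
  have h1 : ∀ i, (Units.fundSystem (maximalRealSubfield K) i) ^ n i = (Units.fundSystem (maximalRealSubfield K) i) ^ m i *
      (Units.fundSystem (maximalRealSubfield K) i) ^ m i * (Units.fundSystem (maximalRealSubfield K) i) ^ (b i).toNat := by
    intro i
    rw [← zpow_natCast, ← zpow_add, ← zpow_add, h i]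
    congr 1
    ring
  have h2 : (z : (𝓞 (maximalRealSubfield K))ˣ) = (g : (𝓞 (maximalRealSubfield K))ˣ) ^ m0 * (g : (𝓞 (maximalRealSubfield K))ˣ) ^ m0 *
      (g : (𝓞 (maximalRealSubfield K))ˣ) ^ b0.toNat := by
    rw [← hk, Subgroup.coe_zpow, ← zpow_natCast, ← zpow_add, ← zpow_add, h0]
    congr 1
    ring
  rw [hz, h2, rep]
  simp_rw [h1]
  rw [Finset.prod_mul_distrib, Finset.prod_mul_distrib]
  generalize (∏ i, (Units.fundSystem (maximalRealSubfield K) i) ^ m i) = P
  generalize (∏ i, (Units.fundSystem (maximalRealSubfield K) i) ^ (b i).toNat) = R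
  generalize (g : (𝓞 (maximalRealSubfield K))ˣ) ^ m0 = Q
  generalize (g : (𝓞 (maximalRealSubfield K))ˣ) ^ b0.toNat = S
  simp only [mul_comm, mul_left_comm]

theorem tp_sq (e : (𝓞 K)ˣ) (hr : Rl ((e : 𝓞 K) : K)) (ht : Tp ((e : 𝓞 K) : K)) :
    ∃ d : (𝓞 K)ˣ, Rl ((d : 𝓞 K) : K) ∧ ((e : 𝓞 K) : K) = ((d : 𝓞 K) : K) ^ 2 := by
  classical
  obtain ⟨φ, hφ⟩ := embs
  obtain ⟨g, hg⟩ := dec
  obtain ⟨sg, hsg⟩ : ∃ sg : (𝓞 (maximalRealSubfield K))ˣ → Fin 15 → Bool, ∀ v i, sg v i = decide (0 < (φ i (toK v)).re) :=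
    ⟨fun v i => decide (0 < (φ i (toK v)).re), fun v i => rfl⟩
  have hsq : ∀ δ w : (𝓞 (maximalRealSubfield K))ˣ, sg (δ * δ * w) = sg w := by
    intro δ w
    funext i
    rw [hsg, hsg, mul_assoc, toK_mul, toK_mul, re_mul (toK_rl δ), re_mul (toK_rl δ)]
    have h1 := re_ne (toK_rl δ) (toK_ne δ) (φ i)
    have h2 : 0 < (φ i (toK δ)).re * (φ i (toK δ)).re := mul_self_pos.2 h1
    rw [← mul_assoc]
    congr 1
    rw [mul_pos_iff_of_pos_left h2]
  have hsurj : Function.Surjective fun b => sg (rep g b) := by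
    intro t
    obtain ⟨ε, h1, h2⟩ := surj_aux φ hφ (Finset.univ.filter fun i => t i = false)
    obtain ⟨v, hv⟩ := exists_toK ε h1
    obtain ⟨δ, b, hb⟩ := hg v
    refine ⟨b, ?_⟩
    simp only
    rw [← hsq δ, ← hb]
    funext i
    rw [hsg, hv]
    obtain ⟨a1, a2⟩ := h2 i
    cases hti : t i with
    | false =>
      have := a1 (by simp [hti])
      simp [this.le]
    | true =>
      have := a2 (by simp [hti])
      simp [this]
  have hcard : Fintype.card (Bool × (Fin (Units.rank (maximalRealSubfield K)) → Bool)) = Fintype.card (Fin 15 → Bool) := by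
    rw [Fintype.card_prod, Fintype.card_fun, Fintype.card_fun, Fintype.card_fin, Fintype.card_fin, card_pl]
    simp
  have hinj := ((Fintype.bijective_iff_surjective_and_card _).2 ⟨hsurj, hcard⟩).1
  obtain ⟨v, hv⟩ := exists_toK e hr
  obtain ⟨δ, b, hb⟩ := hg v
  have h0 : rep g (false, fun _ => false) = 1 := by simp [rep]
  have h1 : b = (false, fun _ => false) := by
    apply hinj
    simp only
    rw [h0, ← hsq δ (rep g b), ← hb]
    funext i
    rw [hsg, hsg, hv, toK_one]
    simp [(ht (φ i)).2]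
  rw [h1, h0, mul_one] at hb
  refine ⟨Units.map (algebraMap (𝓞 (maximalRealSubfield K)) (𝓞 K)).toMonoidHom δ, toK_rl δ, ?_⟩
  rw [← hv, hb, toK_mul, pow_two]
  rfl

end Pool.Agent.Helper2.E8A
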