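import Pool.Agent.Helper2.E8A.Inv
import Pool.Agent.Helper2.E8A.Jc
import Pool.Agent.Helper2.E8A.Gc
import Pool.Agent.Helper2.E8A.Squ

/-!
# Theorem A (helper2)
-/

set_option autoImplicit false

namespace Pool.Agent.Helper2.E8A

open NumberField Polynomial IsDedekindDomain nonZeroDivisors

theorem aT_mul (p q : ℤ[X]) (a : D) : aeval T (p * q) a = aeval T p (aeval T q a) := by
  rw [map_mul]; rfl

theorem aS_mul (p q : ℤ[X]) (a : Additive Kˣ) : aeval S (p * q) a = aeval S p (aeval S q a) := by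
  rw [map_mul]; rfl

theorem A_mul_Φ : A * Φ = X ^ 15 + 1 := by
  unfold A Φ; ring

theorem θ_eq : θ = (X ^ 21 - X ^ 20 + X ^ 19 + X ^ 17 + X ^ 16 + X ^ 14 + X ^ 13 + X ^ 12 + X ^ 11 + X ^ 10 + 2 * X ^ 8 +
    2 * X ^ 5 - X ^ 4 + 2 * X ^ 3 - X ^ 2 + 1) * Φ + 2 * X ^ 2 := by
  unfold θ Φ; ring

theorem T15_eq (a : D) : aeval T (X ^ 15 + 1 : ℤ[X]) a = (T ^ 15) a + a := by
  rw [map_add, map_pow, aeval_X, map_one]; rfl

theorem S15_eq (a : Additive Kˣ) : aeval S (X ^ 15 + 1 : ℤ[X]) a = (S ^ 15) a + a := by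
  rw [map_add, map_pow, aeval_X, map_one]; rfl

theorem aeval_fix {p : ℤ[X]} {a : D} (h : T a = a) : aeval T p a = (p.eval 1) • a := by
  induction p using Polynomial.induction_on' with
  | add p q hp hq => rw [map_add, LinearMap.add_apply, hp, hq, eval_add, add_smul]
  | monomial n c =>
    have h1 : ∀ n : ℕ, (T ^ n) a = a := by
      intro n
      induction n with
      | zero => rfl
      | succ n ih => rw [pow_succ, Module.End.mul_apply, h, ih]
    rw [aeval_monomial, eval_monomial, one_pow, mul_one, Module.End.mul_apply, h1, Module.algebraMap_end_apply]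

theorem Φ_eval : Φ.eval 1 = 1 := by
  unfold Φ; simp

theorem jac_sum (b : D) (hb : ∀ v ∈ b.support, Dg1 v) : ∃ z : Additive Kˣ, dv z = aeval T θ b := by
  classical
  have h1 : ∀ v : V, ∃ y : Additive Kˣ, v ∈ b.support → dv y = aeval T θ (Finsupp.single v 1) := by
    intro v
    by_cases h : v ∈ b.support
    · obtain ⟨y, hy⟩ := jac v (hb v h)
      exact ⟨y, fun _ => hy⟩
    · exact ⟨0, fun h' => absurd h' h⟩
  choose y hy using h1
  refine ⟨∑ v ∈ b.support, b v • y v, ?_⟩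
  conv_rhs => rw [← Finsupp.sum_single b]
  rw [Finsupp.sum, map_sum, map_sum]
  refine Finset.sum_congr rfl fun v hv => ?_
  rw [map_zsmul, hy v hv, ← map_zsmul, Finsupp.smul_single, smul_eq_mul, mul_one]

/-- `2 a` is principal. -/
theorem two_principal (a : D) (u : Additive Kˣ) (h : aeval T Φ a = dv u) : ∃ β : Additive Kˣ, (2 : ℤ) • a = dv β := by
  obtain ⟨b, y, hab, hb⟩ := exists_eff a
  obtain ⟨z, hz⟩ := jac_sum b hb
  have h1 : aeval T θ a = dv (z + aeval S θ y) := by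
    rw [hab, map_add, ← hz, ← dv_aeval, ← map_add]
  have h2 := h1
  rw [θ_eq, map_add, LinearMap.add_apply, aT_mul, h] at h2
  set q : ℤ[X] := (X ^ 21 - X ^ 20 + X ^ 19 + X ^ 17 + X ^ 16 + X ^ 14 + X ^ 13 + X ^ 12 + X ^ 11 + X ^ 10 + 2 * X ^ 8 +
    2 * X ^ 5 - X ^ 4 + 2 * X ^ 3 - X ^ 2 + 1) with hq
  rw [← dv_aeval] at h2
  have h3 : aeval T (2 * X ^ 2 : ℤ[X]) a = (2 : ℤ) • (T ^ 2) a := by
    rw [two_mul, map_add, map_pow, aeval_X, two_smul]
    rfl
  have h4 : (2 : ℤ) • (T ^ 2) a = dv (z + aeval S θ y - aeval S q u) := by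
    rw [← h3, map_sub]
    rw [← θ_eq] at h2
    exact eq_sub_of_add_eq' h2
  refine ⟨(S ^ 28) (z + aeval S θ y - aeval S q u), ?_⟩
  have h5 : dv ((S ^ 28) (z + aeval S θ y - aeval S q u)) = (T ^ 28) (dv (z + aeval S θ y - aeval S q u)) := by
    have := dv_aeval (X ^ 28) (z + aeval S θ y - aeval S q u)
    rwa [map_pow, aeval_X, map_pow, aeval_X] at this
  rw [h5, ← h4, map_zsmul]
  have h6 : (T ^ 28) ((T ^ 2) a) = a := by
    rw [← Module.End.mul_apply, ← pow_add, T30]; rfl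
  rw [h6]

theorem dv_add (x y : Additive Kˣ) : dv (x + y) = dv x + dv y := dv.map_add x y

theorem dv_sub (x y : Additive Kˣ) : dv (x - y) = dv x - dv y := dv.map_sub x y

theorem dv_zsmul (n : ℤ) (x : Additive Kˣ) : dv (n • x) = n • dv x := dv.map_zsmul n x

theorem exists_toMul (x : K) (hx : x ≠ 0) : ∃ y : Additive Kˣ, (y.toMul : K) = x :=
  ⟨Additive.ofMul (Units.mk0 x hx), rfl⟩

theorem toMul_nsmul' (n : ℕ) (x : Additive Kˣ) : (((n • x).toMul : Kˣ) : K) = (x.toMul : K) ^ n := by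
  rw [toMul_nsmul, Units.val_pow_eq_pow_val]

/-- The value of an element of `Kˣ`. -/
theorem toMul_add (x y : Additive Kˣ) : (((x + y).toMul : Kˣ) : K) = (x.toMul : K) * (y.toMul : K) := rfl

theorem toMul_neg (x : Additive Kˣ) : (((-x).toMul : Kˣ) : K) = (x.toMul : K)⁻¹ := by
  change (((x.toMul)⁻¹ : Kˣ) : K) = _
  rw [Units.val_inv_eq_inv_val]

theorem toMul_sub (x y : Additive Kˣ) : (((x - y).toMul : Kˣ) : K) = (x.toMul : K) * (y.toMul : K)⁻¹ := by
  rw [sub_eq_add_neg, toMul_add, toMul_neg]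

theorem toMul_inj {x y : Additive Kˣ} (h : (x.toMul : K) = (y.toMul : K)) : x = y :=
  Additive.toMul.injective (Units.ext h)

theorem Tp.mul {x y : K} (hx : Tp x) (hy : Tp y) : Tp (x * y) := by
  intro φ
  obtain ⟨h1, h2⟩ := hx φ
  obtain ⟨h3, h4⟩ := hy φ
  rw [map_mul, Complex.mul_im, Complex.mul_re, h1, h3]
  constructor
  · ring
  · have := mul_pos h2 h4
    linarith

theorem Tp.inv {x : K} (hx : Tp x) : Tp x⁻¹ := by
  intro φ
  obtain ⟨h1, h2⟩ := hx φ
  rw [map_inv₀, Complex.inv_im, Complex.inv_re, h1]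
  constructor
  · simp
  · exact div_pos h2 (Complex.normSq_pos.mpr (fun h => by rw [h] at h2; simp at h2))

theorem tp_norm {x : K} (hx : x ≠ 0) : Tp (x * (σ ^ 15) x) := by
  intro φ
  rw [map_mul, ← conj_emb, Complex.mul_conj]
  constructor
  · exact Complex.ofReal_im _
  · rw [Complex.ofReal_re]
    exact Complex.normSq_pos.mpr (fun h => hx ((map_eq_zero φ).mp h))

/-- Reality in `Additive Kˣ`. -/
theorem rl_iff (x : Additive Kˣ) : Rl (x.toMul : K) ↔ (S ^ 15) x = x := by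
  unfold Rl
  constructor
  · intro h
    exact toMul_inj (by rw [S_pow_toMul, h])
  · intro h
    rw [← S_pow_toMul, h]

theorem S15_S15 (x : Additive Kˣ) : (S ^ 15) ((S ^ 15) x) = x := by
  rw [← Module.End.mul_apply, ← pow_add, S30]; rfl

theorem T15_T15 (x : D) : (T ^ 15) ((T ^ 15) x) = x := by
  rw [← Module.End.mul_apply, ← pow_add, T30]; rfl

theorem dv_S15 (x : Additive Kˣ) : dv ((S ^ 15) x) = (T ^ 15) (dv x) := by
  have := dv_aeval (X ^ 15) x
  rwa [map_pow, aeval_X, map_pow, aeval_X] at this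

/-- Totally positive elements with divisor zero are twice (additively) a real unit. -/
theorem tp_two {g : Additive Kˣ} (h0 : dv g = 0) (ht : Tp (g.toMul : K)) : ∃ δ : Additive Kˣ, dv δ = 0 ∧
    (S ^ 15) δ = δ ∧ g = (2 : ℤ) • δ := by
  obtain ⟨e, he⟩ := unit_of_dv h0
  rw [← he] at ht
  obtain ⟨d, h1, h2⟩ := tp_sq e (rl_of_tp ht) ht
  have hd0 : ((d : 𝓞 K) : K) ≠ 0 := by
    intro h
    rw [h, zero_pow two_ne_zero] at h2
    rw [h2] at he
    exact (g.toMul).ne_zero he.symm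
  refine ⟨Additive.ofMul (Units.mk0 ((d : 𝓞 K) : K) hd0), ?_, ?_, ?_⟩
  · exact dv_of_unit d (by simp)
  · rw [← rl_iff]
    simpa using h1
  · apply toMul_inj
    rw [← he, h2, two_zsmul, toMul_add]
    simp [sq]

theorem a_principal (a : D) (u : Additive Kˣ) (h : aeval T Φ a = dv u) (hp : Tp ((aeval S A u).toMul : K)) :
    ∃ x : Additive Kˣ, a = dv x := by
  obtain ⟨β, hβ⟩ := two_principal a u h
  set f := aeval S A u with hf
  have hdf : dv f = (T ^ 15) a + a := by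
    rw [hf, dv_aeval, ← h, ← aT_mul, A_mul_Φ, T15_eq]
  have hfr : (S ^ 15) f = f := (rl_iff f).mp (rl_of_tp hp)
  have hg0 : dv (β + (S ^ 15) β - (f + f)) = 0 := by
    rw [dv_sub, dv_add, dv_add, dv_S15, ← hβ, hdf, (T ^ 15).map_smul, two_zsmul, two_zsmul]
    abel
  have hgt : Tp (((β + (S ^ 15) β - (f + f)).toMul : Kˣ) : K) := by
    rw [toMul_sub, toMul_add, toMul_add, S_pow_toMul]
    have h1 : ((β.toMul : Kˣ) : K) ≠ 0 := Units.ne_zero _
    exact Tp.mul (tp_norm h1) (Tp.inv (Tp.mul hp hp))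
  obtain ⟨δ, hδ0, hδr, hδ⟩ := tp_two hg0 hgt
  set γ := β - δ - f with hγ
  have hγr : γ + (S ^ 15) γ = 0 := by
    rw [hγ, map_sub, map_sub, hδr, hfr]
    have h1 : β + (S ^ 15) β = (2 : ℤ) • δ + (f + f) := by
      rw [← hδ]; abel
    calc β - δ - f + ((S ^ 15) β - δ - f) = (β + (S ^ 15) β) - ((2 : ℤ) • δ + (f + f)) := by
          rw [two_zsmul]; abel
      _ = 0 := by rw [h1, sub_self]
  have hγdv : dv γ = a - (T ^ 15) a := by
    rw [hγ, dv_sub, dv_sub, hδ0, hdf, ← hβ, two_zsmul]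
    abel
  obtain ⟨η, hη0, hη⟩ := hilbert (c := (γ.toMul : K)) (by
    rw [← S_pow_toMul, ← toMul_add, hγr]; rfl)
  obtain ⟨y, hy⟩ := exists_toMul η hη0
  have hγy : γ = y - (S ^ 15) y := by
    apply toMul_inj
    rw [hη, toMul_sub, S_pow_toMul, div_eq_mul_inv, hy]
  have hinv : (T ^ 15) (a - dv y) = a - dv y := by
    have h1 : a - (T ^ 15) a = dv y - (T ^ 15) (dv y) := by
      rw [← hγdv, hγy, map_sub, dv_S15]
    rw [map_sub]
    calc (T ^ 15) a - (T ^ 15) (dv y) = a - dv y - ((a - (T ^ 15) a) - (dv y - (T ^ 15) (dv y))) := by abel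
      _ = a - dv y := by rw [h1, sub_self, sub_zero]
  obtain ⟨x, j, hx⟩ := inv_div _ hinv
  refine ⟨y + x + j • pi0, ?_⟩
  rw [dv_add, dv_add, dv_zsmul, dv_pi0, add_assoc, ← hx]
  abel

theorem S_ζ : ∀ (n : ℕ) (z : Additive Kˣ), (z.toMul : K) = ζ → (((S ^ n) z).toMul : K) = ζ ^ 3 ^ n := by
  intro n z hz
  rw [S_pow_toMul, hz, σ_pow_ζ]

theorem thmA0 (a : D) (u : Additive Kˣ)
    (h : aeval T Φ a = dv u) (hp : Tp ((aeval S A u).toMul : K)) :
    ∃ x : Additive Kˣ, a = dv x ∧ (u = aeval S Φ x ∨ u = aeval S Φ x + neg1) := by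
  obtain ⟨x, hx⟩ := a_principal a u h hp
  have he0 : dv (u - aeval S Φ x) = 0 := by
    rw [map_sub, dv_aeval, ← hx, h, sub_self]
  obtain ⟨e, he⟩ := unit_of_dv he0
  obtain ⟨i, ε, hr, hε⟩ := unit_dec e
  set w : Additive Kˣ := u - aeval S Φ x with hw
  -- `ζ` and `ε` as elements of `Additive Kˣ`
  obtain ⟨z, hzz⟩ := exists_toMul ζ (hζ.ne_zero (by norm_num))
  have hε0 : ((ε : 𝓞 K) : K) ≠ 0 := by
    intro h0
    rw [h0, mul_zero] at hε
    rw [hε] at he
    exact (w.toMul).ne_zero he.symm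
  obtain ⟨t, htt⟩ := exists_toMul _ hε0
  have htr : (S ^ 15) t = t := (rl_iff t).mp (by rw [htt]; exact hr)
  have hwt : w = i • z + t := by
    apply toMul_inj
    rw [← he, hε, toMul_add, toMul_nsmul', hzz, htt]
  -- `aeval S A w` is totally positive
  have hAw : Tp (((aeval S A w).toMul : Kˣ) : K) := by
    have h1 : aeval S A w = aeval S A u - (x + (S ^ 15) x) := by
      rw [hw, map_sub, ← aS_mul, A_mul_Φ, S15_eq, add_comm x]
    rw [h1, toMul_sub, toMul_add, S_pow_toMul]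
    have h2 : ((x.toMul : Kˣ) : K) ≠ 0 := Units.ne_zero _
    exact Tp.mul hp (Tp.inv (tp_norm h2))
  have hAz : aeval S A z = (1708 : ℤ) • z := by
    have h1 : ∀ n : ℕ, (S ^ n) z = (3 ^ n : ℕ) • z := by
      intro n
      apply toMul_inj
      rw [S_ζ n z hzz, toMul_nsmul', hzz]
    unfold A
    simp only [map_add, map_sub, map_pow, aeval_X, map_one, LinearMap.add_apply, LinearMap.sub_apply, h1,
      Module.End.one_apply]
    have h2 : S z = (3 : ℕ) • z := by simpa using h1 1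
    rw [h2]
    norm_num
    abel
  have hAt : (S ^ 15) (aeval S A t) = aeval S A t := by
    have h1 : ∀ y : Additive Kˣ, (S ^ 15) y = aeval S (X ^ 15 : ℤ[X]) y := by
      intro y
      rw [map_pow, aeval_X]
    rw [h1, ← aS_mul, mul_comm, aS_mul, ← h1, htr]
  have hi : ζ ^ i = 1 := by
    have h1 : (S ^ 15) (aeval S A w) = aeval S A w := (rl_iff _).mp (rl_of_tp hAw)
    rw [hwt, map_add, map_add, hAt] at h1
    have h2 := add_right_cancel h1
    rw [← rl_iff, map_nsmul, hAz] at h2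
    have h3 : (((i • (1708 : ℤ) • z).toMul : Kˣ) : K) = ζ ^ (1708 * i) := by
      have : i • (1708 : ℤ) • z = (1708 * i) • z := by
        rw [← natCast_zsmul, ← natCast_zsmul, smul_smul, Nat.cast_mul, mul_comm]
        rfl
      rw [this, toMul_nsmul', hzz]
    rw [h3] at h2
    have h4 : 31 ∣ 1708 * i := dvd_of_rl h2
    have h5 : 31 ∣ i := by omega
    exact (hζ.pow_eq_one_iff_dvd i).mpr h5
  have hwt' : w = t := by
    apply toMul_inj
    rw [← he, hε, hi, one_mul, htt]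
  rw [hwt'] at hAw
  have hdt : dv t = 0 := by rw [← hwt', hw, he0]
  obtain ⟨δ, hδ0, hδr, hδ⟩ := tp_two (by rw [dv_aeval, hdt, map_zero]) hAw
  have h2 : (2 : ℤ) • (t - aeval S Φ δ) = 0 := by
    rw [zsmul_sub, ← map_zsmul, ← hδ, ← aS_mul, mul_comm, A_mul_Φ, S15_eq, htr, two_zsmul, sub_self]
  refine ⟨x + δ, by rw [map_add, hδ0, add_zero, hx], ?_⟩
  have h3 : (((t - aeval S Φ δ).toMul : Kˣ) : K) ^ 2 = 1 := by
    rw [two_zsmul] at h2
    rw [sq, ← toMul_add, h2]
    rfl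
  have hut : u = t + aeval S Φ x := by rw [← hwt', hw, sub_add_cancel]
  have h5 : u = aeval S Φ (x + δ) + (t - aeval S Φ δ) := by
    rw [hut, map_add]; abel
  rcases sq_eq_one_iff.mp h3 with h4 | h4
  · left
    have h6 : t - aeval S Φ δ = 0 := toMul_inj h4
    rw [h5, h6, add_zero]
  · right
    have h6 : t - aeval S Φ δ = neg1 := toMul_inj (by rw [h4]; rfl)
    rw [h5, h6]

/-- Theorem A. -/
theorem thmA (a : D) (u : Additive Kˣ) (k : ℤ)
    (h : aeval T Φ a = dv u + k • Finsupp.single P0 1) (hp : Tp ((aeval S A u).toMul : K)) :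
    ∃ (x : Additive Kˣ) (j : ℤ), a = dv x + j • Finsupp.single P0 1 ∧
      (u = aeval S Φ x ∨ u = aeval S Φ x + neg1) := by
  have hfix : T (k • Finsupp.single P0 1) = k • Finsupp.single P0 (1 : ℤ) := by
    rw [map_zsmul, T_single, sV_P0]
  obtain ⟨x, hx, hu⟩ := thmA0 (a - k • Finsupp.single P0 1) u (by
    rw [map_sub, h, aeval_fix hfix, Φ_eval, one_zsmul, add_sub_cancel_right]) hp
  exact ⟨x, k, by rw [← hx, sub_add_cancel], hu⟩

end Pool.Agent.Helper2.E8A
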